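import Mathlib

namespace Pool.Agent.Lib.MP_b90951_co

/-- Boolean functions in `n` variables. -/
abbrev BoolFun (n : ℕ) : Type := (Fin n → ZMod 2) → ZMod 2

/-- The Walsh-Hadamard transform: the sum over `x` of `(-1)^(f x + a·x)`. -/
def walsh {n : ℕ} (f : BoolFun n) (a : Fin n → ZMod 2) : ℤ :=
  ∑ x : Fin n → ZMod 2, (-1) ^ (f x + ∑ i, a i * x i).val

/-- `f` is bent: every Walsh coefficient has absolute value `2^(n/2)`. -/
def IsBent {n : ℕ} (f : BoolFun n) : Prop :=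
  ∀ a, |walsh f a| = 2 ^ (n / 2)

/-- The algebraic normal form of `f` has degree at most `d`. -/
def DegLE {n : ℕ} (f : BoolFun n) (d : ℕ) : Prop :=
  ∃ c : Finset (Fin n) → ZMod 2, (∀ S, d < S.card → c S = 0) ∧
    ∀ x, f x = ∑ S, c S * ∏ i ∈ S, x i

/-- The set `X_n` of sums of two bent functions. -/
def BentSums (n : ℕ) : Set (BoolFun n) :=
  {ψ | ∃ f h : BoolFun n, IsBent f ∧ IsBent h ∧ ψ = f + h}

/-- The multiplicity `m(ψ)`: the number of bent `f` with `ψ + f` bent. -/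
noncomputable def mult {n : ℕ} (ψ : BoolFun n) : ℕ :=
  {f : BoolFun n | IsBent f ∧ IsBent (ψ + f)}.ncard

end Pool.Agent.Lib.MP_b90951_co
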