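import Mathlib
import Pool.Agent.Lib.MP_b90951_co.Defs

namespace Pool.Agent.Lib.MP_b90951_co

open Finset

abbrev Cube (m : ℕ) : Type := Fin m → ZMod 2

/-- The sign `(-1)^t` as a real number. -/
noncomputable def sg (t : ZMod 2) : ℝ := (-1) ^ t.val

lemma zmod2_cases (t : ZMod 2) : t = 0 ∨ t = 1 := by
  revert t; decide

@[simp] lemma sg_zero : sg 0 = 1 := by simp [sg]

@[simp] lemma sg_one : sg 1 = -1 := by
  have : (1 : ZMod 2).val = 1 := rfl
  simp [sg, this]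

lemma sg_add (s t : ZMod 2) : sg (s + t) = sg s * sg t := by
  have h11 : (1 : ZMod 2) + 1 = 0 := rfl
  rcases zmod2_cases s with rfl | rfl <;> rcases zmod2_cases t with rfl | rfl <;> simp [h11]

lemma sg_mul_self (t : ZMod 2) : sg t * sg t = 1 := by
  rcases zmod2_cases t with rfl | rfl <;> simp

lemma sg_int (t : ZMod 2) : sg t = (((-1 : ℤ) ^ t.val : ℤ) : ℝ) := by
  simp [sg]

lemma sum_zmod2 {M : Type*} [AddCommMonoid M] (f : ZMod 2 → M) : ∑ t, f t = f 0 + f 1 := by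
  exact Fin.sum_univ_two (f : Fin 2 → M)

lemma sum_cube_succ {M : Type*} [AddCommMonoid M] {m : ℕ} (f : Cube (m + 1) → M) :
    ∑ x, f x = ∑ x : Cube m, f (Fin.cons 0 x) + ∑ x : Cube m, f (Fin.cons 1 x) := by
  rw [← (Fin.consEquiv (fun _ : Fin (m + 1) => ZMod 2)).sum_comp, Fintype.sum_prod_type,
    sum_zmod2]
  rfl

/-- The Hadamard transform of a real vector. -/
noncomputable def hat {m : ℕ} (y : Cube m → ℝ) (b : Cube m) : ℝ :=
  ∑ x, sg (∑ i, b i * x i) * y x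

def lo {m : ℕ} (y : Cube (m + 1) → ℝ) : Cube m → ℝ := fun x => y (Fin.cons 0 x)
def hi {m : ℕ} (y : Cube (m + 1) → ℝ) : Cube m → ℝ := fun x => y (Fin.cons 1 x)

lemma hat_cons_zero {m : ℕ} (y : Cube (m + 1) → ℝ) (b : Cube m) :
    hat y (Fin.cons 0 b) = hat (lo y) b + hat (hi y) b := by
  simp [hat, sum_cube_succ, Fin.sum_univ_succ, lo, hi]

lemma hat_cons_one {m : ℕ} (y : Cube (m + 1) → ℝ) (b : Cube m) :
    hat y (Fin.cons 1 b) = hat (lo y) b - hat (hi y) b := by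
  simp [hat, sum_cube_succ, Fin.sum_univ_succ, lo, hi, sg_add, sub_eq_add_neg]

lemma hat_sub {m : ℕ} (y y' : Cube m → ℝ) (b : Cube m) :
    hat (y - y') b = hat y b - hat y' b := by
  simp [hat, mul_sub, Finset.sum_sub_distrib]

lemma lo_sub {m : ℕ} (y y' : Cube (m + 1) → ℝ) : lo (y - y') = lo y - lo y' := rfl
lemma hi_sub {m : ℕ} (y y' : Cube (m + 1) → ℝ) : hi (y - y') = hi y - hi y' := rfl

lemma ext_lo_hi {m : ℕ} {y y' : Cube (m + 1) → ℝ} (h0 : lo y = lo y') (h1 : hi y = hi y') :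
    y = y' := by
  funext x
  have hx : x = Fin.cons (x 0) (Fin.tail x) := (Fin.cons_self_tail x).symm
  rcases zmod2_cases (x 0) with h | h
  · rw [hx, h]; exact congrFun h0 _
  · rw [hx, h]; exact congrFun h1 _

/-- Integer vectors whose Hadamard transform is divisible by `2^e`. -/
def InL {m : ℕ} (e : ℕ) (y : Cube m → ℝ) : Prop :=
  (∀ x, ∃ k : ℤ, y x = k) ∧ ∀ b, ∃ k : ℤ, hat y b = 2 ^ e * k

lemma hat_int {m : ℕ} {y : Cube m → ℝ} (h : ∀ x, ∃ k : ℤ, y x = k) (b : Cube m) :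
    ∃ k : ℤ, hat y b = k := by
  choose k hk using h
  refine ⟨∑ x, (-1) ^ (∑ i, b i * x i).val * k x, ?_⟩
  simp [hat, hk, sg]

lemma InL.lo {m e : ℕ} {y : Cube (m + 1) → ℝ} (h : InL e y) : InL (e - 1) (lo y) := by
  refine ⟨fun x => h.1 _, fun b => ?_⟩
  rcases e with _ | e
  · obtain ⟨k, hk⟩ := hat_int (y := Pool.Agent.Lib.MP_b90951_co.lo y) (fun x => h.1 _) b
    exact ⟨k, by simpa using hk⟩
  · obtain ⟨k0, h0⟩ := h.2 (Fin.cons 0 b)
    obtain ⟨k1, h1⟩ := h.2 (Fin.cons 1 b)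
    rw [hat_cons_zero] at h0
    rw [hat_cons_one] at h1
    refine ⟨k0 + k1, ?_⟩
    simp only [Nat.add_sub_cancel]
    push_cast
    rw [pow_succ] at h0 h1
    linarith

lemma InL.diff {m e : ℕ} {y : Cube (m + 1) → ℝ} (h : InL e y) :
    InL e (hi y - Pool.Agent.Lib.MP_b90951_co.lo y) := by
  refine ⟨fun x => ?_, fun b => ?_⟩
  · obtain ⟨k0, h0⟩ := h.1 (Fin.cons 0 x)
    obtain ⟨k1, h1⟩ := h.1 (Fin.cons 1 x)
    refine ⟨k1 - k0, ?_⟩
    simp [Pool.Agent.Lib.MP_b90951_co.lo, hi, h0, h1]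
  · obtain ⟨k1, h1⟩ := h.2 (Fin.cons 1 b)
    rw [hat_cons_one] at h1
    refine ⟨-k1, ?_⟩
    rw [hat_sub]
    push_cast
    linarith

lemma hat_zero_dim (y : Cube 0 → ℝ) (b : Cube 0) : hat y b = y 0 := by
  simp only [hat, Finset.univ_unique, Finset.sum_singleton, Finset.univ_eq_empty,
    Finset.sum_empty, sg_zero, one_mul]
  congr 1
  exact Subsingleton.elim _ _

end Pool.Agent.Lib.MP_b90951_co
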