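import Mathlib
import Pool.Agent.Lib.MP_b90951_co.Cube

namespace Pool.Agent.Lib.MP_b90951_co

open Finset

noncomputable def gam (z : ℕ) : ℝ := 4 * ((z : ℝ) + 1) * Real.log 2

/-- the counter of crossings from `W = 0` to `W = -1` -/
def nz (m e z : ℕ) : ℕ := if 2 * e = m + 1 then z + 1 else z

/-- The quadratic form used as a weight. -/
noncomputable def Q : (m : ℕ) → ℕ → ℕ → (Cube m → ℝ) → ℝ
  | 0, e, z, y => gam z * (y 0 / 2 ^ e) ^ 2
  | m + 1, e, z, y =>
      if 2 * e ≤ m + 1 then Q m (e - 1) z (lo y) + Q m e (nz m e z) (hi y)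
      else Q m (e - 1) z (fun x => (lo y x + hi y x) / 2) + Q m e (nz m e z) (hi y - lo y)

/-- The logarithm of the bound for the theta sum. -/
noncomputable def A : ℕ → ℕ → ℕ → ℝ
  | 0, _, z => 2 / 2 ^ z
  | m + 1, e, z => A m (e - 1) z + A m e (nz m e z)

/-- The trace of `Q`. -/
noncomputable def tr : ℕ → ℕ → ℕ → ℝ
  | 0, e, z => gam z / 4 ^ e
  | m + 1, e, z =>
      if 2 * e ≤ m + 1 then tr m (e - 1) z + tr m e (nz m e z)
      else tr m (e - 1) z / 2 + 2 * tr m e (nz m e z)

lemma sum_int_geom (p : ℝ) (hp0 : 0 ≤ p) (hp1 : p < 1) (J : Finset ℤ) :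
    ∑ j ∈ J, p ^ j.natAbs ≤ 1 + 2 * p / (1 - p) := by
  have h1 : HasSum (fun n : ℕ => p ^ n) (1 - p)⁻¹ := hasSum_geometric_of_lt_one hp0 hp1
  have h2 : HasSum (fun n : ℕ => p ^ (n + 1)) (p * (1 - p)⁻¹) := by
    simpa [pow_succ, mul_comm] using h1.mul_left p
  have h3 : HasSum (fun j : ℤ => p ^ j.natAbs) ((1 - p)⁻¹ + p * (1 - p)⁻¹) := by
    apply HasSum.of_nat_of_neg_add_one
    · simpa using h1
    · convert h2 using 2 with n
      congr 1
  have h4 := sum_le_hasSum J (fun j _ => pow_nonneg hp0 j.natAbs) h3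
  have h5 : (1 - p) ≠ 0 := by linarith
  calc _ ≤ (1 - p)⁻¹ + p * (1 - p)⁻¹ := h4
    _ = 1 + 2 * p / (1 - p) := by field_simp; ring

lemma sq_ge_round (s : ℝ) : ((round s).natAbs : ℝ) / 4 ≤ s ^ 2 := by
  have h := abs_sub_round s
  set j := round s with hj
  have hj' : ((j.natAbs : ℕ) : ℝ) = |(j : ℝ)| := by
    rw [← Int.cast_abs, Int.abs_eq_natAbs]; simp
  rw [hj']
  rcases eq_or_ne j 0 with h0 | h0
  · rw [h0]; simp; positivity
  · have h1 : (1 : ℝ) ≤ |(j : ℝ)| := by
      rw [← Int.cast_abs]; exact_mod_cast Int.one_le_abs h0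
    have h2 : |(j : ℝ)| - 1 / 2 ≤ |s| := by
      have := abs_sub_abs_le_abs_sub (j : ℝ) s
      rw [abs_sub_comm] at this
      linarith
    rw [← sq_abs s]
    nlinarith [abs_nonneg s]

lemma theta_base (e z : ℕ) (T : Finset (Cube 0 → ℝ))
    (hT : ∀ y ∈ T, ∀ y' ∈ T, InL e (y - y')) :
    ∑ y ∈ T, Real.exp (-Q 0 e z y) ≤ Real.exp (A 0 e z) := by
  classical
  set p : ℝ := (1 / 2) ^ (z + 1) with hp
  have hp0 : 0 < p := by positivity
  have hp1 : p ≤ 1 / 2 := by
    rw [hp, pow_succ]
    have : (1 / 2 : ℝ) ^ z ≤ 1 := pow_le_one₀ (by norm_num) (by norm_num)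
    linarith
  have hexp : Real.exp (-(gam z / 4)) = p := by
    have : -(gam z / 4) = ((z + 1 : ℕ) : ℝ) * Real.log (1 / 2) := by
      rw [gam, one_div, Real.log_inv]; push_cast; ring
    rw [this, Real.exp_nat_mul, Real.exp_log (by norm_num)]
  have hg : 0 ≤ gam z := by
    have := Real.log_pos (show (1 : ℝ) < 2 by norm_num)
    rw [gam]; positivity
  let φ : (Cube 0 → ℝ) → ℤ := fun y => round (y 0 / 2 ^ e)
  have hinj : Set.InjOn φ T := by
    intro y hy y' hy' h
    obtain ⟨k, hk⟩ := (hT y hy y' hy').2 0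
    rw [hat_zero_dim] at hk
    have h2 : y 0 / 2 ^ e = y' 0 / 2 ^ e + k := by
      have : y 0 = y' 0 + 2 ^ e * k := by
        have : y 0 - y' 0 = 2 ^ e * k := hk
        linarith
      rw [this]; field_simp
    have h3 : φ y = φ y' + k := by
      simp only [φ]; rw [h2, round_add_intCast]
    have hk0 : k = 0 := by omega
    funext x
    rw [Subsingleton.elim x 0]
    have : y 0 - y' 0 = 2 ^ e * k := hk
    rw [hk0, Int.cast_zero, mul_zero] at this
    linarith
  calc ∑ y ∈ T, Real.exp (-Q 0 e z y) ≤ ∑ y ∈ T, p ^ (φ y).natAbs := by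
        apply Finset.sum_le_sum
        intro y _
        rw [← hexp, ← Real.exp_nat_mul]
        apply Real.exp_le_exp.mpr
        have := sq_ge_round (y 0 / 2 ^ e)
        simp only [Q, φ]
        nlinarith
    _ = ∑ j ∈ T.image φ, p ^ j.natAbs := by
        rw [Finset.sum_image hinj]
    _ ≤ 1 + 2 * p / (1 - p) := sum_int_geom p hp0.le (by linarith) _
    _ ≤ 1 + 4 * p := by
        have : 2 * p / (1 - p) ≤ 4 * p := by
          rw [div_le_iff₀ (by linarith)]; nlinarith
        linarith
    _ ≤ Real.exp (A 0 e z) := by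
        have : A 0 e z = 4 * p := by
          simp only [A, hp]; rw [pow_succ, one_div, inv_pow]; field_simp; norm_num
        rw [this]
        linarith [Real.add_one_le_exp (4 * p)]

lemma sum_fiber_le {α β γ : Type*} (T : Finset α) (p : α → β) (q : α → γ)
    (hinj : ∀ a a', p a = p a' → q a = q a' → a = a') (f : β → ℝ) (g : γ → ℝ) (F G : ℝ)
    (hf0 : ∀ b, 0 ≤ f b) (hG : 0 ≤ G)
    (hf : ∀ S : Finset β, (∀ b ∈ S, ∃ a ∈ T, p a = b) → ∑ b ∈ S, f b ≤ F)
    (hg : ∀ b, ∀ S : Finset γ, (∀ c ∈ S, ∃ a ∈ T, p a = b ∧ q a = c) → ∑ c ∈ S, g c ≤ G) :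
    ∑ a ∈ T, f (p a) * g (q a) ≤ F * G := by
  classical
  rw [← Finset.sum_fiberwise_of_maps_to (s := T) (t := T.image p) (g := p)
    (fun a ha => Finset.mem_image_of_mem p ha)]
  calc ∑ b ∈ T.image p, ∑ a ∈ T with p a = b, f (p a) * g (q a)
      ≤ ∑ b ∈ T.image p, f b * G := by
        apply Finset.sum_le_sum
        intro b _
        have h1 : ∑ a ∈ T with p a = b, f (p a) * g (q a)
            = f b * ∑ a ∈ T with p a = b, g (q a) := by
          rw [Finset.mul_sum]
          apply Finset.sum_congr rfl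
          intro a ha
          rw [(Finset.mem_filter.mp ha).2]
        rw [h1]
        apply mul_le_mul_of_nonneg_left _ (hf0 b)
        have h2 : ∑ a ∈ T with p a = b, g (q a)
            = ∑ c ∈ (T.filter (fun a => p a = b)).image q, g c := by
          rw [Finset.sum_image]
          intro a ha a' ha' h
          simp only [Finset.coe_filter, Set.mem_ofPred_eq] at ha ha'
          exact hinj a a' (ha.2.trans ha'.2.symm) h
        rw [h2]
        apply hg b
        intro c hc
        obtain ⟨a, ha, rfl⟩ := Finset.mem_image.mp hc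
        exact ⟨a, (Finset.mem_filter.mp ha).1, (Finset.mem_filter.mp ha).2, rfl⟩
    _ = (∑ b ∈ T.image p, f b) * G := by rw [Finset.sum_mul]
    _ ≤ F * G := by
        apply mul_le_mul_of_nonneg_right _ hG
        apply hf
        intro b hb
        obtain ⟨a, ha, rfl⟩ := Finset.mem_image.mp hb
        exact ⟨a, ha, rfl⟩

theorem theta (m : ℕ) : ∀ (e z : ℕ) (T : Finset (Cube m → ℝ)),
    (∀ y ∈ T, ∀ y' ∈ T, InL e (y - y')) →
    ∑ y ∈ T, Real.exp (-Q m e z y) ≤ Real.exp (A m e z) := by
  induction m with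
  | zero => exact theta_base
  | succ m ih =>
    intro e z T hT
    by_cases h : 2 * e ≤ m + 1
    · have := sum_fiber_le T lo hi (fun a a' h0 h1 => ext_lo_hi h0 h1)
        (fun u => Real.exp (-Q m (e - 1) z u)) (fun v => Real.exp (-Q m e (nz m e z) v))
        (Real.exp (A m (e - 1) z)) (Real.exp (A m e (nz m e z)))
        (fun _ => (Real.exp_pos _).le) (Real.exp_pos _).le
        (fun S hS => ih _ _ S (by
          intro u hu u' hu'
          obtain ⟨y, hy, rfl⟩ := hS u hu
          obtain ⟨y', hy', rfl⟩ := hS u' hu'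
          exact (hT y hy y' hy').lo))
        (fun b S hS => ih _ _ S (by
          intro v hv v' hv'
          obtain ⟨y, hy, hb, rfl⟩ := hS v hv
          obtain ⟨y', hy', hb', rfl⟩ := hS v' hv'
          have := (hT y hy y' hy').diff
          rw [lo_sub, hi_sub, hb, hb', sub_self, sub_zero] at this
          exact this))
      simp only [← Real.exp_add] at this
      simp only [Q, A, if_pos h, neg_add]
      exact this
    · have := sum_fiber_le T (fun y => hi y - lo y) (fun y => fun x => (lo y x + hi y x) / 2)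
        (fun a a' h0 h1 => by
          apply ext_lo_hi
          · funext x
            have e0 := congrFun h0 x
            have e1 := congrFun h1 x
            simp only [Pi.sub_apply] at e0 e1
            linarith
          · funext x
            have e0 := congrFun h0 x
            have e1 := congrFun h1 x
            simp only [Pi.sub_apply] at e0 e1
            linarith)
        (fun v => Real.exp (-Q m e (nz m e z) v)) (fun u => Real.exp (-Q m (e - 1) z u))
        (Real.exp (A m e (nz m e z))) (Real.exp (A m (e - 1) z))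
        (fun _ => (Real.exp_pos _).le) (Real.exp_pos _).le
        (fun S hS => ih _ _ S (by
          intro u hu u' hu'
          obtain ⟨y, hy, rfl⟩ := hS u hu
          obtain ⟨y', hy', rfl⟩ := hS u' hu'
          have := (hT y hy y' hy').diff
          rw [lo_sub, hi_sub] at this
          convert this using 1
          abel))
        (fun b S hS => ih _ _ S (by
          intro v hv v' hv'
          obtain ⟨y, hy, hb, rfl⟩ := hS v hv
          obtain ⟨y', hy', hb', rfl⟩ := hS v' hv'
          have := (hT y hy y' hy').lo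
          rw [lo_sub] at this
          convert this using 1
          funext x
          have e0 := congrFun (hb.trans hb'.symm) x
          simp only [Pi.sub_apply] at e0 ⊢
          linarith))
      simp only [← Real.exp_add] at this
      simp only [Q, A, if_neg h, neg_add]
      simpa only [add_comm] using this

theorem trace_eq {ι : Type*} (I : Finset ι) (m : ℕ) : ∀ (e z : ℕ) (y : ι → Cube m → ℝ) (c : ℝ),
    (∀ x x', ∑ i ∈ I, y i x * y i x' = if x = x' then c else 0) →
    ∑ i ∈ I, Q m e z (y i) = c * tr m e z := by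
  induction m with
  | zero =>
    intro e z y c h
    have h0 := h 0 0
    simp only [if_true] at h0
    simp only [Q, tr]
    rw [← h0, Finset.sum_mul]
    apply Finset.sum_congr rfl
    intro i _
    have : (4 : ℝ) ^ e = (2 ^ e) ^ 2 := by
      rw [← pow_mul, mul_comm, pow_mul]; norm_num
    rw [this]; field_simp
  | succ m ih =>
    intro e z y c h
    have h00 : ∀ x x', ∑ i ∈ I, lo (y i) x * lo (y i) x' = if x = x' then c else 0 := by
      intro x x'; simpa [lo, Fin.cons_inj] using h (Fin.cons 0 x) (Fin.cons 0 x')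
    have h11 : ∀ x x', ∑ i ∈ I, hi (y i) x * hi (y i) x' = if x = x' then c else 0 := by
      intro x x'; simpa [hi, Fin.cons_inj] using h (Fin.cons 1 x) (Fin.cons 1 x')
    have h01 : ∀ x x', ∑ i ∈ I, lo (y i) x * hi (y i) x' = 0 := by
      intro x x'; simpa [lo, hi, Fin.cons_inj] using h (Fin.cons 0 x) (Fin.cons 1 x')
    have h10 : ∀ x x', ∑ i ∈ I, hi (y i) x * lo (y i) x' = 0 := by
      intro x x'; simpa [lo, hi, Fin.cons_inj] using h (Fin.cons 1 x) (Fin.cons 0 x')
    by_cases hc : 2 * e ≤ m + 1
    · simp only [Q, tr, if_pos hc, Finset.sum_add_distrib]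
      rw [ih _ _ _ c h00, ih _ _ _ c h11]; ring
    · simp only [Q, tr, if_neg hc, Finset.sum_add_distrib]
      rw [ih (e - 1) z (fun i x => (lo (y i) x + hi (y i) x) / 2) (c / 2),
        ih e (nz m e z) (fun i => hi (y i) - lo (y i)) (2 * c)]
      · ring
      · intro x x'
        have : ∀ i, (hi (y i) - lo (y i)) x * (hi (y i) - lo (y i)) x'
            = hi (y i) x * hi (y i) x' - hi (y i) x * lo (y i) x'
              - lo (y i) x * hi (y i) x' + lo (y i) x * lo (y i) x' := by
          intro i; simp only [Pi.sub_apply]; ring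
        simp only [this, Finset.sum_add_distrib, Finset.sum_sub_distrib, h00, h11, h01, h10]
        split_ifs <;> ring
      · intro x x'
        have : ∀ i, (lo (y i) x + hi (y i) x) / 2 * ((lo (y i) x' + hi (y i) x') / 2)
            = (hi (y i) x * hi (y i) x' + hi (y i) x * lo (y i) x'
              + lo (y i) x * hi (y i) x' + lo (y i) x * lo (y i) x') / 4 := by
          intro i; ring
        simp only [this, ← Finset.sum_div, Finset.sum_add_distrib, h00, h11, h01, h10]
        split_ifs <;> ring

end Pool.Agent.Lib.MP_b90951_co
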