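import Mathlib
import Pool.Agent.Lib.MP_b90951_co.Theta

namespace Pool.Agent.Lib.MP_b90951_co

open Finset

/-- Number of simple walks of length `m` started at `j` that avoid `0`. -/
def g : ℕ → ℕ → ℕ
  | 0, j => if j = 0 then 0 else 1
  | _ + 1, 0 => 0
  | m + 1, j + 1 => g m (j + 2) + g m j

lemma g_zero (m : ℕ) : g m 0 = 0 := by cases m <;> simp [g]

lemma g_closed (m : ℕ) : ∀ j, g m j = ∑ i ∈ range j, m.choose ((m + i + 1) / 2) := by
  induction m with
  | zero =>
    intro j
    rcases j with _ | j
    · simp [g]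
    · rw [Finset.sum_range_succ']
      simp only [g, Nat.succ_ne_zero, if_false]
      rw [Finset.sum_eq_zero]
      · simp
      · intro i _
        apply Nat.choose_eq_zero_of_lt; omega
  | succ m ih =>
    intro j
    rcases j with _ | j
    · simp [g]
    · simp only [g]
      rw [ih, ih]
      have h1 : ∀ i, (m + 1).choose ((m + 1 + i + 1) / 2)
          = m.choose ((m + i) / 2) + m.choose ((m + (i + 1) + 1) / 2) := by
        intro i
        have e1 : (m + 1 + i + 1) / 2 = (m + i) / 2 + 1 := by omega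
        have e2 : (m + (i + 1) + 1) / 2 = (m + i) / 2 + 1 := by omega
        rw [e1, e2, Nat.choose_succ_succ']
      simp only [h1, Finset.sum_add_distrib]
      rw [Finset.sum_range_succ' (fun i => m.choose ((m + i + 1) / 2)) (j + 1),
        Finset.sum_range_succ' (fun i => m.choose ((m + i) / 2)) j]
      have h2 : m.choose ((m + 0 + 1) / 2) = m.choose ((m + 0) / 2) := by
        simp only [add_zero]
        rw [← Nat.choose_symm (show m / 2 ≤ m by omega)]
        congr 1; omega
      rw [h2]
      have h3 : ∑ i ∈ range j, m.choose ((m + (i + 1)) / 2)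
          = ∑ i ∈ range j, m.choose ((m + i + 1) / 2) := by
        apply Finset.sum_congr rfl; intro i _; rw [add_assoc]
      rw [h3]; ring

lemma g_le (m j : ℕ) : g m j ≤ j * m.choose (m / 2) := by
  rw [g_closed]
  calc _ ≤ ∑ _i ∈ range j, m.choose (m / 2) :=
        Finset.sum_le_sum (fun i _ => Nat.choose_le_middle _ _)
    _ = _ := by simp

lemma g_mono (m : ℕ) {j j' : ℕ} (h : j ≤ j') : g m j ≤ g m j' := by
  rw [g_closed, g_closed]
  exact Finset.sum_le_sum_of_subset (Finset.range_mono h)

lemma g_concave (m : ℕ) : ∀ j, j * g m (j + 2) ≤ (j + 2) * g m j := by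
  induction m with
  | zero =>
    intro j
    rcases j with _ | j <;> simp [g]
  | succ m ih =>
    intro j
    rcases j with _ | j
    · simp
    · simp only [g]
      have h1 := ih (j + 2)
      have h2 := ih j
      have : (j + 2) * ((j + 1) * (g m (j + 2 + 2) + g m (j + 2)))
          ≤ (j + 2) * ((j + 1 + 2) * (g m (j + 2) + g m j)) := by
        nlinarith
      exact Nat.le_of_mul_le_mul_left this (by omega)

lemma potential (C : ℝ) (hC : 0 ≤ C) (Φ : ℕ → ℕ → ℕ → ℝ)
    (h0 : ∀ e z, Φ 0 e z ≤ C * (2 / 3) ^ z)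
    (hs : ∀ m e z, Φ (m + 1) e z ≤ Φ m (e - 1) z + Φ m e (nz m e z)) (m : ℕ) :
    ∀ e z, Φ m e z ≤ C * (2 / 3) ^ z * (g m ((m - 2 * e) + (2 * e - m) + 5) : ℝ) := by
  induction m with
  | zero =>
    intro e z
    simpa [g] using h0 e z
  | succ m ih =>
    intro e z
    have hz : 0 ≤ C * (2 / 3 : ℝ) ^ z := by positivity
    refine (hs m e z).trans ((add_le_add (ih _ _) (ih _ _)).trans ?_)
    have hg : g (m + 1) ((m + 1 - 2 * e) + (2 * e - (m + 1)) + 5)
        = g m ((m + 1 - 2 * e) + (2 * e - (m + 1)) + 6)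
          + g m ((m + 1 - 2 * e) + (2 * e - (m + 1)) + 4) := by
      rw [show (m + 1 - 2 * e) + (2 * e - (m + 1)) + 5
        = ((m + 1 - 2 * e) + (2 * e - (m + 1)) + 4) + 1 by ring]
      simp only [g]
    rw [hg]
    push_cast
    by_cases h : 2 * e = m + 1
    · have e1 : m - 2 * (e - 1) + (2 * (e - 1) - m) + 5 = 6 := by omega
      have e2 : m - 2 * e + (2 * e - m) + 5 = 6 := by omega
      have e3 : m + 1 - 2 * e + (2 * e - (m + 1)) = 0 := by omega
      simp only [nz, if_pos h, e1, e2, e3, zero_add, pow_succ]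
      have hc : (4 : ℝ) * g m 6 ≤ 6 * g m 4 := by exact_mod_cast g_concave m 4
      nlinarith
    · simp only [nz, if_neg h]
      rw [← mul_add]
      apply mul_le_mul_of_nonneg_left _ hz
      rcases lt_or_gt_of_ne h with h | h
      · have a1 := g_mono m (show m - 2 * (e - 1) + (2 * (e - 1) - m) + 5
          ≤ (m + 1 - 2 * e) + (2 * e - (m + 1)) + 6 by omega)
        have a2 := g_mono m (show m - 2 * e + (2 * e - m) + 5
          ≤ (m + 1 - 2 * e) + (2 * e - (m + 1)) + 4 by omega)
        exact_mod_cast add_le_add a1 a2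
      · have a1 := g_mono m (show m - 2 * (e - 1) + (2 * (e - 1) - m) + 5
          ≤ (m + 1 - 2 * e) + (2 * e - (m + 1)) + 4 by omega)
        have a2 := g_mono m (show m - 2 * e + (2 * e - m) + 5
          ≤ (m + 1 - 2 * e) + (2 * e - (m + 1)) + 6 by omega)
        rw [add_comm]
        exact_mod_cast add_le_add a2 a1

lemma lin_geom (z : ℕ) : ((z : ℝ) + 4) / 2 ^ z ≤ 4 * (2 / 3) ^ z := by
  induction z with
  | zero => norm_num
  | succ z ih =>
    have h2 : (0 : ℝ) < 2 ^ z := by positivity
    have : (((z + 1 : ℕ) : ℝ) + 4) / 2 ^ (z + 1) ≤ (2 / 3) * (((z : ℝ) + 4) / 2 ^ z) := by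
      rw [pow_succ, div_le_iff₀ (by positivity)]
      field_simp
      push_cast
      have : (0 : ℝ) ≤ z := Nat.cast_nonneg z
      linarith
    rw [pow_succ (2 / 3 : ℝ)]
    linarith

theorem cost_le (r : ℕ) :
    A (2 * r) r 0 + tr (2 * r) r 0 / 4 ≤ 20 * ((2 * r).choose r : ℝ) * Real.log 2 := by
  have hl := Real.log_two_gt_d9
  have key := potential (4 * Real.log 2) (by positivity)
    (fun m e z => A m e z + tr m e z * 2 ^ (2 * e - m) / (4 * 2 ^ z))
    (by
      intro e z
      simp only [A, tr, gam, Nat.sub_zero]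
      have h4 : (2 : ℝ) ^ (2 * e) = 4 ^ e := by rw [pow_mul]; norm_num
      rw [h4]
      have h1 := lin_geom z
      have h2 : (0 : ℝ) < 2 ^ z := by positivity
      have h3 : 2 / 2 ^ z + 4 * ((z : ℝ) + 1) * Real.log 2 / 4 ^ e * 4 ^ e / (4 * 2 ^ z)
          = (2 + ((z : ℝ) + 1) * Real.log 2) / 2 ^ z := by
        field_simp
      rw [h3]
      have h5 : (2 + ((z : ℝ) + 1) * Real.log 2) / 2 ^ z
          ≤ Real.log 2 * (((z : ℝ) + 4) / 2 ^ z) := by
        rw [div_le_iff₀ h2]
        field_simp
        linarith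
      nlinarith)
    (by
      intro m e z
      simp only [A, tr]
      apply le_of_eq
      by_cases h : 2 * e ≤ m + 1
      · rw [if_pos h]
        by_cases h' : 2 * e = m + 1
        · have e1 : 2 * e - (m + 1) = 0 := by omega
          have e2 : 2 * (e - 1) - m = 0 := by omega
          have e3 : 2 * e - m = 1 := by omega
          simp only [nz, if_pos h', e1, e2, e3, pow_succ]
          field_simp
          ring
        · have e1 : 2 * e - (m + 1) = 0 := by omega
          have e2 : 2 * (e - 1) - m = 0 := by omega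
          have e3 : 2 * e - m = 0 := by omega
          simp only [nz, if_neg h', e1, e2, e3]
          field_simp
          ring
      · rw [if_neg h]
        have h' : ¬ 2 * e = m + 1 := by omega
        obtain ⟨s, hs⟩ : ∃ s, 2 * e = m + 2 + s := ⟨2 * e - (m + 2), by omega⟩
        have e1 : 2 * e - (m + 1) = s + 1 := by omega
        have e2 : 2 * (e - 1) - m = s := by omega
        have e3 : 2 * e - m = s + 2 := by omega
        simp only [nz, if_neg h', e1, e2, e3, pow_succ]
        field_simp
        ring)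
    (2 * r) r 0
  simp only [Nat.sub_self, pow_zero, mul_one, zero_add] at key
  have hg : (g (2 * r) 5 : ℝ) ≤ 5 * ((2 * r).choose r : ℝ) := by
    have := g_le (2 * r) 5
    rw [show 2 * r / 2 = r by omega] at this
    exact_mod_cast this
  nlinarith

end Pool.Agent.Lib.MP_b90951_co
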