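import Mathlib
import Pool.Agent.Lib.MP_b90951_co.Walk

namespace Pool.Agent.Lib.MP_b90951_co

open Finset

lemma walsh_real {n : ℕ} (f : BoolFun n) (a : Cube n) :
    (walsh f a : ℝ) = hat (fun x => sg (f x)) a := by
  simp only [walsh, hat, Int.cast_sum, ← sg_int, sg_add]
  apply Finset.sum_congr rfl
  intro x _; ring

lemma IsBent.hat_eq {r : ℕ} {f : BoolFun (2 * r)} (hf : IsBent f) (a : Cube (2 * r)) :
    hat (fun x => sg (f x)) a = 2 ^ r ∨ hat (fun x => sg (f x)) a = -2 ^ r := by
  have h := hf a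
  rw [show 2 * r / 2 = r by omega] at h
  rw [← walsh_real]
  rcases (abs_eq (by positivity)).mp h with h | h
  · left; rw [h]; push_cast; rfl
  · right; rw [h]; push_cast; rfl

/-- half of the sign vector -/
noncomputable def hv {n : ℕ} (f : BoolFun n) : Cube n → ℝ := fun x => sg (f x) / 2

lemma hv_inj {n : ℕ} : Function.Injective (hv (n := n)) := by
  intro f h hfh
  funext x
  have := congrFun hfh x
  simp only [hv] at this
  rcases zmod2_cases (f x) with h1 | h1 <;> rcases zmod2_cases (h x) with h2 | h2 <;>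
    simp [h1, h2] at this ⊢ <;> linarith

lemma hat_hv {n : ℕ} (f : BoolFun n) (a : Cube n) :
    hat (hv f) a = hat (fun x => sg (f x)) a / 2 := by
  simp only [hat, hv, Finset.sum_div]
  apply Finset.sum_congr rfl
  intro x _; ring

lemma inL_hv {r : ℕ} {f h : BoolFun (2 * r)} (hf : IsBent f) (hh : IsBent h) :
    InL r (hv f - hv h) := by
  constructor
  · intro x
    simp only [Pi.sub_apply, hv]
    rcases zmod2_cases (f x) with h1 | h1 <;> rcases zmod2_cases (h x) with h2 | h2 <;>
      simp only [h1, h2, sg_zero, sg_one]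
    · exact ⟨0, by norm_num⟩
    · exact ⟨1, by norm_num⟩
    · exact ⟨-1, by norm_num⟩
    · exact ⟨0, by norm_num⟩
  · intro b
    rw [hat_sub, hat_hv, hat_hv]
    rcases hf.hat_eq b with h1 | h1 <;> rcases hh.hat_eq b with h2 | h2 <;> rw [h1, h2]
    · exact ⟨0, by norm_num⟩
    · exact ⟨1, by push_cast; ring⟩
    · exact ⟨-1, by push_cast; ring⟩
    · exact ⟨0, by norm_num⟩

lemma isBent_add_coord {n : ℕ} {f : BoolFun n} (hf : IsBent f) (i : Fin n) :
    IsBent (f + fun x => x i) := by
  intro a
  have := hf (a + Pi.single i 1)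
  rw [← this]
  congr 1
  simp only [walsh]
  apply Finset.sum_congr rfl
  intro x _
  congr 2
  simp only [Pi.add_apply, add_mul, Finset.sum_add_distrib]
  have : ∑ j, (Pi.single i (1 : ZMod 2) : Fin n → ZMod 2) j * x j = x i := by
    simp [Pi.single_apply]
  rw [this]; ring

open Classical in
/-- The finite set of bent functions. -/
noncomputable def bentSet (n : ℕ) : Finset (BoolFun n) := univ.filter IsBent

lemma mem_bentSet {n : ℕ} {f : BoolFun n} : f ∈ bentSet n ↔ IsBent f := by
  simp [bentSet]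

lemma bent_cov (n : ℕ) (x x' : Cube n) :
    ∑ f ∈ bentSet n, hv f x * hv f x' = if x = x' then ((bentSet n).card : ℝ) / 4 else 0 := by
  split_ifs with h
  · subst h
    have : ∀ f : BoolFun n, hv f x * hv f x = 1 / 4 := by
      intro f
      have := sg_mul_self (f x)
      simp only [hv]; linarith
    simp [this]; ring
  · obtain ⟨i, hi⟩ := Function.ne_iff.mp h
    apply Finset.sum_involution (fun f _ => f + fun x => x i)
    · intro f _
      simp only [hv, Pi.add_apply, sg_add]
      rcases zmod2_cases (x i) with h1 | h1 <;> rcases zmod2_cases (x' i) with h2 | h2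
      · exact absurd (h1.trans h2.symm) hi
      · simp [h1, h2]; ring
      · simp [h1, h2]; ring
      · exact absurd (h1.trans h2.symm) hi
    · intro f _ _ heq
      have h1 := congrFun heq x
      have h2 := congrFun heq x'
      simp only [Pi.add_apply, add_eq_left] at h1 h2
      exact hi (h1.trans h2.symm)
    · intro f _
      funext y
      simp only [Pi.add_apply, add_assoc]
      rcases zmod2_cases (y i) with h1 | h1
      · simp [h1]
      · rw [h1]; exact add_zero _
    · intro f hf
      exact mem_bentSet.mpr (isBent_add_coord (mem_bentSet.mp hf) i)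

theorem card_bent_le (r : ℕ) : (bentSet (2 * r)).card ≤ 2 ^ (20 * (2 * r).choose r) := by
  classical
  set B := bentSet (2 * r) with hB
  set μ := tr (2 * r) r 0 / 4 with hμ
  have h1 : ∑ f ∈ B, Q (2 * r) r 0 (hv f) = (B.card : ℝ) * μ := by
    rw [trace_eq B (2 * r) r 0 hv ((B.card : ℝ) / 4) (bent_cov (2 * r)), hμ]; ring
  have h2 : ∑ f ∈ B, Real.exp (-Q (2 * r) r 0 (hv f)) ≤ Real.exp (A (2 * r) r 0) := by
    have := theta (2 * r) r 0 (B.image hv) (by
      intro y hy y' hy'
      obtain ⟨f, hf, rfl⟩ := Finset.mem_image.mp hy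
      obtain ⟨h, hh, rfl⟩ := Finset.mem_image.mp hy'
      exact inL_hv (mem_bentSet.mp hf) (mem_bentSet.mp hh))
    rwa [Finset.sum_image (fun a _ b _ h => hv_inj h)] at this
  have h3 : (B.card : ℝ) * Real.exp (-μ) ≤ ∑ f ∈ B, Real.exp (-Q (2 * r) r 0 (hv f)) := by
    have : ∀ f ∈ B, Real.exp (-μ) * (1 + μ - Q (2 * r) r 0 (hv f))
        ≤ Real.exp (-Q (2 * r) r 0 (hv f)) := by
      intro f _
      have e1 : Real.exp (-Q (2 * r) r 0 (hv f))
          = Real.exp (-μ) * Real.exp (μ - Q (2 * r) r 0 (hv f)) := by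
        rw [← Real.exp_add]; congr 1; ring
      rw [e1]
      apply mul_le_mul_of_nonneg_left _ (Real.exp_pos _).le
      linarith [Real.add_one_le_exp (μ - Q (2 * r) r 0 (hv f))]
    refine le_trans (le_of_eq ?_) (Finset.sum_le_sum this)
    rw [← Finset.mul_sum, Finset.sum_sub_distrib, h1]
    simp; ring
  have h4 : (B.card : ℝ) ≤ Real.exp (A (2 * r) r 0 + μ) := by
    have := h3.trans h2
    rw [Real.exp_add]
    rw [Real.exp_neg, ← div_eq_mul_inv, div_le_iff₀ (Real.exp_pos _)] at this
    exact this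
  have h5 : Real.exp (A (2 * r) r 0 + μ) ≤ ((2 ^ (20 * (2 * r).choose r) : ℕ) : ℝ) := by
    refine (Real.exp_le_exp.mpr (cost_le r)).trans (le_of_eq ?_)
    rw [show (20 : ℝ) * ((2 * r).choose r : ℝ) = ((20 * (2 * r).choose r : ℕ) : ℝ) by
      push_cast; ring, Real.exp_nat_mul, Real.exp_log (by norm_num)]
    push_cast; rfl
  exact_mod_cast h4.trans h5

end Pool.Agent.Lib.MP_b90951_co
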