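import Mathlib
import Pool.Agent.Lib.MP_b90951_co.Count

namespace Pool.Agent.Lib.MP_b90951_co

open Finset

lemma parseval (m : ℕ) : ∀ u v : Cube m → ℝ,
    ∑ a, hat u a * hat v a = 2 ^ m * ∑ x, u x * v x := by
  induction m with
  | zero =>
    intro u v
    simp only [hat_zero_dim, Finset.univ_unique, Finset.sum_singleton, pow_zero, one_mul]
    congr 2 <;> exact Subsingleton.elim _ _
  | succ m ih =>
    intro u v
    rw [sum_cube_succ, sum_cube_succ]
    simp only [hat_cons_zero, hat_cons_one]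
    have h0 := ih (lo u) (lo v)
    have h1 := ih (hi u) (hi v)
    simp only [lo, hi] at h0 h1 ⊢
    rw [← Finset.sum_add_distrib, pow_succ, mul_add, mul_right_comm, mul_right_comm _ 2,
      ← h0, ← h1, Finset.sum_mul, Finset.sum_mul, ← Finset.sum_add_distrib]
    apply Finset.sum_congr rfl
    intro a _; ring

lemma sum_hat (m : ℕ) : ∀ u : Cube m → ℝ, ∑ a, hat u a = 2 ^ m * u 0 := by
  induction m with
  | zero =>
    intro u
    simp [hat_zero_dim]
  | succ m ih =>
    intro u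
    rw [sum_cube_succ]
    simp only [hat_cons_zero, hat_cons_one]
    rw [← Finset.sum_add_distrib]
    have h0 := ih (lo u)
    have : lo u 0 = u 0 := by
      simp only [lo]; congr 1; funext i; refine Fin.cases ?_ (fun j => ?_) i <;> simp
    rw [← this, pow_succ, mul_right_comm, ← h0, Finset.sum_mul]
    apply Finset.sum_congr rfl
    intro a _; ring

lemma hat_mul_char {m : ℕ} (u : Cube m → ℝ) (a b : Cube m) :
    hat (fun x => sg (∑ i, b i * x i) * u x) a = hat u (a + b) := by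
  simp only [hat, Pi.add_apply, add_mul, Finset.sum_add_distrib, sg_add]
  apply Finset.sum_congr rfl
  intro x _; ring

lemma add_self_cube {m : ℕ} (b : Cube m) : b + b = 0 := by
  funext i
  rcases zmod2_cases (b i) with h | h <;> simp [h]
  rfl

/-- The square of a vector of the lattice has a divisible Hadamard transform. -/
lemma hat_sq_dvd {m r k : ℕ} (hm : m + k = 2 * r) (hk : k < r) {u : Cube m → ℝ} (hu : InL r u)
    (b : Cube m) : ∃ j : ℤ, hat (fun x => u x * u x) b = 2 ^ (k + 1) * j := by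
  choose w hw using hu.2
  obtain ⟨u0, hu0⟩ := hu.1 0
  have h1 := parseval m u (fun x => sg (∑ i, b i * x i) * u x)
  simp only [hat_mul_char, hw] at h1
  have h2 : ∑ x, u x * (sg (∑ i, b i * x i) * u x) = hat (fun x => u x * u x) b := by
    simp only [hat]; apply Finset.sum_congr rfl; intro x _; ring
  rw [h2] at h1
  have h3 : ∑ a, (2 : ℝ) ^ r * (w a) * (2 ^ r * (w (a + b)))
      = 2 ^ m * (2 ^ k * ((∑ a, w a * w (a + b) : ℤ) : ℝ)) := by
    rw [← mul_assoc, ← pow_add, hm]
    push_cast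
    rw [Finset.mul_sum]
    apply Finset.sum_congr rfl
    intro a _; rw [two_mul, pow_add]; ring
  rw [h3] at h1
  have h4 : hat (fun x => u x * u x) b = 2 ^ k * ((∑ a, w a * w (a + b) : ℤ) : ℝ) :=
    (mul_left_cancel₀ (by positivity) h1).symm
  have h5 : (2 : ℤ) ∣ ∑ a, w a * w (a + b) := by
    rcases eq_or_ne b 0 with rfl | hb
    · have h6 := sum_hat m u
      simp only [hw, hu0] at h6
      obtain ⟨s, hs⟩ : ∃ s, m = r + (s + 1) := ⟨m - r - 1, by omega⟩
      have h7 : ∑ a, w a = 2 * (2 ^ s * u0) := by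
        have : (2 : ℝ) ^ r * ((∑ a, w a : ℤ) : ℝ) = 2 ^ r * ((2 * (2 ^ s * u0) : ℤ) : ℝ) := by
          push_cast
          rw [Finset.mul_sum, h6, hs]; ring
        exact_mod_cast mul_left_cancel₀ (by positivity) this
      have h8 : (2 : ℤ) ∣ ∑ a, (w a * w a - w a) := by
        apply Finset.dvd_sum
        intro a _
        have := Int.even_mul_pred_self (w a)
        rw [mul_sub, mul_one] at this
        exact this.two_dvd
      rw [Finset.sum_sub_distrib, h7] at h8
      simp only [add_zero]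
      have := dvd_add h8 (dvd_mul_right (2 : ℤ) (2 ^ s * u0))
      simpa using this
    · have : ((∑ a, w a * w (a + b) : ℤ) : ZMod 2) = 0 := by
        push_cast
        apply Finset.sum_involution (fun a _ => a + b)
        · intro a _
          rw [add_assoc, add_self_cube, add_zero, mul_comm (w (a + b) : ZMod 2)]
          rcases zmod2_cases ((w a : ZMod 2) * (w (a + b) : ZMod 2)) with h | h <;> rw [h]
          · rfl
          · rfl
        · intro a _ _ h
          exact hb (by simpa using h)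
        · intro a _; exact Finset.mem_univ _
        · intro a _
          rw [add_assoc, add_self_cube, add_zero]
      exact (ZMod.intCast_zmod_eq_zero_iff_dvd _ 2).mp this
  obtain ⟨j, hj⟩ := h5
  refine ⟨j, ?_⟩
  rw [h4, hj]; push_cast; ring

lemma dot_linear {m n : ℕ} (ι : Cube m →ₗ[ZMod 2] Cube n) (a : Cube n) (y : Cube m) :
    ∑ i, a i * ι y i = ∑ j, (∑ i, a i * ι (Pi.single j 1) i) * y j := by
  have hy : y = ∑ j, y j • (Pi.single j 1 : Cube m) := by
    funext j; simp [Finset.sum_apply, Pi.single_apply]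
  conv_lhs => rw [hy]
  simp only [map_sum, map_smul, Finset.sum_apply, Pi.smul_apply, smul_eq_mul, Finset.mul_sum,
    Finset.sum_mul]
  rw [Finset.sum_comm]
  apply Finset.sum_congr rfl; intro j _
  apply Finset.sum_congr rfl; intro i _
  ring

lemma hat_restrict {m n : ℕ} (ι : Cube m →ₗ[ZMod 2] Cube n) (hι : Function.Injective ι)
    (x0 : Cube n) (u : Cube n → ℝ) (hu : ∀ x, (∀ y, x ≠ x0 + ι y) → u x = 0) (a : Cube n) :
    hat u a = sg (∑ i, a i * x0 i) *
      hat (fun y => u (x0 + ι y)) (fun j => ∑ i, a i * ι (Pi.single j 1) i) := by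
  classical
  simp only [hat]
  rw [Finset.mul_sum]
  symm
  apply Finset.sum_of_injOn (fun y => x0 + ι y)
  · intro y _ y' _ h
    exact hι (add_left_cancel h)
  · intro y _; exact Finset.mem_univ _
  · intro x _ hx
    rw [hu x, mul_zero]
    intro y hy
    exact hx ⟨y, by simp, hy.symm⟩
  · intro y _
    rw [← dot_linear, ← mul_assoc, ← sg_add]
    simp only [Pi.add_apply, mul_add, Finset.sum_add_distrib]

lemma inL_restrict {m n e : ℕ} (ι : Cube m →ₗ[ZMod 2] Cube n) (hι : Function.Injective ι)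
    (x0 : Cube n) (u : Cube n → ℝ) (hu : ∀ x, (∀ y, x ≠ x0 + ι y) → u x = 0) (h : InL e u) :
    InL e (fun y => u (x0 + ι y)) := by
  refine ⟨fun y => h.1 _, fun c => ?_⟩
  obtain ⟨π, hπ⟩ := ι.exists_leftInverse_of_injective (LinearMap.ker_eq_bot.mpr hι)
  set a : Cube n := fun i => ∑ j, c j * π (Pi.single i 1) j with ha
  have hc : (fun j => ∑ i, a i * ι (Pi.single j 1) i) = c := by
    funext j
    rw [ha, ← dot_linear π c (ι (Pi.single j 1))]
    have : π (ι (Pi.single j 1)) = Pi.single j 1 := LinearMap.congr_fun hπ _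
    rw [this]
    simp [Pi.single_apply]
  have h1 := hat_restrict ι hι x0 u hu a
  rw [hc] at h1
  obtain ⟨k, hk⟩ := h.2 a
  refine ⟨(-1) ^ (∑ i, a i * x0 i).val * k, ?_⟩
  have h2 := sg_mul_self (∑ i, a i * x0 i)
  have h3 : hat (fun y => u (x0 + ι y)) c = sg (∑ i, a i * x0 i) * hat u a := by
    rw [h1, ← mul_assoc, h2, one_mul]
  rw [h3, hk, sg_int]; push_cast; ring

/-- real indicator of the support -/
noncomputable def ind {n : ℕ} (ψ : BoolFun n) : Cube n → ℝ := fun x => (1 - sg (ψ x)) / 2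

lemma sq_eq_ind {n : ℕ} (f h : BoolFun n) (x : Cube n) :
    (hv f - hv h) x * (hv f - hv h) x = ind (f + h) x := by
  simp only [Pi.sub_apply, hv, ind, Pi.add_apply, sg_add]
  rcases zmod2_cases (f x) with h1 | h1 <;> rcases zmod2_cases (h x) with h2 | h2 <;>
    simp only [h1, h2, sg_zero, sg_one] <;> norm_num

theorem face_dvd {m n r k : ℕ} (hn : n = 2 * r) (hm : m + k = n) (hk : k < r)
    (ι : Cube m →ₗ[ZMod 2] Cube n) (hι : Function.Injective ι) (x0 : Cube n)
    {ψ : BoolFun n} (hψ : ψ ∈ BentSums n) (h0 : ∀ x, (∀ y, x ≠ x0 + ι y) → ψ x = 0)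
    (c : Cube m) : ∃ j : ℤ, hat (fun y => ind ψ (x0 + ι y)) c = 2 ^ (k + 1) * j := by
  subst hn
  obtain ⟨f, h, hf, hh, rfl⟩ := hψ
  have hu : ∀ x, (∀ y, x ≠ x0 + ι y) → (hv f - hv h) x = 0 := by
    intro x hx
    have h1 := sq_eq_ind f h x
    rw [ind, h0 x hx] at h1
    simpa using h1
  have := hat_sq_dvd hm hk (inL_restrict ι hι x0 _ hu (inL_hv hf hh)) c
  simpa only [sq_eq_ind] using this

lemma hat_one (m : ℕ) : ∀ b : Cube m, ∃ j : ℤ, hat (fun _ => (1 : ℝ)) b = 2 ^ m * j := by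
  induction m with
  | zero => intro b; exact ⟨1, by simp [hat_zero_dim]⟩
  | succ m ih =>
    intro b
    have hb : b = Fin.cons (b 0) (Fin.tail b) := (Fin.cons_self_tail b).symm
    obtain ⟨j, hj⟩ := ih (Fin.tail b)
    have e0 : lo (fun _ : Cube (m + 1) => (1 : ℝ)) = fun _ => 1 := rfl
    have e1 : hi (fun _ : Cube (m + 1) => (1 : ℝ)) = fun _ => 1 := rfl
    rcases zmod2_cases (b 0) with h | h
    · rw [hb, h, hat_cons_zero, e0, e1, hj]; exact ⟨j, by ring⟩
    · rw [hb, h, hat_cons_one, e0, e1, hj]; exact ⟨0, by simp⟩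

theorem walsh_dvd_of_affine {r k : ℕ} (hk : k < r) {ψ : BoolFun (2 * r)}
    (hψ : ψ ∈ BentSums (2 * r)) (E : AffineSubspace (ZMod 2) (Fin (2 * r) → ZMod 2))
    (hE : Module.finrank (ZMod 2) E.direction + k = 2 * r) (h0 : ∀ x, x ∉ E → ψ x = 0)
    (a : Fin (2 * r) → ZMod 2) : (2 : ℤ) ^ (k + 2) ∣ walsh ψ a := by
  rcases E.eq_bot_or_nonempty with rfl | ⟨x0, hx0⟩
  · rw [AffineSubspace.direction_bot, finrank_bot] at hE; omega
  set m := Module.finrank (ZMod 2) E.direction with hm
  let b := Module.finBasis (ZMod 2) E.direction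
  let ι : Cube m →ₗ[ZMod 2] Cube (2 * r) := E.direction.subtype ∘ₗ b.equivFun.symm.toLinearMap
  have hι : Function.Injective ι := Subtype.val_injective.comp b.equivFun.symm.injective
  have h1 : ∀ x, (∀ y, x ≠ x0 + ι y) → ψ x = 0 := by
    intro x hx
    apply h0
    intro hxE
    have hv : x - x0 ∈ E.direction := AffineSubspace.vsub_mem_direction hxE hx0
    apply hx (b.equivFun ⟨x - x0, hv⟩)
    simp [ι]
  have h2 : ∀ x, (∀ y, x ≠ x0 + ι y) → ind ψ x = 0 := by
    intro x hx; simp [ind, h1 x hx]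
  obtain ⟨j, hj⟩ := face_dvd rfl hE hk ι hι x0 hψ h1 (fun j => ∑ i, a i * ι (Pi.single j 1) i)
  have h3 := hat_restrict ι hι x0 (ind ψ) h2 a
  rw [hj] at h3
  obtain ⟨j1, hj1⟩ := hat_one (2 * r) a
  have h4 : (walsh ψ a : ℝ) = hat (fun _ => (1 : ℝ)) a - 2 * hat (ind ψ) a := by
    rw [walsh_real]
    simp only [hat, ind, Finset.mul_sum, ← Finset.sum_sub_distrib]
    apply Finset.sum_congr rfl; intro x _; ring
  obtain ⟨s, hs⟩ : ∃ s, 2 * r = k + 2 + s := ⟨2 * r - (k + 2), by omega⟩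
  refine ⟨2 ^ s * j1 - (-1) ^ (∑ i, a i * x0 i).val * j, ?_⟩
  have h5 : (2 : ℝ) ^ (2 * r) = 2 ^ (k + 2) * 2 ^ s := by rw [hs, pow_add]
  have : (walsh ψ a : ℝ)
      = ((2 ^ (k + 2) * (2 ^ s * j1 - (-1) ^ (∑ i, a i * x0 i).val * j) : ℤ) : ℝ) := by
    rw [h4, h3, hj1, h5, sg_int]; push_cast; ring
  exact_mod_cast this

end Pool.Agent.Lib.MP_b90951_co
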