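import Mathlib
import Pool.Agent.Lib.MP_b90951_co.Face

namespace Pool.Agent.Lib.MP_b90951_co

open Finset MvPolynomial

/-- `f` is given by a polynomial of total degree at most `d`. -/
def PD {n : ℕ} (f : BoolFun n) (d : ℕ) : Prop :=
  ∃ p : MvPolynomial (Fin n) (ZMod 2), p.totalDegree ≤ d ∧ ∀ x, f x = eval x p

lemma zmod2_pow (t : ZMod 2) {k : ℕ} (hk : k ≠ 0) : t ^ k = t := by
  rcases zmod2_cases t with rfl | rfl <;> simp [hk]

lemma PD.degLE {n d : ℕ} {f : BoolFun n} (h : PD f d) : DegLE f d := by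
  classical
  obtain ⟨p, hp, hf⟩ := h
  refine ⟨fun S => ∑ μ ∈ p.support with μ.support = S, coeff μ p, ?_, ?_⟩
  · intro S hS
    apply Finset.sum_eq_zero
    intro μ hμ
    exfalso
    obtain ⟨h1, h2⟩ := Finset.mem_filter.mp hμ
    have h3 := le_totalDegree h1
    have h4 : μ.support.card ≤ μ.sum fun _ e => e := by
      rw [Finsupp.sum, Finset.card_eq_sum_ones]
      apply Finset.sum_le_sum
      intro i hi
      exact Nat.one_le_iff_ne_zero.mpr (Finsupp.mem_support_iff.mp hi)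
    rw [h2] at h4
    omega
  · intro x
    rw [hf, eval_eq, ← Finset.sum_fiberwise_of_maps_to (s := p.support) (t := univ)
      (g := fun μ => μ.support) (fun _ _ => Finset.mem_univ _)]
    apply Finset.sum_congr rfl
    intro S _
    rw [Finset.sum_mul]
    apply Finset.sum_congr rfl
    intro μ hμ
    rw [← (Finset.mem_filter.mp hμ).2]
    congr 1
    apply Finset.prod_congr rfl
    intro i hi
    exact zmod2_pow _ (Finsupp.mem_support_iff.mp hi)

lemma PD.add {n d : ℕ} {f h : BoolFun n} (hf : PD f d) (hh : PD h d) :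
    PD (fun x => f x + h x) d := by
  obtain ⟨p, hp, hf⟩ := hf
  obtain ⟨q, hq, hh⟩ := hh
  exact ⟨p + q, (totalDegree_add p q).trans (max_le hp hq), fun x => by simp [hf, hh]⟩

lemma PD.mul {n d d' : ℕ} {f h : BoolFun n} (hf : PD f d) (hh : PD h d') :
    PD (fun x => f x * h x) (d + d') := by
  obtain ⟨p, hp, hf⟩ := hf
  obtain ⟨q, hq, hh⟩ := hh
  exact ⟨p * q, (totalDegree_mul p q).trans (add_le_add hp hq), fun x => by simp [hf, hh]⟩

lemma PD.mono {n d d' : ℕ} {f : BoolFun n} (hf : PD f d) (h : d ≤ d') : PD f d' := by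
  obtain ⟨p, hp, hf⟩ := hf
  exact ⟨p, hp.trans h, hf⟩

lemma PD.comp {m n d : ℕ} {f : BoolFun m} (hf : PD f d) (σ : Fin m → Fin n) :
    PD (fun x : Cube n => f (fun j => x (σ j))) d := by
  obtain ⟨p, hp, hf⟩ := hf
  refine ⟨rename σ p, (totalDegree_rename_le σ p).trans hp, fun x => ?_⟩
  rw [eval_rename]; exact hf _

lemma PD.prod {s n : ℕ} (σ : Fin s → Fin n) : PD (fun x : Cube n => ∏ i, x (σ i)) s := by
  refine ⟨∏ i, X (σ i), ?_, fun x => by simp⟩
  refine (totalDegree_finsetProd _ _).trans ?_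
  simp

lemma sum_cube_add {s m : ℕ} (f : Cube (s + m) → ℝ) :
    ∑ x, f x = ∑ y : Cube s, ∑ z : Cube m, f (Fin.append y z) := by
  rw [← (Fin.appendEquiv (α := ZMod 2) s m).sum_comp, Fintype.sum_prod_type]
  rfl

lemma sum_sg_prod (s : ℕ) : ∑ y : Cube s, sg (∏ i, y i) = 2 ^ s - 2 := by
  induction s with
  | zero => simp; norm_num
  | succ s ih =>
    rw [sum_cube_succ]
    simp only [Fin.prod_univ_succ, Fin.cons_zero, Fin.cons_succ, zero_mul, one_mul, sg_zero, ih]
    simp [ZMod.card]; ring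

lemma exists_phi (e : ℕ) (he : 2 ≤ e) (t : ℕ) : ∀ m, 2 * t ≤ m → m ≤ t * e →
    ∃ φ : BoolFun m, PD φ e ∧ ∃ c : ℤ, ∑ x, sg (φ x) = 2 ^ t * (2 * c + 1) := by
  induction t with
  | zero =>
    intro m _ h2
    obtain rfl : m = 0 := by omega
    exact ⟨fun _ => 0, ⟨0, by simp, by simp⟩, 0, by simp⟩
  | succ t ih =>
    intro m h1 h2
    obtain ⟨s, m', rfl, hs1, hm1, hm2⟩ :
        ∃ s m', m = (s + 2) + m' ∧ s + 2 ≤ e ∧ 2 * t ≤ m' ∧ m' ≤ t * e := by
      have h3 : 2 * t ≤ t * e := by nlinarith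
      rw [add_mul, one_mul] at h2
      by_cases h : t * e + 2 ≤ m
      · exact ⟨m - t * e - 2, t * e, by omega, by omega, h3, le_rfl⟩
      · exact ⟨0, m - 2, by omega, by omega, by omega, by omega⟩
    obtain ⟨φ, hφ, c, hc⟩ := ih m' hm1 hm2
    refine ⟨fun x => (∏ i, x (Fin.castAdd m' i)) + φ (fun j => x (Fin.natAdd (s + 2) j)),
      ((PD.prod _).mono hs1).add (hφ.comp _), (2 ^ s - 1) * (2 * c + 1) + c, ?_⟩
    rw [sum_cube_add]
    simp only [Fin.append_left, Fin.append_right, sg_add]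
    simp only [← Finset.mul_sum, ← Finset.sum_mul]
    rw [hc, sum_sg_prod]
    push_cast; ring

/-- extension by zero -/
def extZero (k m : ℕ) : Cube m →ₗ[ZMod 2] Cube (k + m) where
  toFun y := Fin.append 0 y
  map_add' y y' := by
    funext i; refine Fin.addCases (fun j => ?_) (fun j => ?_) i <;> simp
  map_smul' c y := by
    funext i; refine Fin.addCases (fun j => ?_) (fun j => ?_) i <;> simp

theorem exists_not_sum {k m r e : ℕ} (hn : k + m = 2 * r) (hk : k < r) (he : 2 ≤ e)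
    (h1 : 2 * (k + 1) ≤ m) (h2 : m ≤ (k + 1) * e) :
    ∃ ψ : BoolFun (k + m), DegLE ψ (k + e) ∧ ψ ∉ BentSums (k + m) := by
  obtain ⟨φ, hφ, c, hc⟩ := exists_phi e he (k + 1) m h1 h2
  refine ⟨fun x => (∏ i, x (Fin.castAdd m i)) * φ (fun j => x (Fin.natAdd k j)),
    ((PD.prod _).mul (hφ.comp _)).degLE, fun hψ => ?_⟩
  have hι : Function.Injective (extZero k m) := by
    intro y y' h
    funext j
    simpa [extZero] using congrFun h (Fin.natAdd k j)
  obtain ⟨j, hj⟩ := face_dvd hn (add_comm m k) hk (extZero k m) hι (Fin.append 1 0) hψ (by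
    intro x hx
    by_contra hne
    apply hx (fun j => x (Fin.natAdd k j))
    have hp : ∏ i, x (Fin.castAdd m i) ≠ 0 := left_ne_zero_of_mul hne
    funext i
    refine Fin.addCases (fun j => ?_) (fun j => ?_) i
    · have := Finset.prod_ne_zero_iff.mp hp j (Finset.mem_univ _)
      rcases zmod2_cases (x (Fin.castAdd m j)) with h | h
      · exact absurd h this
      · simp [extZero, h]
    · simp [extZero]) 0
  simp only [hat, ind, extZero, Pi.zero_apply, zero_mul, Finset.sum_const_zero, sg_zero, one_mul,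
    LinearMap.coe_mk, AddHom.coe_mk, Pi.add_apply, Fin.append_left, Fin.append_right,
    Pi.one_apply, add_zero, zero_add, Finset.prod_const_one] at hj
  rw [← Finset.sum_div, Finset.sum_sub_distrib, hc] at hj
  simp only [Finset.sum_const, Finset.card_univ, Fintype.card_fun, ZMod.card, Fintype.card_fin,
    nsmul_eq_mul, mul_one] at hj
  obtain ⟨s, hs⟩ : ∃ s, m = k + 2 + s := ⟨m - (k + 2), by omega⟩
  have h3 : (2 : ℝ) ^ (k + 1) * ((2 * 2 ^ s - (2 * c + 1) : ℤ) : ℝ)
      = 2 ^ (k + 1) * ((2 * j : ℤ) : ℝ) := by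
    rw [hs] at hj
    push_cast at hj ⊢
    simp only [pow_add] at hj ⊢
    linarith
  have h4 : (2 * 2 ^ s - (2 * c + 1) : ℤ) = 2 * j := by
    exact_mod_cast mul_left_cancel₀ (by positivity) h3
  omega

theorem exists_low_degree_not_sum (r : ℕ) (hr : 4 ≤ r) :
    ∃ d : ℕ, d ≤ r ∧ (d + 1) ^ 2 < 4 * (2 * r + 1) ∧
      ∃ ψ : BoolFun (2 * r), DegLE ψ d ∧ ψ ∉ BentSums (2 * r) := by
  classical
  have hex : ∃ d, 4 * (2 * r + 1) ≤ (d + 2) ^ 2 := ⟨r, by nlinarith⟩
  have hd1 := Nat.find_spec hex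
  have hd2 : Nat.find hex ≤ r := Nat.find_min' hex (by nlinarith)
  have hd4 : 4 ≤ Nat.find hex := by
    by_contra h
    have : Nat.find hex + 2 ≤ 5 := by omega
    nlinarith
  have hd3 := Nat.find_min hex (show Nat.find hex - 1 < Nat.find hex by omega)
  set d := Nat.find hex with hd
  refine ⟨d, hd2, ?_, ?_⟩
  · rw [show d - 1 + 2 = d + 1 by omega] at hd3
    omega
  · obtain ⟨k, e, hke, hk1, hk2⟩ : ∃ k e, d = k + e ∧ k ≤ e ∧ e ≤ k + 1 :=
      ⟨d / 2, d - d / 2, by omega, by omega, by omega⟩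
    obtain ⟨m, hm⟩ : ∃ m, k + m = 2 * r := ⟨2 * r - k, by omega⟩
    have key := exists_not_sum (k := k) (m := m) (r := r) (e := e) hm (by omega) (by omega)
      (by omega) (by
        rcases (show e = k ∨ e = k + 1 by omega) with h | h
        · subst h; rw [hke] at hd1; nlinarith
        · subst h; rw [hke] at hd1
          by_contra hc
          have h5 : (k + 1) * (k + 1) + 1 ≤ m := by omega
          nlinarith)
    rw [hm] at key
    rw [hke]
    exact key

end Pool.Agent.Lib.MP_b90951_co
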