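import Mathlib
import Pool.Agent.Lib.MP_b90951_co.Face

open Pool.Agent.Lib.MP_b90951_co

/-- If a sum of two bent functions vanishes outside an affine subspace of codimension
`k < n/2`, all its Walsh coefficients are divisible by `2^(k+2)`. -/
theorem Pool.Agent.Results.MP_b90951_co.FlatDivisibility.result
    (n k : ℕ) (hn : Even n) (hk : k < n / 2) (ψ : BoolFun n) (hψ : ψ ∈ BentSums n)
    (E : AffineSubspace (ZMod 2) (Fin n → ZMod 2))
    (hE : Module.finrank (ZMod 2) E.direction + k = n) (h0 : ∀ x, x ∉ E → ψ x = 0)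
    (a : Fin n → ZMod 2) : (2 : ℤ) ^ (k + 2) ∣ walsh ψ a := by
  obtain ⟨r, rfl⟩ := hn.two_dvd
  exact walsh_dvd_of_affine (by omega) hψ E hE h0 a
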