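import Pool.Agent.Lib.MP_b90951_co.M5Perm

/-!
The graph of a matrix is an induced subgraph of a cube of logarithmic dimension (Gray codes).
-/

namespace Pool.Agent.Lib.MP_b90951_co.Five

open Finset Hard

/-- The digits of the Gray code. -/
def gb (n i : ℕ) : Bool := xor (n.testBit i) (n.testBit (i + 1))

/-- The Gray codes differ in exactly one digit. -/
def nb (a b : ℕ) : Prop := ∃ i, ∀ k, gb b k = xor (gb a k) (decide (k = i))

theorem gb_high {n d i : ℕ} (h : n < 2 ^ d) (hi : d ≤ i) : gb n i = false := by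
  rw [gb, Nat.testBit_lt_two_pow (h.trans_le (Nat.pow_le_pow_right (by norm_num) hi)),
    Nat.testBit_lt_two_pow (h.trans_le (Nat.pow_le_pow_right (by norm_num) (by omega)))]
  rfl

theorem gb_inj {a b : ℕ} (h : ∀ i, gb a i = gb b i) : a = b := by
  have h1 : ∀ i, xor (a.testBit i) (b.testBit i) = xor (a.testBit 0) (b.testBit 0) := by
    intro i
    induction i with
    | zero => rfl
    | succ i ih =>
      have := h i
      rw [← ih]
      unfold gb at this
      revert this
      cases a.testBit i <;> cases b.testBit i <;> cases a.testBit (i + 1) <;>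
        cases b.testBit (i + 1) <;> decide
  have h2 := h1 (a + b)
  rw [Nat.testBit_lt_two_pow ((Nat.le_add_right a b).trans_lt Nat.lt_two_pow_self),
    Nat.testBit_lt_two_pow ((Nat.le_add_left b a).trans_lt Nat.lt_two_pow_self)] at h2
  refine Nat.eq_of_testBit_eq fun i => ?_
  have := (h1 i).trans h2.symm
  revert this
  cases a.testBit i <;> cases b.testBit i <;> decide

theorem gb_succ (n k : ℕ) : gb n (k + 1) = gb (n / 2) k := by
  simp only [gb, Nat.testBit_succ]

theorem gb_zero (n : ℕ) : gb n 0 = xor (decide (n % 2 = 1)) (decide (n / 2 % 2 = 1)) := by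
  simp only [gb, Nat.testBit_succ, Nat.testBit_zero]

theorem nb_succ (b : ℕ) : nb b (b + 1) := by
  induction b using Nat.strong_induction_on with
  | _ b ih =>
    rcases Nat.even_or_odd' b with ⟨m, rfl | rfl⟩
    · refine ⟨0, fun k => ?_⟩
      rcases k with _ | k
      · rw [gb_zero, gb_zero, show (2 * m + 1) / 2 = m by omega, show 2 * m / 2 = m by omega,
          show (2 * m + 1) % 2 = 1 by omega, show 2 * m % 2 = 0 by omega]
        simp
      · rw [gb_succ, gb_succ, show (2 * m + 1) / 2 = m by omega, show 2 * m / 2 = m by omega]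
        simp
    · obtain ⟨i, hi⟩ := ih m (by omega)
      refine ⟨i + 1, fun k => ?_⟩
      rcases k with _ | k
      · rw [gb_zero, gb_zero, show (2 * m + 1) / 2 = m by omega,
          show (2 * m + 1 + 1) / 2 = m + 1 by omega, show (2 * m + 1) % 2 = 1 by omega,
          show (2 * m + 1 + 1) % 2 = 0 by omega]
        rcases Nat.mod_two_eq_zero_or_one m with h | h <;> simp [Nat.add_mod, h]
      · rw [gb_succ, gb_succ, show (2 * m + 1) / 2 = m by omega,
          show (2 * m + 1 + 1) / 2 = m + 1 by omega, hi]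
        simp

theorem nb.symm {a b : ℕ} (h : nb a b) : nb b a :=
  h.imp fun i hi k => by rw [hi]; simp

theorem nb.unique {a b k l : ℕ} (h : nb a b) (hk : gb a k ≠ gb b k) (hl : gb a l ≠ gb b l) :
    k = l := by
  obtain ⟨i, hi⟩ := h
  have key : ∀ k, gb a k ≠ gb b k → k = i := fun k hk => by
    by_contra e
    exact hk (by simp [hi, e])
  rw [key k hk, key l hl]

theorem nb.ne {a b : ℕ} (h : nb a b) : a ≠ b := by
  rintro rfl
  obtain ⟨i, hi⟩ := h
  simpa using hi i

theorem nb_two_five : nb 2 5 := ⟨2, fun k => by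
  rcases k with _ | _ | _ | k
  · rfl
  · rfl
  · rfl
  · rw [gb_high (d := 3) (by norm_num) (by omega), gb_high (d := 3) (by norm_num) (by omega)]
    simp⟩

theorem nb.layer {a b : ℕ} (h : nb a b) :
    ¬ (a = 0 ∧ b = 2) ∧ ¬ (a = 0 ∧ b = 5) ∧ ¬ (a = 1 ∧ b = 5) := by
  refine ⟨?_, ?_, ?_⟩ <;> rintro ⟨rfl, rfl⟩
  · exact absurd (h.unique (k := 0) (l := 1) (by decide) (by decide)) (by decide)
  · exact absurd (h.unique (k := 0) (l := 1) (by decide) (by decide)) (by decide)
  · exact absurd (h.unique (k := 1) (l := 2) (by decide) (by decide)) (by decide)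

/-- A bit as an element of the field with two elements. -/
def b2 (b : Bool) : ZMod 2 := if b then 1 else 0

theorem b2_inj {b c : Bool} : b2 b = b2 c ↔ b = c := by revert b c; decide

theorem b2_xor (b c : Bool) : b2 (xor b c) = b2 b + b2 c := by revert b c; decide

/-- Five interleaved Gray codes. -/
def embF (d : ℕ) (u : ℕ → ℕ) : Fin (5 * d + 4) → ZMod 2 := fun j => b2 (gb (u (j % 5)) (j / 5))

theorem embF_at {d : ℕ} (u : ℕ → ℕ) {f i : ℕ} (hf : f < 5) (hi : i < d) :
    embF d u ⟨5 * i + f, by omega⟩ = b2 (gb (u f) i) := by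
  simp only [embF, show (5 * i + f) % 5 = f by omega, show (5 * i + f) / 5 = i by omega]

theorem embF_inj {d : ℕ} {u v : ℕ → ℕ} (hu : ∀ f, u f < 2 ^ d) (hv : ∀ f, v f < 2 ^ d)
    (h : embF d u = embF d v) : ∀ f < 5, u f = v f := by
  refine fun f hf => gb_inj fun i => ?_
  by_cases hi : i < d
  · rw [← b2_inj, ← embF_at u hf hi, h, embF_at v hf hi]
  · rw [gb_high (hu f) (by omega), gb_high (hv f) (by omega)]

theorem embF_adj {d : ℕ} {u v : ℕ → ℕ} (hu : ∀ f, u f < 2 ^ d) (hv : ∀ f, v f < 2 ^ d) :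
    (∃ j, embF d v = embF d u + uv j) ↔
      ∃ f < 5, nb (u f) (v f) ∧ ∀ g < 5, g ≠ f → u g = v g := by
  constructor
  · rintro ⟨j, hj⟩
    have h0 : j / 5 < d := by
      by_contra e
      have := congrFun hj j
      simp [embF, uv, gb_high (hu _) (not_lt.1 e), gb_high (hv _) (not_lt.1 e), b2] at this
    have h1 : ∀ g < 5, ∀ i, gb (v g) i = xor (gb (u g) i) (decide (5 * i + g = j)) := by
      intro g hg i
      by_cases hi : i < d
      · rw [← b2_inj, b2_xor, ← embF_at v hg hi, hj, Pi.add_apply, embF_at u hg hi]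
        simp [uv, Pi.single_apply, Fin.ext_iff, b2]
      · rw [gb_high (hu g) (by omega), gb_high (hv g) (by omega), decide_eq_false (by omega)]
        rfl
    refine ⟨j % 5, by omega, ⟨j / 5, fun k => ?_⟩, fun g hg e => gb_inj fun i => ?_⟩
    · rw [h1 _ (by omega)]
      congr 1
      exact decide_eq_decide.2 (by omega)
    · rw [h1 g hg, decide_eq_false (by omega)]
      simp
  · rintro ⟨f, hf, ⟨i, hi⟩, h⟩
    have h0 : i < d := by
      by_contra e
      simpa [gb_high (hu _) (not_lt.1 e), gb_high (hv _) (not_lt.1 e)] using hi i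
    refine ⟨⟨5 * i + f, by omega⟩, funext fun j => ?_⟩
    simp only [embF, Pi.add_apply, uv, Pi.single_apply, Fin.ext_iff]
    by_cases e : j % 5 = f
    · rw [e, hi, b2_xor]
      congr 1
      by_cases e' : j / 5 = i
      · rw [if_pos (by omega), decide_eq_true e']; rfl
      · rw [if_neg (by omega), decide_eq_false e']; rfl
    · rw [h _ (by omega) e, if_neg (by omega), add_zero]

/-- The five fields of a vertex of kind `k`. -/
def fld (k a b f : ℕ) : ℕ :=
  if f = 0 then (if k < 3 then a else b)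
  else if f = 1 then (if k < 3 then a else if k = 4 then b + 1 else b)
  else if f = 2 then (if k < 3 then b else a)
  else if f = 3 then (if k = 1 then b + 1 else if k < 3 then b else a)
  else if k < 2 then 0 else if k = 2 then 1 else if k = 5 then 2 else 5

open Vx

/-- The fields of a vertex. -/
def fv : Vx → ℕ → ℕ
  | P s a b => fld (if s then 3 else 0) a b
  | M s a b => fld (if s then 4 else 1) a b
  | C s a b => fld (if s then 5 else 2) a b

variable {N d : ℕ} {A : ℕ → ℕ → Bool}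

theorem fv_lt (hN : N < 2 ^ d) (h8 : 8 ≤ 2 ^ d) {t : Vx} (h : Val N A t) (f : ℕ) :
    fv t f < 2 ^ d := by
  rcases t with ⟨s, a, b⟩ | ⟨s, a, b⟩ | ⟨s, a, b⟩ <;> simp only [Val] at h <;>
    simp only [fv, fld] <;> split_ifs <;> omega

theorem fv_inj {t t' : Vx} (h : ∀ f < 5, fv t f = fv t' f) : t = t' := by
  have h0 := h 0 (by omega)
  have h1 := h 1 (by omega)
  have h2 := h 2 (by omega)
  have h3 := h 3 (by omega)
  have h4 := h 4 (by omega)
  clear h
  rcases t with ⟨_ | _, a, b⟩ | ⟨_ | _, a, b⟩ | ⟨_ | _, a, b⟩ <;>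
    rcases t' with ⟨_ | _, a', b'⟩ | ⟨_ | _, a', b'⟩ | ⟨_ | _, a', b'⟩ <;>
    simp [fv, fld] at h0 h1 h2 h3 h4 ⊢ <;> omega

theorem adj_iff (t t' : Vx) :
    Adj t t' ↔ ∃ f < 5, nb (fv t f) (fv t' f) ∧ ∀ g < 5, g ≠ f → fv t g = fv t' g := by
  constructor
  · have all : ∀ {p : ℕ → Prop}, p 0 → p 1 → p 2 → p 3 → p 4 → ∀ g < 5, p g := by
      intro p h0 h1 h2 h3 h4 g hg
      interval_cases g <;> assumption
    rcases t with ⟨_ | _, a, b⟩ | ⟨_ | _, a, b⟩ | ⟨_ | _, a, b⟩
    · rintro (rfl | ⟨h, rfl⟩ | rfl)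
      · exact ⟨3, by omega, nb_succ b, by apply all <;> simp [fv, fld]⟩
      · obtain ⟨b, rfl⟩ : ∃ c, b = c + 1 := ⟨b - 1, by omega⟩
        exact ⟨2, by omega, (nb_succ b).symm, by apply all <;> simp [fv, fld]⟩
      · exact ⟨4, by omega, nb_succ 0, by apply all <;> simp [fv, fld]⟩
    · rintro (rfl | ⟨h, rfl⟩ | rfl)
      · exact ⟨1, by omega, nb_succ b, by apply all <;> simp [fv, fld]⟩
      · obtain ⟨b, rfl⟩ : ∃ c, b = c + 1 := ⟨b - 1, by omega⟩
        exact ⟨0, by omega, (nb_succ b).symm, by apply all <;> simp [fv, fld]⟩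
      · exact ⟨4, by omega, nb_two_five.symm, by apply all <;> simp [fv, fld]⟩
    · rintro (rfl | rfl)
      · exact ⟨3, by omega, (nb_succ b).symm, by apply all <;> simp [fv, fld]⟩
      · exact ⟨2, by omega, nb_succ b, by apply all <;> simp [fv, fld]⟩
    · rintro (rfl | rfl)
      · exact ⟨1, by omega, (nb_succ b).symm, by apply all <;> simp [fv, fld]⟩
      · exact ⟨0, by omega, nb_succ b, by apply all <;> simp [fv, fld]⟩
    · rintro (rfl | rfl)
      · exact ⟨4, by omega, (nb_succ 0).symm, by apply all <;> simp [fv, fld]⟩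
      · exact ⟨4, by omega, nb_succ 1, by apply all <;> simp [fv, fld]⟩
    · rintro (rfl | rfl)
      · exact ⟨4, by omega, nb_two_five, by apply all <;> simp [fv, fld]⟩
      · exact ⟨4, by omega, (nb_succ 1).symm, by apply all <;> simp [fv, fld]⟩
  · rintro ⟨f, hf, hn, h⟩
    have h0 := h 0 (by omega)
    have h1 := h 1 (by omega)
    have h2 := h 2 (by omega)
    have h3 := h 3 (by omega)
    have h4 := h 4 (by omega)
    have h5 := hn.ne
    have h6 : f = 4 → ¬ (fv t 4 = 0 ∧ fv t' 4 = 2) ∧ ¬ (fv t 4 = 0 ∧ fv t' 4 = 5) ∧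
      ¬ (fv t 4 = 1 ∧ fv t' 4 = 5) := fun e => (e ▸ hn).layer
    have h7 : f = 4 → ¬ (fv t' 4 = 0 ∧ fv t 4 = 2) ∧ ¬ (fv t' 4 = 0 ∧ fv t 4 = 5) ∧
      ¬ (fv t' 4 = 1 ∧ fv t 4 = 5) := fun e => (e ▸ hn).symm.layer
    clear h hn
    interval_cases f <;>
    rcases t with ⟨_ | _, a, b⟩ | ⟨_ | _, a, b⟩ | ⟨_ | _, a, b⟩ <;>
    rcases t' with ⟨_ | _, a', b'⟩ | ⟨_ | _, a', b'⟩ | ⟨_ | _, a', b'⟩ <;>
    simp [fv, fld, Adj] at h0 h1 h2 h3 h4 h5 h6 h7 ⊢ <;> omega

/-- The set of cube vertices attached to a matrix. -/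
def Ymat (d N : ℕ) (A : ℕ → ℕ → Bool) : Set (Fin (5 * d + 4) → ZMod 2) :=
  (fun t => embF d (fv t)) '' {t | Val N A t}

theorem card_Ymat (hN : N < 2 ^ d) (h8 : 8 ≤ 2 ^ d) : Nat.card {c // IsPM (Ymat d N A) c} =
    (Matrix.of fun i j : Fin N => (A i j).toNat).permanent := by
  rw [Ymat, card_IsPM (Val N A) Adj _
    (fun t t' h h' e => fv_inj (embF_inj (fv_lt hN h8 h) (fv_lt hN h8 h') e))
    (fun t t' h h' => (adj_iff t t').trans (embF_adj (fv_lt hN h8 h) (fv_lt hN h8 h')).symm),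
    card_IsInv, card_perm N (fun i j => A i j)]

end Pool.Agent.Lib.MP_b90951_co.Five
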