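import Pool.Agent.Lib.MP_b90951_co.NPFourier

/-!
Bent functions on a product of four-dimensional blocks that are invariant under an element of order
five in each block. They are the functions of the orbits that are balanced on every line, so the
number of bent `f` with `ψ + f` bent is, modulo five, the number of such balanced functions.
-/

namespace Pool.Agent.Lib.MP_b90951_co.Five

open Module Finset Hard

/-- All Walsh coefficients have absolute value `c`. -/
def Bent {V : Type*} [AddCommGroup V] [Module (ZMod 2) V] [Fintype V] (c : ℤ) (f : V → ZMod 2) :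
    Prop :=
  ∀ φ : Dual (ZMod 2) V, |W (fun x => sg (f x)) φ| = c

section General

variable {V V' : Type*} [AddCommGroup V] [Module (ZMod 2) V] [Fintype V]
  [AddCommGroup V'] [Module (ZMod 2) V'] [Fintype V']

theorem Bent.comp {c : ℤ} {f : V → ZMod 2} (h : Bent c f) (L : V' ≃ₗ[ZMod 2] V) :
    Bent c (fun x => f (L x)) := by
  intro φ
  rw [← h (φ ∘ₗ L.symm.toLinearMap)]
  congr 1
  exact Fintype.sum_equiv L.toEquiv _ _ (fun x => by simp)

theorem Bent.autocorr {c : ℤ} {f : V → ZMod 2} (h : Bent c f) {d : V} (hd : d ≠ 0) :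
    ∑ x, sg (f x) * sg (f (x + d)) = 0 := by
  classical
  have : Finite (Dual (ZMod 2) V) := DFunLike.finite _
  have := Fintype.ofFinite (Dual (ZMod 2) V)
  have h0 : ∀ x : V, ∑ φ : Dual (ZMod 2) V, sg (φ x) =
      2 ^ finrank (ZMod 2) (⊥ : Submodule (ZMod 2) V).dualAnnihilator * if x = 0 then 1 else 0 := by
    intro x
    have := sum_dual (⊥ : Submodule (ZMod 2) V) x
    simpa [ind] using this
  have h1 : ∑ φ : Dual (ZMod 2) V, W (fun x => sg (f x)) φ ^ 2 * sg (φ d) = 0 := by
    simp only [← sq_abs (W _ _), h _]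
    rw [← Finset.mul_sum, h0, if_neg hd]
    simp
  have h2 : ∑ φ : Dual (ZMod 2) V, W (fun x => sg (f x)) φ ^ 2 * sg (φ d) =
      ∑ x, ∑ y, sg (f x) * sg (f y) * ∑ φ : Dual (ZMod 2) V, sg (φ (y + (x + d))) := by
    simp only [W, sq, Finset.sum_mul, Finset.mul_sum]
    rw [Finset.sum_comm]
    refine Finset.sum_congr rfl (fun x _ => ?_)
    rw [Finset.sum_comm]
    refine Finset.sum_congr rfl (fun y _ => Finset.sum_congr rfl (fun b _ => ?_))
    simp only [map_add, sg_add]; ring
  have h3 : ∀ x y : V, y + (x + d) = 0 ↔ y = x + d := fun x y =>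
    ⟨fun e => by rw [← vadd_cancel y (x + d), e, zero_add], fun e => by rw [e, vadd_self]⟩
  rw [h2] at h1
  simp only [h0, h3, mul_ite, mul_one, mul_zero, Finset.sum_ite_eq', mem_univ, if_true] at h1
  rw [← Finset.sum_mul] at h1
  exact (mul_eq_zero.1 h1).resolve_right (by positivity)

end General

/-- A block. -/
abbrev B : Type := Fin 4 → ZMod 2

/-- The labels of the four orbits in a block. -/
abbrev Q : Type := ZMod 2 × ZMod 2

/-- A linear map of order five. -/
def gL : B →ₗ[ZMod 2] B where
  toFun x := ![x 3, x 0 + x 3, x 1 + x 3, x 2 + x 3]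
  map_add' := by decide
  map_smul' := by decide

/-- The first bit of the label: the second binary digit of the weight. -/
def qa (x : B) : ZMod 2 := x 0 * x 1 + x 0 * x 2 + x 0 * x 3 + x 1 * x 2 + x 1 * x 3 + x 2 * x 3

/-- The label of the orbit. -/
def nm (x : B) : Q := (qa x, x 0 + x 1 + x 2 + x 3 + x 0 * x 1 + x 1 * x 2 + x 2 * x 3)

theorem gL_five : gL ^ 5 = 1 := by
  refine LinearMap.ext ?_
  simp only [Module.End.pow_apply]
  decide

theorem nm_gL (x : B) : nm (gL x) = nm x := by revert x; decide

theorem nm_pow (n : ℕ) (x : B) : nm ((gL ^ n) x) = nm x := by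
  induction n with
  | zero => rfl
  | succ n ih => rw [pow_succ', Module.End.mul_apply, nm_gL, ih]

theorem nm_orbit (x y : B) (h : nm x = nm y) : ∃ t : ZMod 5, y = (gL ^ t.val) x := by
  simp only [Module.End.pow_apply]
  revert x y
  decide

theorem nm_surj (u : Q) : ∃ x, nm x = u := by revert u; decide

theorem kernel_vec (a : B) : ∃ v : Q, ∀ u : Q,
    ∑ x : B, (if nm x = u then sg (∑ j, x j * a j) else 0) =
      (if a = 0 then 5 else 1) + -4 * if u = v then 1 else 0 := by
  revert a
  decide

theorem kernel (φ : Dual (ZMod 2) B) : ∃ κ : ℤ, ∃ v : Q, ∀ u : Q,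
    ∑ x : B, (if nm x = u then sg (φ x) else 0) = κ + -4 * if u = v then 1 else 0 := by
  obtain ⟨v, hv⟩ := kernel_vec (fun j => φ (fun i => if j = i then 1 else 0))
  refine ⟨_, v, fun u => Eq.trans ?_ (hv u)⟩
  refine Finset.sum_congr rfl (fun x _ => ?_)
  rw [LinearMap.pi_apply_eq_sum_univ φ x]
  rfl

theorem sum_nm (h : Q → ℤ) :
    ∑ x : B, h (nm x) = h (0, 0) + 5 * (h (0, 1) + h (1, 0) + h (1, 1)) := by
  have e : ∀ u : Q, (univ.filter (fun x : B => nm x = u)).card = if u = (0, 0) then 1 else 5 := by
    decide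
  rw [← Finset.sum_fiberwise' univ nm h]
  simp only [Finset.sum_const, e, Fintype.sum_prod_type]
  have : (univ : Finset (ZMod 2)) = {0, 1} := by decide
  simp [this]
  ring

theorem sum_Q (h : Q → ℤ) : ∑ u, h u = h (0, 0) + h (0, 1) + h (1, 0) + h (1, 1) := by
  have : (univ : Finset (ZMod 2)) = {0, 1} := by decide
  simp [Fintype.sum_prod_type, this]
  ring

variable {ι : Type} [Fintype ι] [DecidableEq ι]

/-- Balanced on every line. -/
def LB (F : (ι → Q) → ZMod 2) : Prop := ∀ i u, ∑ v, sg (F (Function.update u i v)) = 0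

omit [Fintype ι] in
theorem add_single {M : Type} [AddCommGroup M] (u : ι → M) (i : ι) (v : M) :
    u + Pi.single i v = Function.update u i (u i + v) := by
  funext j
  by_cases h : j = i
  · subst h; simp
  · simp [h]

theorem LB.vanish {F : (ι → Q) → ZMod 2} (hF : LB F) (i : ι) (h : (ι → Q) → ℤ)
    (hh : ∀ u v, h (Function.update u i v) = h u) : ∑ u, sg (F u) * h u = 0 := by
  have h1 : ∀ v : Q, ∑ u, sg (F u) * h u = ∑ u, sg (F (Function.update u i (u i + v))) * h u := by
    intro v
    rw [← Fintype.sum_equiv (Equiv.addRight (Pi.single i v)) _ (fun u => sg (F u) * h u)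
      (fun _ => rfl)]
    simp only [Equiv.coe_addRight, add_single, hh]
  have h2 : ∑ v : Q, ∑ u, sg (F (Function.update u i (u i + v))) * h u = 0 := by
    rw [Finset.sum_comm]
    refine Finset.sum_eq_zero (fun u _ => ?_)
    rw [← Finset.sum_mul, Fintype.sum_equiv (Equiv.addLeft (u i))
      (fun v => sg (F (Function.update u i (u i + v))))
      (fun v => sg (F (Function.update u i v))) (fun _ => rfl), hF, zero_mul]
  simp only [← h1, Finset.sum_const, card_univ, nsmul_eq_mul] at h2
  exact (mul_eq_zero.1 h2).resolve_left (by decide)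

theorem LB.bent {F : (ι → Q) → ZMod 2} (hF : LB F) :
    Bent (4 ^ Fintype.card ι) (fun x : ι → B => F (fun i => nm (x i))) := by
  intro φ
  choose κ v hv using fun i => kernel (φ ∘ₗ LinearMap.single (ZMod 2) (fun _ => B) i)
  have h1 : ∀ x : ι → B, sg (φ x) = ∏ i, sg (φ (Pi.single i (x i))) := by
    intro x
    conv_lhs => rw [← Finset.univ_sum_single x, map_sum]
    induction (univ : Finset ι) using Finset.cons_induction with
    | empty => simp
    | cons a s ha ih => rw [sum_cons, prod_cons, sg_add, ih]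
  have h2 : W (fun x : ι → B => sg (F (fun i => nm (x i)))) φ =
      ∑ u, sg (F u) * ∏ i, (κ i + -4 * if u i = v i then 1 else 0) := by
    simp only [← hv, Fintype.prod_sum, Finset.mul_sum, W]
    rw [Finset.sum_comm]
    refine Finset.sum_congr rfl (fun x _ => ?_)
    rw [Finset.sum_eq_single (fun i => nm (x i))]
    · simp [h1 x]
    · intro u _ hu
      obtain ⟨i, hi⟩ := Function.ne_iff.1 hu
      rw [Finset.prod_eq_zero (mem_univ i) (if_neg (Ne.symm hi)), mul_zero]
    · simp
  rw [h2]
  simp only [Fintype.prod_add, Finset.mul_sum]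
  rw [Finset.sum_comm, Finset.sum_eq_single ∅]
  · rw [Finset.sum_eq_single v]
    · rcases sg_cases (F v) with h | h <;> simp [h, abs_pow]
    · intro u _ hu
      obtain ⟨i, hi⟩ := Function.ne_iff.1 hu
      rw [Finset.prod_eq_zero (s := (∅ : Finset ι)ᶜ) (i := i) (by simp) (by simp [hi])]
      simp
    · simp
  · intro t _ ht
    obtain ⟨i, hi⟩ := Finset.nonempty_iff_ne_empty.2 ht
    refine hF.vanish i _ (fun u w => ?_)
    congr 1
    refine Finset.prod_congr rfl (fun j hj => ?_)
    rw [Function.update_of_ne]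
    rintro rfl
    exact (mem_compl.1 hj) hi
  · simp

theorem LB.of_bent {c : ℤ} {F : (ι → Q) → ZMod 2}
    (h : Bent c (fun x : ι → B => F (fun i => nm (x i)))) : LB F := by
  intro i u
  set s : (ι → B) → ℤ := fun x => sg (F (fun i => nm (x i))) with hs
  set R : (ι → B) → ℤ := fun x => ∑ d : B, s (x + Pi.single i d) with hR
  have h1 : ∑ x, R x ^ 2 = ∑ _x : ι → B, (16 : ℤ) := by
    simp only [hR, sq, Finset.sum_mul_sum]
    rw [Finset.sum_comm]
    have e : ∀ d : B, ∑ x : ι → B, ∑ d' : B, s (x + Pi.single i d) * s (x + Pi.single i d') =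
        ∑ _x : ι → B, (1 : ℤ) := by
      intro d
      rw [Finset.sum_comm, Finset.sum_eq_single d]
      · exact Finset.sum_congr rfl (fun x _ => sg_mul_self _)
      · intro d' _ hd
        have hne : (Pi.single i (d + d') : ι → B) ≠ 0 := by
          rw [Ne, Pi.single_eq_zero_iff]
          exact fun e => hd (by rw [← vadd_cancel d' d, add_comm d' d, e, zero_add])
        rw [← h.autocorr hne, ← sum_shift _ (Pi.single i d : ι → B)]
        refine Finset.sum_congr rfl (fun x _ => ?_)
        rw [vadd_cancel, Pi.single_add, add_assoc]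
      · simp
    simp only [e]
    simp [mul_comm]
  have h2 : ∀ x, R x = sg (F (Function.update (fun i => nm (x i)) i (0, 0))) +
      5 * (sg (F (Function.update (fun i => nm (x i)) i (0, 1))) +
        sg (F (Function.update (fun i => nm (x i)) i (1, 0))) +
        sg (F (Function.update (fun i => nm (x i)) i (1, 1)))) := by
    intro x
    rw [← sum_nm (fun v => sg (F (Function.update (fun i => nm (x i)) i v))),
      ← sum_shift _ (x i)]
    refine Finset.sum_congr rfl (fun d _ => ?_)
    simp only [hs, add_single]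
    congr 2
    funext j
    by_cases hj : j = i
    · subst hj; simp [add_comm]
    · simp [hj]
  have h3 : ∀ a b c d : ZMod 2, 16 ≤ (sg a + 5 * (sg b + sg c + sg d)) ^ 2 ∧
      (16 = (sg a + 5 * (sg b + sg c + sg d)) ^ 2 → sg a + sg b + sg c + sg d = 0) := by decide
  have h4 := (Finset.sum_eq_sum_iff_of_le (s := univ) (f := fun _ : ι → B => (16 : ℤ))
    (g := fun x => R x ^ 2) (fun x _ => by rw [h2]; exact (h3 _ _ _ _).1)).1 h1.symm
  choose r hr using nm_surj
  have h5 := h4 (fun j => r (u j)) (mem_univ _)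
  rw [h2] at h5
  simp only [hr] at h5
  rw [sum_Q]
  exact (h3 _ _ _ _).2 h5

/-- The action of a family of exponents on the product of the blocks. -/
def act (t : ι → ZMod 5) : (ι → B) →ₗ[ZMod 2] (ι → B) :=
  LinearMap.pi (fun i => (gL ^ (t i).val) ∘ₗ LinearMap.proj i)

omit [Fintype ι] [DecidableEq ι] in
theorem act_add (s t : ι → ZMod 5) (x : ι → B) : act s (act t x) = act (s + t) x := by
  funext i
  change (gL ^ (s i).val) ((gL ^ (t i).val) (x i)) = (gL ^ (s i + t i).val) (x i)
  rw [ZMod.val_add, ← pow_eq_pow_mod _ gL_five, pow_add, Module.End.mul_apply]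

omit [Fintype ι] [DecidableEq ι] in
theorem act_zero (x : ι → B) : act 0 x = x := rfl

theorem Bent.act {c : ℤ} {f : (ι → B) → ZMod 2} (h : Bent c f) (t : ι → ZMod 5) :
    Bent c (fun x => f (act t x)) :=
  h.comp (LinearEquiv.ofLinearMap (Five.act t) (Five.act (-t))
    (LinearMap.ext fun x => by simp [act_add, act_zero])
    (LinearMap.ext fun x => by simp [act_add, act_zero]))

omit [Fintype ι] [DecidableEq ι] in
theorem nm_act (t : ι → ZMod 5) (x : ι → B) : (fun i => nm (act t x i)) = fun i => nm (x i) :=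
  funext fun _ => nm_pow _ _

/-- The count of the fixed points. -/
theorem count_modEq (Ψ : (ι → Q) → ZMod 2) :
    Nat.card {f : (ι → B) → ZMod 2 // Bent (4 ^ Fintype.card ι) f ∧
        Bent (4 ^ Fintype.card ι) (fun x => Ψ (fun i => nm (x i)) + f x)} ≡
      Nat.card {F : (ι → Q) → ZMod 2 // LB F ∧ LB (Ψ + F)} [MOD 5] := by
  set X := {f : (ι → B) → ZMod 2 // Bent (4 ^ Fintype.card ι) f ∧
        Bent (4 ^ Fintype.card ι) (fun x => Ψ (fun i => nm (x i)) + f x)}
  let _ : MulAction (Multiplicative (ι → ZMod 5)) X :=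
    { smul := fun t f => ⟨fun x => f.1 (act t.toAdd x), f.2.1.act _, by
        have := f.2.2.act t.toAdd
        simpa only [nm_act] using this⟩
      one_smul := fun _ => rfl
      mul_smul := fun s t f => Subtype.ext (funext fun x => by
        change f.1 (act (s.toAdd + t.toAdd) x) = f.1 (act t.toAdd (act s.toAdd x))
        rw [act_add, add_comm]) }
  have hp : IsPGroup 5 (Multiplicative (ι → ZMod 5)) := fun g => ⟨1, by
    apply Multiplicative.toAdd.injective
    funext i
    change (5 ^ 1) • g.toAdd i = 0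
    generalize g.toAdd i = a
    revert a
    decide⟩
  have : Fact (Nat.Prime 5) := ⟨by norm_num⟩
  refine (hp.card_modEq_card_fixedPoints X).trans ?_
  choose r hr using nm_surj
  have e : Nat.card {F : (ι → Q) → ZMod 2 // LB F ∧ LB (Ψ + F)} =
      Nat.card (MulAction.fixedPoints (Multiplicative (ι → ZMod 5)) X) := by
    refine Nat.card_eq_of_bijective (fun F => ⟨⟨fun x => F.1 (fun i => nm (x i)), F.2.1.bent,
      F.2.2.bent⟩, fun t => Subtype.ext (funext fun x => congrArg F.1 (nm_act _ x))⟩) ⟨?_, ?_⟩
    · intro F G h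
      refine Subtype.ext (funext fun u => ?_)
      have := congrFun (congrArg (fun z => z.1.1) h) (fun i => r (u i))
      simpa only [hr] using this
    · rintro ⟨⟨f, h1, h2⟩, hf⟩
      have key : (fun x : ι → B => f (fun i => r (nm (x i)))) = f := by
        funext x
        choose t ht using fun i => nm_orbit (x i) (r (nm (x i))) (hr _).symm
        have := congrFun (congrArg Subtype.val (hf (Multiplicative.ofAdd t))) x
        rw [← show f (act t x) = f x from this]
        exact congrArg f (funext ht)
      refine ⟨⟨fun u => f (fun i => r (u i)), LB.of_bent (c := 4 ^ Fintype.card ι) ?_,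
        LB.of_bent (c := 4 ^ Fintype.card ι) ?_⟩, Subtype.ext (Subtype.ext key)⟩
      · rw [key]; exact h1
      · have : (fun x : ι → B => (Ψ + fun u : ι → Q => f (fun i => r (u i))) (fun i => nm (x i))) =
            fun x => Ψ (fun i => nm (x i)) + f x :=
          funext fun x => congrArg (Ψ (fun i => nm (x i)) + ·) (congrFun key x)
        rw [this]; exact h2
  rw [e]

end Pool.Agent.Lib.MP_b90951_co.Five
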