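import Pool.Agent.Lib.MP_b90951_co.M5Fix

/-!
Functions that are balanced on every line before and after adding the parity of the first bits
changed on a doubled subset of a cube: reduction to a sum over states of the diagonal vertices.
-/

namespace Pool.Agent.Lib.MP_b90951_co.Five

open Finset Hard

/-- Equal differences. -/
def Rel (p q r t : ZMod 2) : Prop := (p = q ∧ r = t) ∨ (p = r ∧ q = t)

instance (p q r t : ZMod 2) : Decidable (Rel p q r t) := by unfold Rel; infer_instance

section Line

variable {ι : Type} [DecidableEq ι]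

/-- A unit vector. -/
def uv (i : ι) : ι → ZMod 2 := Pi.single i 1

/-- Independence of a coordinate. -/
def Ind (i : ι) (v : (ι → ZMod 2) → ZMod 2) : Prop := ∀ b, v (b + uv i) = v b

/-- Equal differences in one direction. -/
def RelF (i : ι) (v v' : (ι → ZMod 2) → ZMod 2) : Prop :=
  ∀ b, Rel (v b) (v (b + uv i)) (v' b) (v' (b + uv i))

theorem RelF.symm {i : ι} {v v' : (ι → ZMod 2) → ZMod 2} (h : RelF i v v') : RelF i v' v :=
  fun b => (h b).imp (fun h => ⟨h.2, h.1⟩) (fun h => ⟨h.1.symm, h.2.symm⟩)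

theorem RelF.ind {i : ι} {v v' : (ι → ZMod 2) → ZMod 2} (h : RelF i v v') (h' : Ind i v') :
    Ind i v := fun b => by
  rcases h b with h | h
  · exact h.1.symm
  · rw [h.1, h.2, h' b]

theorem Ind.relF {i : ι} {v v' : (ι → ZMod 2) → ZMod 2} (h : Ind i v) (h' : Ind i v') :
    RelF i v v' := fun b => Or.inl ⟨(h b).symm, (h' b).symm⟩

theorem uv_ne (i : ι) : uv i ≠ 0 := fun h => by simpa [uv] using congrFun h i

theorem uv_inj : Function.Injective (uv : ι → ι → ZMod 2) := fun i j h => by
  by_contra hij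
  simpa [uv, hij] using congrFun h i

omit [DecidableEq ι] in
theorem add_eq_zero' {x y : ι → ZMod 2} : x + y = 0 ↔ x = y :=
  ⟨fun e => by rw [← vadd_cancel x y, e, zero_add], fun e => by rw [e, vadd_self]⟩

variable [Fintype ι]

theorem sum_add_uv (a : ι → ZMod 2) (i : ι) : ∑ j, (a + uv i) j = ∑ j, a j + 1 := by
  simp [uv, Finset.sum_add_distrib]

/-- A function does not see the coordinates of which it is independent. -/
theorem eq_of_ind {v : (ι → ZMod 2) → ZMod 2} (b b' : ι → ZMod 2)
    (h : ∀ i, b i ≠ b' i → Ind i v) : v b = v b' := by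
  have key : ∀ s : Finset ι, v (fun i => if i ∈ s then b' i else b i) = v b := by
    intro s
    induction s using Finset.induction_on with
    | empty => simp
    | insert k s hk ih =>
      rw [← ih]
      by_cases e : b k = b' k
      · congr 1
        funext i
        by_cases hi : i = k
        · subst hi; simp [hk, e]
        · simp [hi]
      · rw [← h k e (fun i => if i ∈ s then b' i else b i)]
        congr 1
        funext i
        by_cases hi : i = k
        · subst hi
          simp only [mem_insert_self, if_true, Pi.add_apply, if_neg hk, uv, Pi.single_eq_same]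
          revert e
          generalize b i = p
          generalize b' i = q
          revert p q
          decide
        · simp [hi, uv]
  simpa using (key univ).symm

omit [Fintype ι] in
theorem LB_iff (F : (ι → ZMod 2) → (ι → ZMod 2) → ZMod 2) :
    LB (fun u : ι → Q => F (fun i => (u i).1) (fun i => (u i).2)) ↔ ∀ i a b,
      sg (F a b) + sg (F a (b + uv i)) + sg (F (a + uv i) b) + sg (F (a + uv i) (b + uv i)) = 0 := by
  have key : ∀ (i : ι) (u : ι → Q),
      ∑ v, sg (F (fun j => (Function.update u i v j).1) (fun j => (Function.update u i v j).2)) =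
      sg (F (fun j => (u j).1) (fun j => (u j).2)) +
        sg (F (fun j => (u j).1) ((fun j => (u j).2) + uv i)) +
        sg (F ((fun j => (u j).1) + uv i) (fun j => (u j).2)) +
        sg (F ((fun j => (u j).1) + uv i) ((fun j => (u j).2) + uv i)) := by
    intro i u
    rw [← Fintype.sum_equiv (Equiv.addLeft (u i))
      (fun v => sg (F (fun j => (Function.update u i (u i + v) j).1)
        (fun j => (Function.update u i (u i + v) j).2))) _ (fun _ => rfl), sum_Q]
    have e1 : ∀ v : Q, (fun j => (Function.update u i (u i + v) j).1) =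
        (fun j => (u j).1) + Pi.single i v.1 := fun v => by
      funext j
      by_cases h : j = i
      · subst h; simp
      · simp [h]
    have e2 : ∀ v : Q, (fun j => (Function.update u i (u i + v) j).2) =
        (fun j => (u j).2) + Pi.single i v.2 := fun v => by
      funext j
      by_cases h : j = i
      · subst h; simp
      · simp [h]
    simp only [e1, e2, Pi.single_zero, add_zero, uv]
  constructor
  · intro h i a b
    exact (key i (fun j => (a j, b j))).symm.trans (h i _)
  · intro h i u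
    exact (key i u).trans (h i _ _)

/-- First reduction. -/
theorem card_LB (ζ : (ι → ZMod 2) → ZMod 2) :
    Nat.card {F : (ι → Q) → ZMod 2 //
      LB F ∧ LB ((fun u : ι → Q => ∑ i, (u i).1 + ζ (fun i => (u i).1)) + F)} =
    Nat.card {w : (ι → ZMod 2) → (ι → ZMod 2) → ZMod 2 //
      ∀ i a, RelF i (w a) (w (a + uv i)) ∧ (ζ a = ζ (a + uv i) → Ind i (w a))} := by
  symm
  refine Nat.card_congr (Equiv.subtypeEquiv
    { toFun := fun w u => ∑ i, (u i).1 + ∑ i, (u i).2 + w (fun i => (u i).1) (fun i => (u i).2)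
      invFun := fun F a b => ∑ i, a i + ∑ i, b i + F (fun i => (a i, b i))
      left_inv := fun w => by
        funext a b
        exact (add_assoc _ _ _).symm.trans (by rw [zadd_self, zero_add])
      right_inv := fun F => by
        funext u
        exact (add_assoc _ _ _).symm.trans (by rw [zadd_self, zero_add]) }
    (fun w => ?_))
  have h1 := LB_iff (fun a b => ∑ i, a i + ∑ i, b i + w a b)
  have h2 := LB_iff (fun a b => (∑ i, a i + ζ a) + (∑ i, a i + ∑ i, b i + w a b))
  have key : ∀ c c' p q r t z z' : ZMod 2,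
      (sg (c + c' + p) + sg (c + (c' + 1) + q) + sg (c + 1 + c' + r) +
          sg (c + 1 + (c' + 1) + t) = 0 ∧
        sg (c + z + (c + c' + p)) + sg (c + z + (c + (c' + 1) + q)) +
          sg (c + 1 + z' + (c + 1 + c' + r)) + sg (c + 1 + z' + (c + 1 + (c' + 1) + t)) = 0) ↔
      Rel p q r t ∧ (z = z' → q = p) := by decide
  refine Iff.trans ?_ (and_congr h1 h2).symm
  simp only [sum_add_uv, ← forall_and, key, RelF, Ind]
  refine forall₂_congr (fun i a => ?_)
  rw [forall_and]
  exact and_congr_right (fun _ => forall_comm)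

end Line

variable {J : Type} [DecidableEq J]

/-- The vertex with first half `x` and difference `d`. -/
def vert (x d : J → ZMod 2) : J × Bool → ZMod 2 := fun i => x i.1 + if i.2 then d i.1 else 0

theorem vert_true (x d : J → ZMod 2) (j : J) :
    vert x d + uv (j, true) = vert x (d + uv j) := by
  funext ⟨k, s⟩
  by_cases h : k = j <;> cases s <;> simp [vert, uv, h, add_assoc]

theorem vert_false (x d : J → ZMod 2) (j : J) :
    vert x d + uv (j, false) = vert (x + uv j) (d + uv j) := by
  funext ⟨k, s⟩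
  by_cases h : k = j <;> cases s <;> simp [vert, uv, h]
  generalize x j = p
  generalize d j = q
  revert p q
  decide

omit [DecidableEq J] in
theorem vert_bij : Function.Bijective (fun p : (J → ZMod 2) × (J → ZMod 2) => vert p.1 p.2) := by
  constructor
  · rintro ⟨x, d⟩ ⟨y, c⟩ h
    have h1 : x = y := funext fun j => by simpa [vert] using congrFun h (j, false)
    subst h1
    exact Prod.ext rfl (funext fun j => by simpa [vert] using congrFun h (j, true))
  · intro a
    refine ⟨(fun j => a (j, false), fun j => a (j, false) + a (j, true)), ?_⟩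
    funext ⟨k, s⟩
    cases s <;> simp [vert, ← add_assoc, zadd_self]

open Classical in
/-- The indicator of the doubled set. -/
noncomputable def zeta (Y : Set (J → ZMod 2)) (a : J × Bool → ZMod 2) : ZMod 2 :=
  if (∀ j, a (j, true) = a (j, false)) ∧ (fun j => a (j, false)) ∈ Y then 1 else 0

omit [DecidableEq J] in
theorem zeta_vert (Y : Set (J → ZMod 2)) (x d : J → ZMod 2) :
    zeta Y (vert x d) = 0 ↔ ¬ (d = 0 ∧ x ∈ Y) := by
  have e : ((∀ j, vert x d (j, true) = vert x d (j, false)) ∧ (fun j => vert x d (j, false)) ∈ Y) ↔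
      (d = 0 ∧ x ∈ Y) := by simp [vert, funext_iff]
  unfold zeta
  split_ifs with h
  · exact iff_of_false one_ne_zero (not_not.2 (e.1 h))
  · exact iff_of_true rfl (fun h' => h (e.2 h'))

/-- The local condition at a vertex. -/
def Good (Y : Set (J → ZMod 2)) (σ : (J → ZMod 2) → (J × Bool → ZMod 2) → ZMod 2)
    (x d : J → ZMod 2) (v : (J × Bool → ZMod 2) → ZMod 2) : Prop :=
  (d = 0 → v = σ x ∧ (x ∉ Y → ∀ i, Ind i v)) ∧
  (∀ j, d = uv j → RelF (j, true) v (σ x) ∧ RelF (j, false) v (σ (x + uv j))) ∧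
  (d ≠ 0 → ∀ i : J × Bool, d ≠ uv i.1 → Ind i v)

theorem cond_iff (Y : Set (J → ZMod 2)) (w : (J × Bool → ZMod 2) → (J × Bool → ZMod 2) → ZMod 2) :
    (∀ i a, RelF i (w a) (w (a + uv i)) ∧ (zeta Y a = zeta Y (a + uv i) → Ind i (w a))) ↔
    ∀ x d, Good Y (fun y => w (vert y 0)) x d (w (vert x d)) := by
  have z0 : ∀ x d : J → ZMod 2, d ≠ 0 → zeta Y (vert x d) = 0 :=
    fun x d h => (zeta_vert Y x d).2 (fun e => h e.1)
  have nb : ∀ (x d : J → ZMod 2) (i : J × Bool), ∃ y, vert x d + uv i = vert y (d + uv i.1) := by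
    rintro x d ⟨j, _ | _⟩
    · exact ⟨_, vert_false x d j⟩
    · exact ⟨_, vert_true x d j⟩
  constructor
  · intro h x d
    refine ⟨?_, ?_, fun hd i hi => (h i _).2 ?_⟩
    · rintro rfl
      refine ⟨rfl, fun hx i => (h i _).2 ?_⟩
      obtain ⟨y, hy⟩ := nb x 0 i
      rw [hy, z0 y _ (by rw [zero_add]; exact uv_ne _), zeta_vert]
      exact fun e => hx e.2
    · rintro j rfl
      have h1 := (h (j, true) (vert x (uv j))).1
      have h2 := (h (j, false) (vert x (uv j))).1
      rw [vert_true, vadd_self] at h1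
      rw [vert_false, vadd_self] at h2
      exact ⟨h1, h2⟩
    · obtain ⟨y, hy⟩ := nb x d i
      rw [hy, z0 x d hd, z0 y _ (fun e => hi (add_eq_zero'.1 e))]
  · intro h i a
    obtain ⟨⟨x, d⟩, rfl⟩ := vert_bij.2 a
    dsimp only
    by_cases h0 : d = 0
    · subst h0
      constructor
      · rcases i with ⟨j, _ | _⟩
        · have := ((h (x + uv j) (uv j)).2.1 j rfl).2
          rw [vadd_cancel] at this
          rw [vert_false, zero_add]
          exact this.symm
        · rw [vert_true, zero_add]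
          exact ((h x (uv j)).2.1 j rfl).1.symm
      · intro e
        obtain ⟨y, hy⟩ := nb x 0 i
        rw [hy, z0 y _ (by rw [zero_add]; exact uv_ne _), zeta_vert] at e
        exact ((h x 0).1 rfl).2 (fun hx => e ⟨rfl, hx⟩) i
    · by_cases h1 : d = uv i.1
      · have hr : ∃ y, vert x d + uv i = vert y 0 ∧ RelF i (w (vert x d)) (w (vert y 0)) := by
          rcases i with ⟨j, _ | _⟩
          · exact ⟨_, by rw [vert_false, h1, vadd_self], ((h x d).2.1 j h1).2⟩
          · exact ⟨_, by rw [vert_true, h1, vadd_self], ((h x d).2.1 j h1).1⟩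
        obtain ⟨y, hy, hr⟩ := hr
        rw [hy]
        refine ⟨hr, fun e => hr.ind (((h y 0).1 rfl).2 (fun hy => ?_) i)⟩
        rw [z0 x d h0, eq_comm, zeta_vert] at e
        exact e ⟨rfl, hy⟩
      · obtain ⟨y, hy⟩ := nb x d i
        have h2 := (h x d).2.2 h0 i h1
        rw [hy]
        refine ⟨h2.relF ((h y _).2.2 (fun e => h1 (add_eq_zero'.1 e)) i (fun e => h0 ?_)),
          fun _ => h2⟩
        simpa using e

/-- Summation over the values on a set of distinguished vertices. -/
theorem card_fibres {α β S : Type} [Fintype α] [Fintype β] [Fintype S] [DecidableEq β]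
    (δ : β → α) (P : (β → S) → α → S → Prop) (hP : ∀ σ y v, P σ (δ y) v → v = σ y) :
    Nat.card {w : α → S // ∀ a, P (fun y => w (δ y)) a (w a)} =
      ∑ σ : β → S, ∏ a, Nat.card {v // P σ a v} := by
  classical
  simp only [← Nat.card_pi]
  rw [← Nat.card_sigma]
  symm
  have key : ∀ z : Σ σ : β → S, ∀ a, {v // P σ a v}, (fun y => (z.2 (δ y)).1) = z.1 :=
    fun z => funext fun y => hP z.1 y _ (z.2 (δ y)).2
  refine Nat.card_eq_of_bijective (fun z => ⟨fun a => (z.2 a).1, fun a => by
    rw [key z]; exact (z.2 a).2⟩) ⟨?_, fun w => ⟨⟨_, fun a => ⟨w.1 a, w.2 a⟩⟩, rfl⟩⟩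
  rintro ⟨σ, g⟩ ⟨σ', g'⟩ h
  have h1 : ∀ a, (g a).1 = (g' a).1 := congrFun (congrArg Subtype.val h)
  obtain rfl : σ = σ' := (key ⟨σ, g⟩).symm.trans ((funext fun y => h1 _).trans (key ⟨σ', g'⟩))
  exact congrArg _ (funext fun a => Subtype.ext (h1 a))

/-- The number of functions at a vertex next to the diagonal. -/
noncomputable def dn (j : J) (s s' : (J × Bool → ZMod 2) → ZMod 2) : ℕ :=
  Nat.card {v : (J × Bool → ZMod 2) → ZMod 2 //
    (∀ i : J × Bool, i.1 ≠ j → Ind i v) ∧ RelF (j, true) v s ∧ RelF (j, false) v s'}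

variable [Fintype J]

theorem card_const {ι : Type} [Fintype ι] [DecidableEq ι] :
    Nat.card {v : (ι → ZMod 2) → ZMod 2 // ∀ i, Ind i v} = 2 := by
  refine Eq.trans (Eq.symm ?_) (Nat.card_zmod 2)
  refine Nat.card_eq_of_bijective (fun c => ⟨fun _ => c, fun _ _ => rfl⟩)
    ⟨fun c c' h => congrFun (congrArg Subtype.val h) 0, fun v => ⟨v.1 0, Subtype.ext ?_⟩⟩
  exact funext fun b => eq_of_ind _ _ (fun i _ => v.2 i)

open Classical in
theorem prod_good (Y : Set (J → ZMod 2)) (σ : (J → ZMod 2) → (J × Bool → ZMod 2) → ZMod 2)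
    (x : J → ZMod 2) :
    ∏ d, Nat.card {v // Good Y σ x d v} =
      (if x ∈ Y ∨ ∀ i, Ind i (σ x) then 1 else 0) * (∏ j, dn j (σ x) (σ (x + uv j))) *
        2 ^ (insert 0 (univ.image (uv : J → J → ZMod 2)))ᶜ.card := by
  rw [← Finset.prod_mul_prod_compl (insert 0 (univ.image (uv : J → J → ZMod 2))),
    Finset.prod_insert (by simpa using fun j => uv_ne j),
    Finset.prod_image (fun i _ j _ h => uv_inj h)]
  congr 2
  · have e : ∀ v, Good Y σ x 0 v ↔ v = σ x ∧ (x ∈ Y ∨ ∀ i, Ind i (σ x)) := fun v =>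
      ⟨fun h => ⟨(h.1 rfl).1, or_iff_not_imp_left.2 ((h.1 rfl).1 ▸ (h.1 rfl).2)⟩,
        fun h => ⟨fun _ => ⟨h.1, fun hx => h.1 ▸ h.2.resolve_left hx⟩,
          fun j e => (uv_ne j e.symm).elim, fun e => (e rfl).elim⟩⟩
    simp only [e]
    split_ifs with h
    · simp only [eq_true h, and_true]
      simp
    · simp only [eq_false h, and_false]
      simp
  · refine Finset.prod_congr rfl (fun j _ => ?_)
    refine Nat.card_congr (Equiv.subtypeEquivRight fun v => ⟨fun h => ⟨fun i hi =>
      h.2.2 (uv_ne j) i (fun e => hi (uv_inj e).symm), h.2.1 j rfl⟩, fun h =>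
      ⟨fun e => (uv_ne j e).elim, fun k e => uv_inj e ▸ h.2,
        fun _ i hi => h.1 i (fun e => hi (e ▸ rfl))⟩⟩)
  · refine Finset.prod_eq_pow_card (fun d hd => ?_)
    simp only [mem_compl, mem_insert, mem_image, mem_univ, true_and, not_or, not_exists] at hd
    refine Eq.trans ?_ (card_const (ι := J × Bool))
    exact Nat.card_congr (Equiv.subtypeEquivRight fun v =>
      ⟨fun h i => h.2.2 hd.1 i (fun e => hd.2 _ e.symm), fun h =>
        ⟨fun e => (hd.1 e).elim, fun j e => (hd.2 j e.symm).elim, fun _ i _ => h i⟩⟩)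

open Classical in
/-- Second reduction. -/
theorem card_cond (Y : Set (J → ZMod 2)) :
    Nat.card {w : (J × Bool → ZMod 2) → (J × Bool → ZMod 2) → ZMod 2 //
      ∀ i a, RelF i (w a) (w (a + uv i)) ∧ (zeta Y a = zeta Y (a + uv i) → Ind i (w a))} =
    ∑ σ : (J → ZMod 2) → (J × Bool → ZMod 2) → ZMod 2, ∏ x,
      ((if x ∈ Y ∨ ∀ i, Ind i (σ x) then 1 else 0) * (∏ j, dn j (σ x) (σ (x + uv j))) *
        2 ^ (insert 0 (univ.image (uv : J → J → ZMod 2)))ᶜ.card) := by
  have inj : ∀ {x d y c : J → ZMod 2}, vert x d = vert y c → x = y ∧ d = c :=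
    fun {x d y c} h => Prod.ext_iff.1 (vert_bij.1 (a₁ := (x, d)) (a₂ := (y, c)) h)
  have h := card_fibres (fun y : J → ZMod 2 => vert y 0)
    (fun σ a v => ∀ x d, a = vert x d → Good Y σ x d v)
    (fun σ y v h => ((h y 0 rfl).1 rfl).1)
  rw [Nat.card_congr (Equiv.subtypeEquivRight (fun w => (cond_iff Y w).trans
    (show _ ↔ ∀ a x d, a = vert x d → Good Y (fun y => w (vert y 0)) x d (w a) from
      ⟨fun h a x d e => e ▸ h x d, fun h x d => h _ x d rfl⟩))), h]
  refine Finset.sum_congr rfl (fun σ _ => ?_)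
  rw [← vert_bij.prod_comp, Fintype.prod_prod_type]
  refine Finset.prod_congr rfl (fun x _ => ?_)
  rw [← prod_good]
  refine Finset.prod_congr rfl (fun d _ => Nat.card_congr (Equiv.subtypeEquivRight fun v =>
    ⟨fun h => h x d rfl, fun h y c e => ?_⟩))
  obtain ⟨rfl, rfl⟩ := inj e
  exact h

end Pool.Agent.Lib.MP_b90951_co.Five
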