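import Pool.Agent.Lib.MP_b90951_co.M5Sum

/-!
A graph of degree at most three whose perfect matchings correspond to the permutations supported on
a zero-one matrix: one path for every row, one path for every column, and connectors.
-/

namespace Pool.Agent.Lib.MP_b90951_co.Five

open Finset Hard

/-- Matchings as involutions on the valid vertices. -/
def IsInv {T : Type} (V : T → Prop) (Adj : T → T → Prop) (m : T → T) : Prop :=
  (∀ t, ¬ V t → m t = t) ∧ ∀ t, V t → V (m t) ∧ Adj t (m t) ∧ m (m t) = t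

/-- Transport of matchings along an embedding into the cube. -/
theorem card_IsPM {J T : Type} [DecidableEq J] (V : T → Prop) (Adj : T → T → Prop)
    (emb : T → J → ZMod 2) (hinj : ∀ t t', V t → V t' → emb t = emb t' → t = t')
    (hadj : ∀ t t', V t → V t' → (Adj t t' ↔ ∃ j, emb t' = emb t + uv j)) :
    Nat.card {c // IsPM (emb '' {t | V t}) c} = Nat.card {m // IsInv V Adj m} := by
  classical
  have key : ∀ c : {c // IsPM (emb '' {t | V t}) c}, ∃ m : {m // IsInv V Adj m},
      ∀ t, V t → ∀ j, c.1 (emb t) = some j → emb (m.1 t) = emb t + uv j := by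
    rintro ⟨c, h1, h2⟩
    have h3 : ∀ t, ∃ t', (¬ V t → t' = t) ∧
        (V t → V t' ∧ ∃ j, c (emb t) = some j ∧ emb t' = emb t + uv j) := by
      intro t
      by_cases hV : V t
      · obtain ⟨j, hj⟩ := Option.ne_none_iff_exists'.1 (fun e => (h1 _).1 e ⟨t, hV, rfl⟩)
        obtain ⟨t', a1, a2⟩ : emb t + uv j ∈ emb '' {t | V t} := by
          by_contra e
          exact absurd (((h1 _).2 e).symm.trans (h2 _ _ hj)) (by simp)
        exact ⟨t', fun e => (e hV).elim, fun _ => ⟨a1, j, hj, a2⟩⟩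
      · exact ⟨t, fun _ => rfl, fun e => (hV e).elim⟩
    choose m hm hm' using h3
    refine ⟨⟨m, hm, fun t hV => ?_⟩, fun t hV j hj => ?_⟩
    · obtain ⟨a1, j, a2, a3⟩ := hm' t hV
      obtain ⟨b1, k, b2, b3⟩ := hm' _ a1
      refine ⟨a1, (hadj _ _ hV a1).2 ⟨j, a3⟩, hinj _ _ b1 hV ?_⟩
      rw [a3, h2 _ _ a2] at b2
      rw [b3, a3, ← Option.some.inj b2, vadd_cancel]
    · obtain ⟨-, k, a2, a3⟩ := hm' t hV
      rw [Option.some.inj (hj.symm.trans a2)]
      exact a3
  choose f hf using key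
  refine Nat.card_eq_of_bijective f ⟨fun c c' h => Subtype.ext (funext fun x => ?_), ?_⟩
  · by_cases hx : x ∈ emb '' {t | V t}
    · obtain ⟨j, hj⟩ := Option.ne_none_iff_exists'.1 (fun e => (c.2.1 _).1 e hx)
      obtain ⟨k, hk⟩ := Option.ne_none_iff_exists'.1 (fun e => (c'.2.1 _).1 e hx)
      obtain ⟨t, hV, rfl⟩ := hx
      have e := (hf c t hV j hj).symm.trans (h ▸ hf c' t hV k hk)
      rw [hj, hk, uv_inj (add_left_cancel e)]
    · rw [(c.2.1 _).2 hx, (c'.2.1 _).2 hx]
  · rintro ⟨m, h1, h2⟩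
    have h3 : ∀ x, ∃ o : Option J, (o = none ↔ x ∉ emb '' {t | V t}) ∧
        ∀ t, V t → emb t = x → ∀ j, (o = some j ↔ emb (m t) = x + uv j) := by
      intro x
      by_cases hx : x ∈ emb '' {t | V t}
      · obtain ⟨t, hV, rfl⟩ := hx
        obtain ⟨j, hj⟩ := (hadj _ _ hV (h2 t hV).1).1 (h2 t hV).2.1
        refine ⟨some j, iff_of_false (by simp) (not_not.2 ⟨t, hV, rfl⟩), fun t' hV' e k => ?_⟩
        rw [hinj _ _ hV' hV e, hj]
        exact ⟨fun e => by rw [Option.some.inj e], fun e => congrArg _ (uv_inj (add_left_cancel e))⟩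
      · exact ⟨none, iff_of_true rfl hx, fun t hV e => (hx ⟨t, hV, e⟩).elim⟩
    choose c hc hc' using h3
    have hPM : IsPM (emb '' {t | V t}) c := by
      refine ⟨hc, fun x j hj => ?_⟩
      obtain ⟨t, hV, rfl⟩ : x ∈ emb '' {t | V t} := by
        by_contra e
        exact absurd (((hc _).2 e).symm.trans hj) (by simp)
      refine (hc' _ (m t) (h2 t hV).1 ((hc' _ t hV rfl j).1 hj) j).2 ?_
      rw [(h2 t hV).2.2, vadd_cancel]
    refine ⟨⟨c, hPM⟩, Subtype.ext (funext fun t => ?_)⟩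
    by_cases hV : V t
    · obtain ⟨j, hj⟩ := Option.ne_none_iff_exists'.1 (fun e => (hc _).1 e ⟨t, hV, rfl⟩)
      exact hinj _ _ ((f _).2.2 t hV).1 (h2 t hV).1
        ((hf ⟨c, hPM⟩ t hV j hj).trans ((hc' _ t hV rfl j).1 hj).symm)
    · exact ((f _).2.1 t hV).trans (h1 t hV).symm

/-- Ports, middle vertices and connectors; the first argument tells rows from columns. -/
inductive Vx : Type
  | P (s : Bool) (a b : ℕ) : Vx
  | M (s : Bool) (a b : ℕ) : Vx
  | C (s : Bool) (a b : ℕ) : Vx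

open Vx

/-- The matrix or its transpose. -/
def mt (A : ℕ → ℕ → Bool) (s : Bool) (a b : ℕ) : Bool := if s then A b a else A a b

theorem mt_not (A : ℕ → ℕ → Bool) (s : Bool) (a b : ℕ) : mt A (!s) b a = mt A s a b := by
  cases s <;> rfl

/-- The vertices that are present. -/
def Val (N : ℕ) (A : ℕ → ℕ → Bool) : Vx → Prop
  | P _ a b => a < N ∧ b < N
  | M _ a b => a < N ∧ b + 1 < N
  | C s a b => a < N ∧ b < N ∧ mt A s a b = true

/-- The edges. -/
def Adj : Vx → Vx → Prop
  | P s a b, t => t = M s a b ∨ (0 < b ∧ t = M s a (b - 1)) ∨ t = C s a b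
  | M s a b, t => t = P s a b ∨ t = P s a (b + 1)
  | C s a b, t => t = P s a b ∨ t = C (!s) b a

/-- The matching with prescribed exits. -/
def mk0 (p : Bool → ℕ → ℕ) : Vx → Vx
  | P s a b => if b = p s a then C s a b else if b < p s a then M s a b else M s a (b - 1)
  | M s a b => if b < p s a then P s a b else P s a (b + 1)
  | C s a b => if b = p s a then P s a b else C (!s) b a

/-- Admissible exits. -/
def Exit (N : ℕ) (A : ℕ → ℕ → Bool) (p : Bool → ℕ → ℕ) : Prop :=
  ∀ s a, a < N → p s a < N ∧ mt A s a (p s a) = true ∧ p (!s) (p s a) = a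

variable {N : ℕ} {A : ℕ → ℕ → Bool}

theorem mk0_spec {p : Bool → ℕ → ℕ} (hp : Exit N A p) (t : Vx) (h : Val N A t) :
    Val N A (mk0 p t) ∧ Adj t (mk0 p t) ∧ mk0 p (mk0 p t) = t := by
  rcases t with ⟨s, a, b⟩ | ⟨s, a, b⟩ | ⟨s, a, b⟩
  · obtain ⟨h1, h2, -⟩ := hp s a h.1
    obtain ⟨h3, h4⟩ := h
    by_cases e : b = p s a
    · simp only [mk0, if_pos e, Val, Adj]
      exact ⟨⟨h3, h4, e ▸ h2⟩, by simp, trivial⟩
    · by_cases e' : b < p s a
      · simp only [mk0, if_neg e, if_pos e', Val, Adj]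
        exact ⟨⟨h3, by omega⟩, by simp, trivial⟩
      · simp only [mk0, if_neg e, if_neg e', Val, Adj, if_neg (show ¬ b - 1 < p s a by omega)]
        exact ⟨⟨h3, by omega⟩, Or.inr (Or.inl ⟨by omega, trivial⟩), by congr 1; omega⟩
  · obtain ⟨h3, h4⟩ := h
    by_cases e : b < p s a
    · simp only [mk0, if_pos e, Val, Adj, if_neg e.ne]
      exact ⟨⟨h3, by omega⟩, by simp, trivial⟩
    · simp only [mk0, if_neg e, Val, Adj, if_neg (show ¬ b + 1 = p s a by omega),
        if_neg (show ¬ b + 1 < p s a by omega)]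
      exact ⟨⟨h3, h4⟩, by simp, rfl⟩
  · obtain ⟨h3, h4, h5⟩ := h
    by_cases e : b = p s a
    · simp only [mk0, if_pos e, Val, Adj]
      exact ⟨⟨h3, h4⟩, by simp, trivial⟩
    · have e' : ¬ a = p (!s) b := fun k => e (by
        have := (hp (!s) b h4).2.2
        rw [Bool.not_not, ← k] at this
        exact this.symm)
      simp only [mk0, if_neg e, Val, Adj, if_neg e', Bool.not_not, mt_not]
      exact ⟨⟨h4, h3, h5⟩, by simp, trivial⟩

theorem path {m : Vx → Vx} (hm : IsInv (Val N A) Adj m) (s : Bool) (a : ℕ) (ha : a < N) :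
    ∃ b0, b0 < N ∧ m (P s a b0) = C s a b0 ∧ (∀ b < b0, m (M s a b) = P s a b) ∧
      ∀ b, b0 ≤ b → b + 1 < N → m (M s a b) = P s a (b + 1) := by
  classical
  have hex : ∃ b, ¬ (b + 1 < N ∧ m (M s a b) = P s a b) := ⟨N, fun h => by omega⟩
  have h1 := Nat.find_spec hex
  have h2 : ∀ b < Nat.find hex, b + 1 < N ∧ m (M s a b) = P s a b :=
    fun b hb => not_not.1 (Nat.find_min hex hb)
  generalize Nat.find hex = b0 at h1 h2
  have h3 : b0 < N := by
    rcases b0 with _ | b0
    · omega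
    · exact (h2 b0 (by omega)).1
  refine ⟨b0, h3, ?_, fun b hb => (h2 b hb).2, fun b hb => ?_⟩
  · obtain ⟨a1, a2, a3⟩ := hm.2 (P s a b0) ⟨ha, h3⟩
    rcases a2 with e | ⟨e0, e⟩ | e
    · rw [e] at a1 a3
      exact (h1 ⟨a1.2, a3⟩).elim
    · rw [e, (h2 _ (by omega)).2] at a3
      simp only [P.injEq] at a3
      omega
    · exact e
  · induction b, hb using Nat.le_induction with
    | base => exact fun hb => (hm.2 (M s a b0) ⟨ha, hb⟩).2.1.resolve_left (fun e => h1 ⟨hb, e⟩)
    | succ b _ ih =>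
      refine fun hb => (hm.2 (M s a (b + 1)) ⟨ha, hb⟩).2.1.resolve_left (fun e => ?_)
      have a1 := (hm.2 (M s a (b + 1)) ⟨ha, hb⟩).2.2
      have a2 := (hm.2 (M s a b) ⟨ha, by omega⟩).2.2
      rw [e] at a1
      rw [ih (by omega), a1] at a2
      simp at a2

theorem exists_exit {m : Vx → Vx} (hm : IsInv (Val N A) Adj m) :
    ∃ p, Exit N A p ∧ ∀ t, Val N A t → m t = mk0 p t := by
  choose! p h1 h2 h3 h4 using path hm
  have hP : ∀ s a b, a < N → b < N → m (P s a b) = mk0 p (P s a b) := by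
    intro s a b ha hb
    simp only [mk0]
    split_ifs with e e'
    · rw [e, h2 s a ha]
    · rw [← h3 s a ha b e', (hm.2 (M s a b) ⟨ha, by have := h1 s a ha; omega⟩).2.2]
    · have := h4 s a ha (b - 1) (by omega) (by omega)
      rw [show b - 1 + 1 = b by omega] at this
      rw [← this, (hm.2 (M s a (b - 1)) ⟨ha, by omega⟩).2.2]
  have hC : ∀ s a b, Val N A (C s a b) → m (C s a b) = P s a b → b = p s a := by
    intro s a b h e
    have := (hm.2 _ h).2.2
    rw [e, hP s a b h.1 h.2.1] at this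
    by_contra k
    simp only [mk0, if_neg k] at this
    split_ifs at this
  have hC' : ∀ s a, a < N → m (C s a (p s a)) = P s a (p s a) := fun s a ha => by
    rw [← h2 s a ha, (hm.2 (P s a _) ⟨ha, h1 s a ha⟩).2.2]
  refine ⟨p, fun s a ha => ?_, ?_⟩
  · have a1 := (hm.2 (P s a _) ⟨ha, h1 s a ha⟩).1
    rw [h2 s a ha] at a1
    have a2 : Val N A (C (!s) (p s a) a) := ⟨a1.2.1, ha, by rw [mt_not]; exact a1.2.2⟩
    refine ⟨a1.2.1, a1.2.2, (hC _ _ _ a2 ((hm.2 _ a2).2.1.resolve_right (fun e => ?_))).symm⟩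
    have := (hm.2 _ a2).2.2
    rw [e, Bool.not_not, hC' s a ha] at this
    simp at this
  · rintro (⟨s, a, b⟩ | ⟨s, a, b⟩ | ⟨s, a, b⟩) h
    · exact hP s a b h.1 h.2
    · simp only [mk0]
      split_ifs with e
      · exact h3 s a h.1 b e
      · exact h4 s a h.1 b (by omega) h.2
    · simp only [mk0]
      split_ifs with e
      · rw [e, hC' s a h.1]
      · exact (hm.2 _ h).2.1.resolve_left (fun k => e (hC s a b h k))

/-- The exits given by a permutation. -/
def exitOf (π : Equiv.Perm (Fin N)) (s : Bool) (a : ℕ) : ℕ :=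
  if h : a < N then (if s then π ⟨a, h⟩ else π.symm ⟨a, h⟩ : Fin N) else 0

theorem card_IsInv (N : ℕ) (A : ℕ → ℕ → Bool) : Nat.card {m // IsInv (Val N A) Adj m} =
    Nat.card {π : Equiv.Perm (Fin N) // ∀ i : Fin N, A (π i) i = true} := by
  classical
  have hE : ∀ π : {π : Equiv.Perm (Fin N) // ∀ i : Fin N, A (π i) i = true},
      Exit N A (exitOf π.1) := by
    rintro ⟨π, h⟩ (_ | _) a ha
    · have := h (π.symm ⟨a, ha⟩)
      rw [Equiv.apply_symm_apply] at this
      simpa [exitOf, ha, mt] using this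
    · simpa [exitOf, ha, mt] using h ⟨a, ha⟩
  symm
  refine Nat.card_eq_of_bijective (fun π => ⟨fun t => if Val N A t then mk0 (exitOf π.1) t else t,
    fun t h => if_neg h, fun t h => ?_⟩) ⟨fun π π' h => ?_, ?_⟩
  · have := mk0_spec (hE π) t h
    simp only [if_pos h, if_pos this.1]
    exact this
  · refine Subtype.ext (Equiv.ext fun i => Fin.ext ?_)
    have hV : Val N A (P true i (π.1 i)) := ⟨i.2, (π.1 i).2⟩
    have e := congrFun (congrArg Subtype.val h) (P true i (π.1 i))
    simp only [if_pos hV, mk0, exitOf, dif_pos i.2, if_true] at e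
    by_contra k
    rw [if_neg k] at e
    split_ifs at e
  · rintro ⟨m, hm⟩
    obtain ⟨p, h1, h2⟩ := exists_exit hm
    let π : Equiv.Perm (Fin N) :=
      { toFun := fun i => ⟨p true i, (h1 _ _ i.2).1⟩
        invFun := fun i => ⟨p false i, (h1 _ _ i.2).1⟩
        left_inv := fun i => Fin.ext (h1 true i i.2).2.2
        right_inv := fun i => Fin.ext (h1 false i i.2).2.2 }
    have e : ∀ s a, a < N → exitOf π s a = p s a := by
      rintro (_ | _) a ha <;> simp only [exitOf, dif_pos ha] <;> rfl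
    refine ⟨⟨π, fun i => (h1 true i i.2).2.1⟩, Subtype.ext (funext fun t => ?_)⟩
    dsimp only
    split_ifs with h
    · rw [h2 t h]
      rcases t with ⟨s, a, b⟩ | ⟨s, a, b⟩ | ⟨s, a, b⟩ <;> simp only [mk0, e s a h.1]
    · exact (hm.1 t h).symm

theorem card_perm (N : ℕ) (A : Fin N → Fin N → Bool) :
    Nat.card {π : Equiv.Perm (Fin N) // ∀ i : Fin N, A (π i) i = true} =
      (Matrix.of fun i j => (A i j).toNat).permanent := by
  rw [Nat.card_eq_fintype_card, Fintype.card_subtype, Finset.card_filter, Matrix.permanent]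
  refine Finset.sum_congr rfl (fun π _ => ?_)
  split_ifs with h
  · simp [h]
  · obtain ⟨i, hi⟩ := not_forall.1 h
    exact (Finset.prod_eq_zero (mem_univ i) (by simp [hi])).symm

end Pool.Agent.Lib.MP_b90951_co.Five
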