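import Mathlib
import Pool.Agent.Lib.MP_b90951_co.Defs
import Pool.Agent.Shared.PolyTime.NPComplete
import Pool.Agent.Shared.PolyTime.Extra
import Pool.Agent.Shared.PolyTime.Int
import Pool.Agent.Shared.PolyTime.Decode

/-! Truth tables, and membership in NP of the language of sums of two bent functions. -/

namespace Pool.Agent.Lib.MP_b90951_co

open Pool.Agent.Shared.PolyTime N68a2faeb

/-- The vector of the first `n` binary digits of `t`. -/
def bitVec (n t : ℕ) : Fin n → ZMod 2 := fun i => if t.testBit i then 1 else 0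

/-- The truth table: entry number `t` is the value at the vector of binary digits of `t`. -/
def table {n : ℕ} (ψ : BoolFun n) : List Bool :=
  (List.range (2 ^ n)).map (fun t => decide (ψ (bitVec n t) = 1))

open Classical in
/-- The language of the truth tables of the sums of two bent functions. -/
noncomputable def sumLang : N68a2faeb.DecisionProblem := fun w =>
  decide (∃ n, Even n ∧ 2 ≤ n ∧ ∃ ψ : BoolFun n, ψ ∈ BentSums n ∧ table ψ = w)

theorem bitVec_inj {n s t : ℕ} (hs : s < 2 ^ n) (ht : t < 2 ^ n) (h : bitVec n s = bitVec n t) :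
    s = t := by
  refine Nat.eq_of_testBit_eq fun i => ?_
  by_cases hi : i < n
  · have := congrFun h ⟨i, hi⟩
    simp only [bitVec] at this
    revert this
    cases s.testBit i <;> cases t.testBit i <;> decide
  · have h2 : 2 ^ n ≤ 2 ^ i := Nat.pow_le_pow_right (by norm_num) (not_lt.1 hi)
    rw [Nat.testBit_lt_two_pow (hs.trans_le h2), Nat.testBit_lt_two_pow (ht.trans_le h2)]

theorem bitVec_bij (n : ℕ) : Function.Bijective fun t : Fin (2 ^ n) => bitVec n t :=
  (Fintype.bijective_iff_injective_and_card _).2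
    ⟨fun s t h => Fin.ext (bitVec_inj s.2 t.2 h), by simp⟩

theorem bitVec_surj {n : ℕ} (x : Fin n → ZMod 2) : ∃ t < 2 ^ n, bitVec n t = x := by
  obtain ⟨t, ht⟩ := (bitVec_bij n).2 x
  exact ⟨t, t.2, ht⟩

theorem length_table {n : ℕ} (ψ : BoolFun n) : (table ψ).length = 2 ^ n := by
  simp [table]

theorem getD_table {n : ℕ} (ψ : BoolFun n) {t : ℕ} (ht : t < 2 ^ n) :
    (table ψ).getD t false = decide (ψ (bitVec n t) = 1) := by
  simp [table, List.getD_eq_getElem?_getD, List.getElem?_range ht]

theorem table_inj_dim {n n' : ℕ} {ψ : BoolFun n} {ψ' : BoolFun n'} (h : table ψ = table ψ') :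
    n = n' := by
  have := congrArg List.length h
  rw [length_table, length_table] at this
  exact Nat.pow_right_injective le_rfl this

theorem table_inj {n : ℕ} {ψ ψ' : BoolFun n} (h : table ψ = table ψ') : ψ = ψ' := by
  funext x
  obtain ⟨t, ht, rfl⟩ := bitVec_surj x
  have h1 := getD_table ψ ht
  rw [h, getD_table ψ' ht] at h1
  revert h1
  generalize ψ (bitVec n t) = a
  generalize ψ' (bitVec n t) = b
  revert a b
  decide

theorem sumLang_table {n : ℕ} (hn : Even n) (h2 : 2 ≤ n) (ψ : BoolFun n) :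
    sumLang (table ψ) = true ↔ ψ ∈ BentSums n := by
  simp only [sumLang, decide_eq_true_eq]
  refine ⟨fun ⟨n', _, _, ψ', h, e⟩ => ?_, fun h => ⟨n, hn, h2, ψ, h, rfl⟩⟩
  obtain rfl := table_inj_dim e
  exact table_inj e ▸ h

namespace NPTable

/-- every list of bits describes a function -/
theorem exists_fun (n : ℕ) (g : ℕ → Bool) :
    ∃ f : BoolFun n, ∀ t < 2 ^ n, g t = decide (f (bitVec n t) = 1) := by
  choose r hr hr' using bitVec_surj (n := n)
  refine ⟨fun x => if g (r x) then 1 else 0, fun t ht => ?_⟩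
  simp only [bitVec_inj (hr (bitVec n t)) ht (hr' _)]
  cases g t <;> decide

/-- the inner product of two digit vectors -/
def dotB (n a t : ℕ) : Bool :=
  decide (Odd (∑ i ∈ Finset.range n, (a.testBit i && t.testBit i).toNat))

/-- a Walsh coefficient of the function with table `w` -/
def wsum (n L : ℕ) (w : List Bool) (a : ℕ) : ℤ :=
  ∑ t ∈ Finset.range L, if xor (w.getD t false) (dotB n a t) = true then -1 else 1

/-- the test for bentness -/
def bentB (n L : ℕ) (w : List Bool) : Bool :=
  decide (∀ a ∈ Finset.range L, |wsum n L w a| = 2 ^ (n / 2))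

/-- the sum of two tables -/
def xl (x w : List Bool) : List Bool :=
  (List.range x.length).map fun t => xor (w.getD t false) (x.getD t false)

/-- the verifier -/
def ver (z : List Bool × List Bool) : Bool :=
  decide (Even z.1.length.log2) && decide (2 ≤ z.1.length.log2) &&
    decide (z.1.length = 2 ^ z.1.length.log2) && bentB z.1.length.log2 z.1.length z.2 &&
    bentB z.1.length.log2 z.1.length (xl z.1 z.2)

theorem ver_poly : IsPolyTime ver := by
  unfold ver bentB wsum dotB xl
  fun_prop

theorem dotB_eq (n a t : ℕ) : dotB n a t = decide (∑ i, bitVec n a i * bitVec n t i = 1) := by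
  have : ∑ i, bitVec n a i * bitVec n t i
      = ((∑ i ∈ Finset.range n, (a.testBit i && t.testBit i).toNat : ℕ) : ZMod 2) := by
    rw [Nat.cast_sum, ← Fin.sum_univ_eq_sum_range
      (fun i => (((a.testBit i && t.testBit i).toNat : ℕ) : ZMod 2))]
    refine Finset.sum_congr rfl fun i _ => ?_
    simp only [bitVec]
    cases a.testBit i <;> cases t.testBit i <;> simp
  rw [this, dotB]
  exact decide_eq_decide.2 ZMod.natCast_eq_one_iff_odd.symm

theorem wsum_eq {n : ℕ} {f : BoolFun n} {w : List Bool}
    (h : ∀ t < 2 ^ n, w.getD t false = decide (f (bitVec n t) = 1)) (a : ℕ) :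
    wsum n (2 ^ n) w a = walsh f (bitVec n a) := by
  rw [walsh, ← (bitVec_bij n).sum_comp, wsum, ← Fin.sum_univ_eq_sum_range
    (fun t => if xor (w.getD t false) (dotB n a t) = true then (-1 : ℤ) else 1)]
  refine Finset.sum_congr rfl fun t _ => ?_
  rw [h t t.2, dotB_eq]
  generalize f (bitVec n t) = u
  generalize ∑ i, bitVec n a i * bitVec n t i = v
  revert u v
  decide

theorem bentB_iff {n : ℕ} {f : BoolFun n} {w : List Bool}
    (h : ∀ t < 2 ^ n, w.getD t false = decide (f (bitVec n t) = 1)) :
    bentB n (2 ^ n) w = true ↔ IsBent f := by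
  simp only [bentB, decide_eq_true_eq, wsum_eq h, Finset.mem_range]
  refine ⟨fun k a => ?_, fun k a _ => k _⟩
  obtain ⟨t, ht, rfl⟩ := bitVec_surj a
  exact k t ht

theorem getD_xl {n : ℕ} {f ψ : BoolFun n} {x w : List Bool} (hx : x.length = 2 ^ n)
    (h1 : ∀ t < 2 ^ n, w.getD t false = decide (f (bitVec n t) = 1))
    (h2 : ∀ t < 2 ^ n, x.getD t false = decide (ψ (bitVec n t) = 1)) :
    ∀ t < 2 ^ n, (xl x w).getD t false = decide ((f + ψ) (bitVec n t) = 1) := by
  intro t ht
  have : (xl x w).getD t false = xor (w.getD t false) (x.getD t false) := by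
    rw [xl, List.getD_eq_getElem?_getD, List.getElem?_map, List.getElem?_range (hx ▸ ht)]
    rfl
  rw [this, h1 t ht, h2 t ht, Pi.add_apply]
  generalize f (bitVec n t) = u
  generalize ψ (bitVec n t) = v
  revert u v
  decide

theorem add_add {n : ℕ} (f h : BoolFun n) : f + (f + h) = h := by
  funext x
  rw [Pi.add_apply, Pi.add_apply, ← add_assoc, CharTwo.add_self_eq_zero, zero_add]

end NPTable

open NPTable in
theorem sumLang_mem_NP : sumLang ∈ N68a2faeb.NP := by
  refine ⟨Polynomial.X, ver, ver_poly, fun x => ?_⟩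
  simp only [sumLang, ver, decide_eq_true_eq, Bool.and_eq_true, Polynomial.eval_X]
  constructor
  · rintro ⟨n, hn, h2, _, ⟨f, h, hf, hh, rfl⟩, rfl⟩
    refine ⟨table f, by rw [length_table, length_table], ?_⟩
    rw [length_table, Nat.log2_two_pow]
    refine ⟨⟨⟨⟨hn, h2⟩, rfl⟩, (bentB_iff fun t ht => getD_table f ht).2 hf⟩, ?_⟩
    refine (bentB_iff (getD_xl (length_table _) (fun t ht => getD_table f ht)
      fun t ht => getD_table (f + h) ht)).2 ?_
    rwa [add_add]
  · rintro ⟨w, -, ⟨⟨⟨hn, h2⟩, hL⟩, b1⟩, b2⟩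
    generalize x.length.log2 = n at hn h2 hL b1 b2
    obtain ⟨f, hf⟩ := exists_fun n fun t => w.getD t false
    obtain ⟨ψ, hψ⟩ := exists_fun n fun t => x.getD t false
    rw [hL] at b1 b2
    refine ⟨n, hn, h2, ψ, ⟨f, f + ψ, (bentB_iff hf).1 b1, (bentB_iff (getD_xl hL hf hψ)).1 b2,
      (add_add f ψ).symm⟩, ?_⟩
    refine List.ext_getElem (by rw [length_table, hL]) fun t h1 h2 => ?_
    have ht : t < 2 ^ n := hL ▸ h2
    have e := (getD_table ψ ht).trans (hψ t ht).symm
    rwa [List.getD_eq_getElem _ _ h1, List.getD_eq_getElem _ _ h2] at e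

end Pool.Agent.Lib.MP_b90951_co
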