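import Pool.Agent.Lib.MP_b90951_co.NPCsp
import Pool.Agent.Lib.MP_b90951_co.NPTable
import Pool.Agent.Shared.PolyTime.BaseProblems

/-!
The reduction from monotone one-in-three satisfiability to sums of two bent functions.
-/

namespace Pool.Agent.Lib.MP_b90951_co.Hard

open Module Finset Pool.Agent.Shared.PolyTime N68a2faeb

/-- The list of all occurrences of variables. -/
def flatV (φ : List (ℕ × ℕ × ℕ)) : List ℕ := φ.flatMap (fun c => [c.1, c.2.1, c.2.2])

/-- The new index of a variable. -/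
def ix (φ : List (ℕ × ℕ × ℕ)) (v : ℕ) : ℕ := (flatV φ).idxOf v + 2

/-- The renamed clauses, padded by a trivial clause. -/
def clR (φ : List (ℕ × ℕ × ℕ)) (j : ℕ) : ℕ × ℕ × ℕ :=
  if j < φ.length then
    (ix φ (φ.getD j (0, 0, 0)).1, ix φ (φ.getD j (0, 0, 0)).2.1, ix φ (φ.getD j (0, 0, 0)).2.2)
  else (1, 0, 0)

/-- The number of variable indices. -/
def nvR (φ : List (ℕ × ℕ × ℕ)) : ℕ := 3 * φ.length + 3

/-- The number of bits of a vertex. -/
def aR (φ : List (ℕ × ℕ × ℕ)) : ℕ := (8 * nvR φ).size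

/-- Half the number of variables of the Boolean function. -/
def mR (φ : List (ℕ × ℕ × ℕ)) : ℕ := 13 + 42 * aR φ

theorem length_flatV (φ : List (ℕ × ℕ × ℕ)) : (flatV φ).length = 3 * φ.length := by
  induction φ with
  | nil => rfl
  | cons c l ih =>
    simp only [flatV, List.flatMap_cons, List.length_append, List.length_cons,
      List.length_nil] at ih ⊢
    omega

theorem ix_lt (φ : List (ℕ × ℕ × ℕ)) (v : ℕ) : ix φ v < nvR φ := by
  have h : (flatV φ).idxOf v ≤ (flatV φ).length := List.idxOf_le_length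
  rw [length_flatV] at h
  unfold ix nvR
  omega

theorem clR_lt (φ : List (ℕ × ℕ × ℕ)) (j : ℕ) :
    (clR φ j).1 < nvR φ ∧ (clR φ j).2.1 < nvR φ ∧ (clR φ j).2.2 < nvR φ := by
  unfold clR
  split
  · exact ⟨ix_lt _ _, ix_lt _ _, ix_lt _ _⟩
  · unfold nvR
    dsimp only
    omega

theorem csp_red (φ : List (ℕ × ℕ × ℕ)) :
    (∃ x : ℕ → ZMod 2, x 0 = 0 ∧ x 1 = 1 ∧ ∀ j < nvR φ,
      x (clR φ j).1 + x (clR φ j).2.1 + x (clR φ j).2.2 = 1 ∧
        ¬ (x (clR φ j).1 = 1 ∧ x (clR φ j).2.1 = 1)) ↔ MonoOneIn3 φ := by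
  constructor
  · rintro ⟨x, -, -, hx⟩
    refine ⟨fun v => decide (x (ix φ v) = 1), fun c hc => ?_⟩
    obtain ⟨j, hj, rfl⟩ := List.getElem_of_mem hc
    have h := hx j (by unfold nvR; omega)
    rw [clR, if_pos hj, List.getD_eq_getElem _ _ hj] at h
    revert h
    dsimp only
    generalize x (ix φ φ[j].1) = a
    generalize x (ix φ φ[j].2.1) = b
    generalize x (ix φ φ[j].2.2) = c
    revert a b c
    decide
  · rintro ⟨ν, hν⟩
    set x : ℕ → ZMod 2 := fun i => if i = 0 then 0 else if i = 1 then 1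
      else if ν ((flatV φ).getD (i - 2) 0) then 1 else 0 with hx
    have hix : ∀ v ∈ flatV φ, x (ix φ v) = if ν v then 1 else 0 := by
      intro v hv
      simp only [hx, ix]
      rw [if_neg (by omega), if_neg (by omega), Nat.add_sub_cancel,
        List.getD_eq_getElem _ _ (List.idxOf_lt_length_of_mem hv), List.getElem_idxOf]
    refine ⟨x, rfl, rfl, fun j _ => ?_⟩
    unfold clR
    split
    · rename_i hj
      rw [List.getD_eq_getElem _ _ hj]
      have hc : φ[j] ∈ φ := List.getElem_mem hj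
      have h := hν _ hc
      dsimp only
      rw [hix _ (List.mem_flatMap.2 ⟨_, hc, by simp⟩), hix _ (List.mem_flatMap.2 ⟨_, hc, by simp⟩),
        hix _ (List.mem_flatMap.2 ⟨_, hc, by simp⟩)]
      revert h
      cases ν φ[j].1 <;> cases ν φ[j].2.1 <;> cases ν φ[j].2.2 <;> decide
    · change (1 : ZMod 2) + 0 + 0 = 1 ∧ ¬ ((1 : ZMod 2) = 1 ∧ (0 : ZMod 2) = 1)
      decide

theorem isBent_iff {n : ℕ} (f : BoolFun n) :
    IsBent f ↔ ∀ φ : Dual (ZMod 2) (Fin n → ZMod 2), |W (fun x => sg (f x)) φ| = 2 ^ (n / 2) := by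
  have key : ∀ (a : Fin n → ZMod 2) (φ : Dual (ZMod 2) (Fin n → ZMod 2)),
      (∀ x, φ x = ∑ i, a i * x i) → walsh f a = W (fun x => sg (f x)) φ := by
    intro a φ h
    refine Finset.sum_congr rfl (fun x _ => ?_)
    rw [← h, ← sg_add]
    rfl
  constructor
  · intro h φ
    rw [← key (fun i => φ (Pi.single i 1)) φ (fun x => by
      rw [LinearMap.pi_apply_eq_sum_univ]
      refine Finset.sum_congr rfl (fun i _ => ?_)
      rw [smul_eq_mul, mul_comm]
      congr 2
      funext j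
      simp [Pi.single_apply, eq_comm])]
    exact h _
  · intro h a
    rw [key a (∑ i, a i • LinearMap.proj i) (fun x => by simp [LinearMap.sum_apply])]
    exact h _

theorem mem_bentSums_iff {m : ℕ} (P : (Fin (2 * m) → ZMod 2) → Prop) [DecidablePred P] :
    (fun x => if P x then 1 else 0 : BoolFun (2 * m)) ∈ BentSums (2 * m) ↔
    ∃ F H : (Fin (2 * m) → ZMod 2) → ℤ, (∀ x, F x = 1 ∨ F x = -1) ∧ (∀ x, P x → H x = -F x) ∧
      (∀ x, ¬ P x → H x = F x) ∧ (∀ φ, |W F φ| = 2 ^ m) ∧ ∀ φ, |W H φ| = 2 ^ m := by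
  have e : 2 * m / 2 = m := by omega
  constructor
  · rintro ⟨f, h, hf, hh, hs⟩
    rw [isBent_iff, e] at hf hh
    refine ⟨_, _, fun x => sg_cases _, fun x hx => ?_, fun x hx => ?_, hf, hh⟩
    · have := congrFun hs x
      simp only [if_pos hx, Pi.add_apply] at this
      revert this
      generalize f x = a
      generalize h x = b
      revert a b
      decide
    · have := congrFun hs x
      simp only [if_neg hx, Pi.add_apply] at this
      revert this
      generalize f x = a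
      generalize h x = b
      revert a b
      decide
  · rintro ⟨F, H, hF, h1, h0, hf, hh⟩
    have hH : ∀ x, H x = 1 ∨ H x = -1 := by
      intro x
      by_cases hx : P x
      · rw [h1 x hx]; rcases hF x with h | h <;> simp [h]
      · rw [h0 x hx]; exact hF x
    have key : ∀ G : (Fin (2 * m) → ZMod 2) → ℤ, (∀ x, G x = 1 ∨ G x = -1) →
        (fun x => sg (if G x = 1 then 0 else 1)) = G := by
      intro G hG
      funext x
      rcases hG x with h | h <;> simp [h]
    refine ⟨fun x => if F x = 1 then 0 else 1, fun x => if H x = 1 then 0 else 1, ?_, ?_, ?_⟩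
    · rw [isBent_iff, e, key F hF]; exact hf
    · rw [isBent_iff, e, key H hH]; exact hh
    · funext x
      simp only [Pi.add_apply]
      by_cases hx : P x
      · rw [if_pos hx, h1 x hx]
        rcases hF x with h | h <;> simp [h]
      · rw [if_neg hx, h0 x hx, zadd_self]

open Classical in
/-- The Boolean function produced by the reduction. -/
noncomputable def fnR (φ : List (ℕ × ℕ × ℕ)) : BoolFun (2 * mR φ) := fun x =>
  if ∃ q < 8 * nvR φ, ∀ t < mR φ, psi (mR φ) (useP (aR φ) (ptrC (clR φ))) nrmC q t x =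
    tgt (useP (aR φ) (ptrC (clR φ))) (valP (aR φ)) q t then 1 else 0

theorem fnR_mem (φ : List (ℕ × ℕ × ℕ)) : fnR φ ∈ BentSums (2 * mR φ) ↔ MonoOneIn3 φ := by
  have hnv : 3 ≤ nvR φ := by unfold nvR; omega
  have hK : 8 * nvR φ < 2 ^ aR φ := Nat.lt_size_self _
  unfold fnR
  rw [mem_bentSums_iff, ptr_geom (aR φ) (8 * nvR φ) _ nrmC (Nat.size_pos.2 (by omega)) hK.le
    (fun q hq s hs => (ptrC_lt hnv (fun j _ => clR_lt φ j) hq hs).trans hK) nrmC_bit (mR φ) rfl,
    csp _ _ hnv (fun j _ => clR_lt φ j), csp_red]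

/-! ### The computation -/

/-- A bit as a natural number. -/
def bitN (q u : ℕ) : ℕ := (q.testBit u).toNat

/-- The computed form of `zL`. -/
def zN (m q t z : ℕ) : ℕ :=
  bitN z (m + t) + ((List.range m).map (fun u => if u ≤ t then bitN q u * bitN z (t - u) else 0)).sum

/-- The computed form of `psi`. -/
def psiN (φ : List (ℕ × ℕ × ℕ)) (q t z : ℕ) : ℕ :=
  if t = 0 then bitN z 0 else if t = 1 then bitN z (1 + q % 2)
  else if t = 2 then bitN (nrmC q) 0 * zN (mR φ) q 0 z + bitN (nrmC q) 1 * zN (mR φ) q 1 z +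
    bitN (nrmC q) 2 * zN (mR φ) q 2 z
  else if useP (aR φ) (ptrC (clR φ)) q t then bitN z t else zN (mR φ) q t z

/-- The computed form of `tgt`. -/
def tgtN (φ : List (ℕ × ℕ × ℕ)) (q t : ℕ) : ℕ :=
  if t = 0 then bitN q 0 else if t ≤ 2 then 0
  else if useP (aR φ) (ptrC (clR φ)) q t then
    (if (t - 3) / aR φ < 8 then bitN q 0 else bitN q ((t - 3) % aR φ)) else 0

/-- The value of the function at the point number `z`. -/
def memB (φ : List (ℕ × ℕ × ℕ)) (z : ℕ) : Bool :=
  (List.range (8 * nvR φ)).any (fun q => (List.range (mR φ)).all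
    (fun t => decide (psiN φ q t z % 2 = tgtN φ q t % 2)))

/-- The reduction. -/
def red (φ : List (ℕ × ℕ × ℕ)) : List Bool := (List.range (2 ^ (2 * mR φ))).map (memB φ)

theorem cast_bitN (q u : ℕ) : (bitN q u : ZMod 2) = bz q u := by
  unfold bitN bz
  cases q.testBit u <;> simp

theorem co_bitVec {n t : ℕ} (ht : t < n) (z : ℕ) : co n t (bitVec n z) = bz z t := by
  rw [co, dif_pos ht]
  rfl

theorem cast_zN {m t : ℕ} (ht : t < m) (q z : ℕ) :
    (zN m q t z : ZMod 2) = zL m q t (bitVec (2 * m) z) := by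
  have e : ∀ g : ℕ → ℕ, ((List.range m).map g).sum = ∑ u ∈ range m, g u := fun _ => rfl
  rw [zL_apply, zN, co_bitVec (by omega), Nat.cast_add, cast_bitN, e, Nat.cast_sum,
    ← Finset.sum_subset (Finset.range_subset_range.2 (show t + 1 ≤ m from ht))]
  · congr 1
    refine Finset.sum_congr rfl (fun u hu => ?_)
    rw [if_pos (by simpa [Nat.lt_succ_iff] using hu), co_bitVec (by omega), Nat.cast_mul,
      cast_bitN, cast_bitN]
  · intro u _ hu
    rw [if_neg (by simpa [Nat.lt_succ_iff] using hu), Nat.cast_zero]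

theorem cast_psiN (φ : List (ℕ × ℕ × ℕ)) (q z : ℕ) {t : ℕ} (ht : t < mR φ) :
    (psiN φ q t z : ZMod 2) =
      psi (mR φ) (useP (aR φ) (ptrC (clR φ))) nrmC q t (bitVec (2 * mR φ) z) := by
  have hm : 3 ≤ mR φ := by unfold mR; omega
  rcases (by omega : t = 0 ∨ t = 1 ∨ t = 2 ∨ 3 ≤ t) with rfl | rfl | rfl | h
  · rw [psi_zero, co_bitVec (by omega), psiN, if_pos rfl, cast_bitN]
  · rw [psi_one, co_bitVec (by omega), psiN, if_neg (by omega), if_pos rfl, cast_bitN]
  · rw [psi_two, psiN, if_neg (by omega), if_neg (by omega), if_pos rfl]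
    push_cast
    rw [cast_bitN, cast_bitN, cast_bitN, cast_zN (by omega), cast_zN (by omega), cast_zN ht]
  · rw [psiN, if_neg (by omega), if_neg (by omega), if_neg (by omega)]
    split
    · rename_i hu
      rw [psi_used _ _ _ _ h hu, co_bitVec (by omega), cast_bitN]
    · rename_i hu
      rw [psi_free _ _ _ _ h hu, cast_zN ht]

theorem cast_tgtN (φ : List (ℕ × ℕ × ℕ)) (q t : ℕ) :
    (tgtN φ q t : ZMod 2) = tgt (useP (aR φ) (ptrC (clR φ))) (valP (aR φ)) q t := by
  unfold tgtN tgt valP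
  split_ifs <;> simp [cast_bitN]

theorem table_fnR (φ : List (ℕ × ℕ × ℕ)) : table (fnR φ) = red φ := by
  refine List.map_congr_left (fun z _ => ?_)
  rw [Bool.eq_iff_iff, decide_eq_true_eq, memB, fnR]
  simp only [List.any_eq_true, List.all_eq_true, List.mem_range, decide_eq_true_eq,
    ite_eq_left_iff, zero_ne_one, imp_false, not_not]
  refine exists_congr (fun q => and_congr_right (fun _ => forall₂_congr (fun t ht => ?_)))
  rw [← cast_psiN φ q z ht, ← cast_tgtN, ZMod.natCast_eq_natCast_iff']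

theorem red_correct (φ : List (ℕ × ℕ × ℕ)) : sumLang (red φ) = true ↔ MonoOneIn3 φ := by
  rw [← fnR_mem, ← table_fnR]
  simp only [sumLang, decide_eq_true_eq]
  constructor
  · rintro ⟨n, -, -, ψ, hψ, h⟩
    obtain rfl := table_inj_dim h
    rwa [← table_inj h]
  · intro h
    exact ⟨_, even_two_mul _, by unfold mR; omega, _, h, rfl⟩

/-! ### Polynomial time -/

section Poly

variable {α : Type} [N487b59b3 α]

@[fun_prop]
theorem pt_ix {f : α → List (ℕ × ℕ × ℕ)} {g : α → ℕ} (hf : IsPolyTime f) (hg : IsPolyTime g) :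
    IsPolyTime (fun x => ix (f x) (g x)) := by
  unfold ix flatV
  fun_prop

@[fun_prop]
theorem pt_clR {f : α → List (ℕ × ℕ × ℕ)} {g : α → ℕ} (hf : IsPolyTime f) (hg : IsPolyTime g) :
    IsPolyTime (fun x => clR (f x) (g x)) := by
  unfold clR
  fun_prop

@[fun_prop]
theorem pt_nvR {f : α → List (ℕ × ℕ × ℕ)} (hf : IsPolyTime f) :
    IsPolyTime (fun x => nvR (f x)) := by
  unfold nvR
  fun_prop

@[fun_prop]
theorem pb_nvR {f : α → List (ℕ × ℕ × ℕ)} (hf : IsPolyTime f) : PolyBdd (fun x => nvR (f x)) := by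
  unfold nvR
  fun_prop

@[fun_prop]
theorem pt_aR {f : α → List (ℕ × ℕ × ℕ)} (hf : IsPolyTime f) : IsPolyTime (fun x => aR (f x)) := by
  unfold aR
  fun_prop

@[fun_prop]
theorem pt_mR {f : α → List (ℕ × ℕ × ℕ)} (hf : IsPolyTime f) : IsPolyTime (fun x => mR (f x)) := by
  unfold mR
  fun_prop

@[fun_prop]
theorem pb_mR {f : α → List (ℕ × ℕ × ℕ)} (hf : IsPolyTime f) : PolyBdd (fun x => mR (f x)) := by
  unfold mR aR
  fun_prop

theorem pb_pow : PolyBdd (fun φ => 2 ^ (2 * mR φ)) := by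
  refine PolyBdd.of_le (g := fun φ => 2 ^ 26 * (16 * nvR φ) ^ 84) (by fun_prop) (fun φ => ?_)
  have h1 : 2 ^ aR φ ≤ 16 * nvR φ := by
    have h0 : 0 < aR φ := Nat.size_pos.2 (by unfold nvR; omega)
    have h2 : 2 ^ (aR φ - 1) ≤ 8 * nvR φ := Nat.lt_size.1 (by unfold aR at h0 ⊢; omega)
    rw [show aR φ = aR φ - 1 + 1 by omega, pow_succ]
    omega
  calc 2 ^ (2 * mR φ) = 2 ^ 26 * (2 ^ aR φ) ^ 84 := by
        rw [← pow_mul, ← pow_add]; congr 1; unfold mR; ring
    _ ≤ _ := by gcongr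

@[fun_prop]
theorem pt_argC {f : α → List (ℕ × ℕ × ℕ)} {k j s : α → ℕ} (hf : IsPolyTime f) (hk : IsPolyTime k)
    (hj : IsPolyTime j) (hs : IsPolyTime s) :
    IsPolyTime (fun x => argC (clR (f x)) (k x) (j x) (s x)) := by
  unfold argC
  fun_prop

@[fun_prop]
theorem pt_ptrC {f : α → List (ℕ × ℕ × ℕ)} {q s : α → ℕ} (hf : IsPolyTime f) (hq : IsPolyTime q)
    (hs : IsPolyTime s) : IsPolyTime (fun x => ptrC (clR (f x)) (q x) (s x)) := by
  have h := pt_argC hf (k := fun x => q x / 2 % 4) (j := fun x => q x / 8) (by fun_prop)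
    (by fun_prop) hs
  unfold ptrC
  fun_prop

theorem pt_useP {f : α → List (ℕ × ℕ × ℕ)} {q t : α → ℕ} (hf : IsPolyTime f) (hq : IsPolyTime q)
    (ht : IsPolyTime t) : IsPolyTime (fun x => useP (aR (f x)) (ptrC (clR (f x))) (q x) (t x)) := by
  have h := pt_ptrC hf hq (s := fun x => (t x - 3) / aR (f x) / 2) (by fun_prop)
  unfold useP useB
  fun_prop

@[fun_prop]
theorem pt_nrmC {q : α → ℕ} (hq : IsPolyTime q) : IsPolyTime (fun x => nrmC (q x)) := by
  unfold nrmC
  fun_prop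

@[fun_prop]
theorem pt_bitN {q u : α → ℕ} (hq : IsPolyTime q) (hu : IsPolyTime u) :
    IsPolyTime (fun x => bitN (q x) (u x)) := by
  unfold bitN
  fun_prop

theorem pt_zN {f : α → List (ℕ × ℕ × ℕ)} {q t z : α → ℕ} (hf : IsPolyTime f) (hq : IsPolyTime q)
    (ht : IsPolyTime t) (hz : IsPolyTime z) :
    IsPolyTime (fun x => zN (mR (f x)) (q x) (t x) (z x)) := by
  unfold zN
  fun_prop

@[fun_prop]
theorem pt_psiN {f : α → List (ℕ × ℕ × ℕ)} {q t z : α → ℕ} (hf : IsPolyTime f) (hq : IsPolyTime q)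
    (ht : IsPolyTime t) (hz : IsPolyTime z) :
    IsPolyTime (fun x => psiN (f x) (q x) (t x) (z x)) := by
  have h := pt_useP hf hq ht
  have h0 := pt_zN hf hq (IsPolyTime.const 0) hz
  have h1 := pt_zN hf hq (IsPolyTime.const 1) hz
  have h2 := pt_zN hf hq (IsPolyTime.const 2) hz
  have h3 := pt_zN hf hq ht hz
  unfold psiN
  refine IsPolyTime.ite (by fun_prop) (by fun_prop) (IsPolyTime.ite (by fun_prop) (by fun_prop)
    (IsPolyTime.ite (by fun_prop) ?_ (IsPolyTime.ite h.decide_eq_true (by fun_prop) h3)))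
  exact ((IsPolyTime.mul (by fun_prop) h0).add (IsPolyTime.mul (by fun_prop) h1)).add
    (IsPolyTime.mul (by fun_prop) h2)

@[fun_prop]
theorem pt_tgtN {f : α → List (ℕ × ℕ × ℕ)} {q t : α → ℕ} (hf : IsPolyTime f) (hq : IsPolyTime q)
    (ht : IsPolyTime t) : IsPolyTime (fun x => tgtN (f x) (q x) (t x)) := by
  have h := pt_useP hf hq ht
  unfold tgtN
  exact IsPolyTime.ite (by fun_prop) (by fun_prop) (IsPolyTime.ite (by fun_prop) (by fun_prop)
    (IsPolyTime.ite h.decide_eq_true (by fun_prop) (by fun_prop)))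

@[fun_prop]
theorem pt_memB {f : α → List (ℕ × ℕ × ℕ)} {z : α → ℕ} (hf : IsPolyTime f) (hz : IsPolyTime z) :
    IsPolyTime (fun x => memB (f x) (z x)) := by
  unfold memB
  fun_prop

theorem pt_red : IsPolyTime red := by
  unfold red
  exact IsPolyTime.map (by fun_prop) (IsPolyTime.range (by fun_prop) pb_pow)

end Poly

theorem sumLang_hard : ∀ L ∈ NP, N793a5b8e.ManyOneReducible L sumLang := by
  intro L hL
  obtain ⟨f, hf, hf'⟩ := npHardOn_monoOneIn3 L hL
  refine ⟨fun x => red (f x), pt_red.comp hf, fun x => ?_⟩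
  rw [Bool.eq_iff_iff, red_correct]
  exact (hf' x).2

end Pool.Agent.Lib.MP_b90951_co.Hard
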