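import Pool.Agent.Lib.MP_b90951_co.M5Emb
import Pool.Agent.Lib.MP_b90951_co.NPRed

/-!
The multiplicity of an explicit sum of two bent functions is the number of perfect matchings of an
induced subgraph of a cube modulo five, and the reduction from the permanent.
-/

namespace Pool.Agent.Lib.MP_b90951_co.Five

open Finset Hard Pool.Agent.Shared.PolyTime N68a2faeb

/-- The position of a coordinate. -/
def idx (D : ℕ) (p : (Fin D × Bool) × Fin 4) : Fin (8 * D) :=
  ⟨8 * p.1.1 + (if p.1.2 then 4 else 0) + p.2, by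
    have := p.1.1.2; have := p.2.2; split_ifs <;> omega⟩

theorem idx_bij (D : ℕ) : Function.Bijective (idx D) := by
  refine (Fintype.bijective_iff_injective_and_card _).2 ⟨?_, by simp; ring⟩
  rintro ⟨⟨j, s⟩, r⟩ ⟨⟨j', s'⟩, r'⟩ h
  have h1 := congrArg Fin.val h
  have := r.2
  have := r'.2
  cases s <;> cases s' <;> simp [idx] at h1 <;> simp [Fin.ext_iff] <;> omega

/-- Splitting a vector into blocks. -/
noncomputable def blocks (D : ℕ) : (Fin (8 * D) → ZMod 2) ≃ₗ[ZMod 2] (Fin D × Bool → B) :=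
  (LinearEquiv.funCongrLeft (ZMod 2) (ZMod 2) (Equiv.ofBijective _ (idx_bij D))).trans
    (LinearEquiv.curry (ZMod 2) (ZMod 2) (Fin D × Bool) (Fin 4))

theorem blocks_apply (D : ℕ) (x : Fin (8 * D) → ZMod 2) (i : Fin D × Bool) (r : Fin 4) :
    blocks D x i r = x (idx D (i, r)) := rfl

/-- The Boolean function attached to a set of vertices of the cube. -/
noncomputable def psiY {D : ℕ} (Y : Set (Fin D → ZMod 2)) : BoolFun (8 * D) := fun x =>
  ∑ i, qa (blocks D x i) + zeta Y (fun i => qa (blocks D x i))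

theorem isBent_blocks {D : ℕ} (f : (Fin D × Bool → B) → ZMod 2) :
    IsBent (fun x => f (blocks D x)) ↔ Bent (4 ^ Fintype.card (Fin D × Bool)) f := by
  have e : (4 : ℤ) ^ Fintype.card (Fin D × Bool) = 2 ^ (8 * D / 2) := by
    rw [show (4 : ℤ) = 2 ^ 2 by norm_num, ← pow_mul]
    congr 1
    simp only [Fintype.card_prod, Fintype.card_fin, Fintype.card_bool]
    omega
  rw [isBent_iff, e]
  refine ⟨fun h => ?_, fun h => h.comp (blocks D)⟩
  simpa using Bent.comp (f := fun x => f (blocks D x)) h (blocks D).symm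

theorem mult_psiY {D : ℕ} (hD : D % 5 = 4) (Y : Set (Fin D → ZMod 2)) :
    mult (psiY Y) ≡ Nat.card {c // IsPM Y c} [MOD 5] := by
  have h1 := count_modEq (ι := Fin D × Bool) (fun u => ∑ i, (u i).1 + zeta Y (fun i => (u i).1))
  have h2 := count_PM (J := Fin D) (by simpa using hD) Y
  refine Nat.ModEq.trans ?_ (h1.trans ((ZMod.natCast_eq_natCast_iff _ _ _).1 h2))
  rw [mult, ← Nat.card_coe_set_eq]
  refine Eq.mpr (congrArg (· ≡ _ [MOD 5]) (Eq.symm ?_)) (Nat.ModEq.refl _)
  refine Nat.card_congr (Equiv.subtypeEquiv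
    (Equiv.arrowCongr (blocks D).toEquiv.symm (Equiv.refl _)) (fun f => ?_))
  exact and_congr (isBent_blocks f).symm (isBent_blocks _).symm

theorem psiY_mem {D : ℕ} (Y : Set (Fin D → ZMod 2)) : psiY Y ∈ BentSums (8 * D) := by
  have key : ∀ ζ : (Fin D × Bool → ZMod 2) → ZMod 2,
      LB (fun u : Fin D × Bool → Q => ζ (fun i => (u i).1) + ∑ i, (u i).2) := by
    intro ζ
    refine (LB_iff (fun a b => ζ a + ∑ i, b i)).2 (fun i a b => ?_)
    rw [sum_add_uv]
    generalize ζ a = p
    generalize ζ (a + uv i) = q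
    generalize ∑ i, b i = r
    revert p q r
    decide
  refine ⟨_, _, (isBent_blocks _).2 (key (fun a => ∑ i, a i + zeta Y a)).bent,
    (isBent_blocks _).2 (key (fun _ => 0)).bent, funext fun x => ?_⟩
  simp only [Pi.add_apply, zero_add]
  rw [add_assoc, zadd_self, add_zero]
  rfl

/-! ### The computation -/

/-- The second binary digit of the weight of four consecutive bits. -/
def qB (z p : ℕ) : Bool :=
  decide (((z.testBit p).toNat + (z.testBit (p + 1)).toNat + (z.testBit (p + 2)).toNat +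
    (z.testBit (p + 3)).toNat) / 2 = 1)

/-- An entry of the matrix. -/
def ent (L : List (List Bool)) (r c : ℕ) : Bool := (L.getD r []).getD c false

/-- The length of the Gray codes. -/
def dL (L : List (List Bool)) : ℕ := L.length.size + 3

/-- The dimension of the cube. -/
abbrev DL (L : List (List Bool)) : ℕ := 5 * dL L + 4

/-- The presence of a vertex of kind `k`. -/
def valB (L : List (List Bool)) (k a b : ℕ) : Bool :=
  if k = 1 ∨ k = 4 then decide (b + 1 < L.length)
  else if k = 2 then ent L a b else if k = 5 then ent L b a else true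

/-- Membership in the doubled set. -/
def zetaB (L : List (List Bool)) (z : ℕ) : Bool :=
  (List.range (DL L)).all (fun j => qB z (8 * j + 4) == qB z (8 * j)) &&
    (List.range 6).any (fun k => (List.range L.length).any (fun a => (List.range L.length).any
      (fun b => valB L k a b && (List.range (DL L)).all
        (fun j => gb (fld k a b (j % 5)) (j / 5) == qB z (8 * j)))))

/-- The value of the function at the point number `z`. -/
def outB (L : List (List Bool)) (z : ℕ) : Bool :=
  decide (Odd (∑ j ∈ range (DL L), ((qB z (8 * j + 4)).toNat + (qB z (8 * j)).toNat) +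
    (zetaB L z).toNat))

/-- The reduction. -/
def red (L : List (List Bool)) : List Bool := (List.range (2 ^ (8 * DL L))).map (outB L)

theorem qa_bitVec (D z : ℕ) (i : Fin D × Bool) :
    qa (blocks D (bitVec (8 * D) z) i) = b2 (qB z (8 * i.1 + if i.2 then 4 else 0)) := by
  have key : ∀ a b c d : Bool, qa ![b2 a, b2 b, b2 c, b2 d] =
      b2 (decide ((a.toNat + b.toNat + c.toNat + d.toNat) / 2 = 1)) := by decide
  rw [qB, ← key]
  congr 1
  funext r
  fin_cases r <;> rfl

theorem cast_toNat (b : Bool) : (b.toNat : ZMod 2) = b2 b := by cases b <;> rfl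

theorem exists_val (L : List (List Bool)) (p : (ℕ → ℕ) → Prop) :
    (∃ t, Val L.length (ent L) t ∧ p (fv t)) ↔
      ∃ k < 6, ∃ a < L.length, ∃ b < L.length, valB L k a b = true ∧ p (fld k a b) := by
  constructor
  · rintro ⟨⟨_ | _, a, b⟩ | ⟨_ | _, a, b⟩ | ⟨_ | _, a, b⟩, h, hp⟩
    · exact ⟨0, by omega, a, h.1, b, h.2, rfl, hp⟩
    · exact ⟨3, by omega, a, h.1, b, h.2, rfl, hp⟩
    · exact ⟨1, by omega, a, h.1, b, by have := h.2; omega, decide_eq_true h.2, hp⟩
    · exact ⟨4, by omega, a, h.1, b, by have := h.2; omega, decide_eq_true h.2, hp⟩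
    · exact ⟨2, by omega, a, h.1, b, h.2.1, h.2.2, hp⟩
    · exact ⟨5, by omega, a, h.1, b, h.2.1, h.2.2, hp⟩
  · rintro ⟨k, hk, a, ha, b, hb, h, hp⟩
    interval_cases k
    · exact ⟨.P false a b, ⟨ha, hb⟩, hp⟩
    · exact ⟨.M false a b, ⟨ha, of_decide_eq_true h⟩, hp⟩
    · exact ⟨.C false a b, ⟨ha, hb, h⟩, hp⟩
    · exact ⟨.P true a b, ⟨ha, hb⟩, hp⟩
    · exact ⟨.M true a b, ⟨ha, of_decide_eq_true h⟩, hp⟩
    · exact ⟨.C true a b, ⟨ha, hb, h⟩, hp⟩

theorem zeta_bitVec (L : List (List Bool)) (z : ℕ) :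
    zeta (Ymat (dL L) L.length (ent L))
      (fun i => b2 (qB z (8 * i.1 + if i.2 then 4 else 0))) = b2 (zetaB L z) := by
  have e : ((∀ j : Fin (DL L), b2 (qB z (8 * j + 4)) = b2 (qB z (8 * j))) ∧
      (fun j : Fin (DL L) => b2 (qB z (8 * j))) ∈ Ymat (dL L) L.length (ent L)) ↔
      zetaB L z = true := by
    simp only [zetaB, Bool.and_eq_true, List.all_eq_true, List.any_eq_true, List.mem_range,
      beq_iff_eq, b2_inj]
    refine and_congr Fin.forall_iff ((exists_val L
      (fun u => embF (dL L) u = fun j : Fin (DL L) => b2 (qB z (8 * j)))).trans ?_)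
    exact exists_congr fun k => and_congr_right fun _ => exists_congr fun a =>
      and_congr_right fun _ => exists_congr fun b => and_congr_right fun _ =>
        and_congr_right fun _ => funext_iff.trans
          ⟨fun h j hj => b2_inj.1 (h ⟨j, hj⟩), fun h j => b2_inj.2 (h j j.2)⟩
  unfold zeta
  split_ifs with h
  · rw [e.1 h]; rfl
  · rw [Bool.eq_false_iff.2 (fun k => h (e.2 k))]; rfl

theorem table_psi (L : List (List Bool)) :
    table (psiY (D := DL L) (Ymat (dL L) L.length (ent L))) = red L := by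
  refine List.map_congr_left (fun z _ => ?_)
  refine decide_eq_decide.2 ?_
  rw [← ZMod.natCast_eq_one_iff_odd]
  unfold psiY
  simp only [qa_bitVec]
  rw [zeta_bitVec, Fintype.sum_prod_type, Nat.cast_add, Nat.cast_sum, cast_toNat,
    ← Fin.sum_univ_eq_sum_range
      (fun j => (((qB z (8 * j + 4)).toNat + (qB z (8 * j)).toNat : ℕ) : ZMod 2))]
  simp only [Fintype.sum_bool, Nat.cast_add, cast_toNat, if_true, Bool.false_eq_true, if_false,
    add_zero]

/-! ### Polynomial time -/

section Poly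

variable {α : Type} [N487b59b3 α]

@[fun_prop]
theorem pt_qB {z p : α → ℕ} (hz : IsPolyTime z) (hp : IsPolyTime p) :
    IsPolyTime (fun x => qB (z x) (p x)) := by
  unfold qB
  fun_prop

@[fun_prop]
theorem pt_ent {f : α → List (List Bool)} {a b : α → ℕ} (hf : IsPolyTime f) (ha : IsPolyTime a)
    (hb : IsPolyTime b) : IsPolyTime (fun x => ent (f x) (a x) (b x)) := by
  unfold ent
  fun_prop

@[fun_prop]
theorem pt_DL {f : α → List (List Bool)} (hf : IsPolyTime f) : IsPolyTime (fun x => DL (f x)) := by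
  unfold DL dL
  fun_prop

@[fun_prop]
theorem pb_DL {f : α → List (List Bool)} (hf : IsPolyTime f) : PolyBdd (fun x => DL (f x)) := by
  unfold DL dL
  fun_prop

@[fun_prop]
theorem pt_valB {f : α → List (List Bool)} {k a b : α → ℕ} (hf : IsPolyTime f) (hk : IsPolyTime k)
    (ha : IsPolyTime a) (hb : IsPolyTime b) :
    IsPolyTime (fun x => valB (f x) (k x) (a x) (b x)) := by
  unfold valB
  fun_prop

@[fun_prop]
theorem pt_gb {a b : α → ℕ} (ha : IsPolyTime a) (hb : IsPolyTime b) :
    IsPolyTime (fun x => gb (a x) (b x)) := by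
  unfold gb
  fun_prop

@[fun_prop]
theorem pt_fld {k a b f : α → ℕ} (hk : IsPolyTime k) (ha : IsPolyTime a) (hb : IsPolyTime b)
    (hf : IsPolyTime f) : IsPolyTime (fun x => fld (k x) (a x) (b x) (f x)) := by
  unfold fld
  fun_prop

@[fun_prop]
theorem pt_zetaB {f : α → List (List Bool)} {z : α → ℕ} (hf : IsPolyTime f) (hz : IsPolyTime z) :
    IsPolyTime (fun x => zetaB (f x) (z x)) := by
  unfold zetaB
  fun_prop

@[fun_prop]
theorem pt_outB {f : α → List (List Bool)} {z : α → ℕ} (hf : IsPolyTime f) (hz : IsPolyTime z) :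
    IsPolyTime (fun x => outB (f x) (z x)) := by
  unfold outB
  fun_prop

theorem pow_bound (n k : ℕ) : 2 ^ (k + n.size * 40) ≤ 2 ^ k * (2 * n + 1) ^ 40 := by
  have h1 : 2 ^ n.size ≤ 2 * n + 1 := by
    rcases Nat.eq_zero_or_pos n with h | h
    · simp [h]
    · have h0 : 0 < n.size := Nat.size_pos.2 h
      have h2 : 2 ^ (n.size - 1) ≤ n := Nat.lt_size.1 (by omega)
      rw [show n.size = n.size - 1 + 1 by omega, pow_succ]
      omega
  rw [pow_add, pow_mul]
  gcongr

theorem pb_pow : PolyBdd (fun L : List (List Bool) => 2 ^ (8 * DL L)) := by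
  refine PolyBdd.of_le (g := fun L => 2 ^ 152 * (2 * L.length + 1) ^ 40) (by fun_prop) (fun L => ?_)
  rw [show 8 * DL L = 152 + L.length.size * 40 by unfold DL dL; ring]
  exact pow_bound _ _

theorem pt_red : IsPolyTime red := by
  unfold red
  exact IsPolyTime.map (by fun_prop) (IsPolyTime.range (IsPolyTime.pow (IsPolyTime.const 2)
    ((IsPolyTime.const 8).mul (pt_DL IsPolyTime.id'))
    ((PolyBdd.const 8).mul (pb_DL IsPolyTime.id'))) pb_pow)

end Poly

theorem red_spec (L : List (List Bool)) : ∃ n, Even n ∧ 2 ≤ n ∧ ∃ ψ : BoolFun n,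
    table ψ = red L ∧ ψ ∈ BentSums n ∧
      mult ψ ≡ (Matrix.of fun i j : Fin L.length => (ent L i j).toNat).permanent [MOD 5] := by
  refine ⟨8 * DL L, ⟨4 * DL L, by ring⟩, by unfold DL; omega, _, table_psi L, psiY_mem _, ?_⟩
  have h1 : L.length < 2 ^ dL L :=
    (Nat.lt_size_self _).trans_le (Nat.pow_le_pow_right (by norm_num) (by unfold dL; omega))
  have h2 : 8 ≤ 2 ^ dL L := Nat.pow_le_pow_right (n := 2) (i := 3) (by norm_num) (by unfold dL; omega)
  rw [← card_Ymat h1 h2]
  exact mult_psiY (by unfold DL; omega) _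

end Pool.Agent.Lib.MP_b90951_co.Five
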