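import Pool.Agent.Lib.MP_b90951_co.M5Line

/-!
The function at a diagonal vertex depends on at most one pair of coordinates. Summation over these
states gives, modulo five, the number of perfect matchings.
-/

namespace Pool.Agent.Lib.MP_b90951_co.Five

open Finset Hard

/-- Functions of two bits. -/
abbrev G : Type := ZMod 2 → ZMod 2 → ZMod 2

/-- Not constant. -/
abbrev NC (g : G) : Prop := ∃ p q, g p q ≠ g 0 0

/-- The number of functions with prescribed differences. -/
def nn (g h : G) : ℕ :=
  (univ.filter fun v : G => (∀ p q, Rel (v p q) (v p (q + 1)) (g p q) (g p (q + 1))) ∧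
    ∀ p q, Rel (v p q) (v (p + 1) q) (h p q) (h (p + 1) q)).card

/-- The weight of an edge. -/
def En (g h : G) : ZMod 5 := (nn g h : ZMod 5) * (nn h g : ZMod 5)

/-- The two parts of the weight seen from one end. -/
def ph (b : Bool) (h : G) : ZMod 5 :=
  if b then 3 * (∑ g : {g // NC g}, En h g.1 - 2 * En h 0) else En h 0

theorem ph_true_zero : ph true 0 = 0 := by decide +kernel

theorem ph_false_zero : ph false 0 = 4 := by decide +kernel

theorem sum_ph (b : Bool) : ∑ g : {g // NC g}, ph b g.1 = 3 := by revert b; decide +kernel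

theorem sum_En (h : G) : ∑ g : {g // NC g}, En h g.1 = 2 * ph false h + 2 * ph true h := by
  simp only [ph, if_true, Bool.false_eq_true, if_false]
  have : (5 : ZMod 5) = 0 := rfl
  linear_combination (2 * En h 0 - ∑ g : {g // NC g}, En h g.1) * this

/-- The states of a diagonal vertex. -/
abbrev St (J : Type) : Type := ZMod 2 ⊕ J × {g : G // NC g}

variable {J : Type} [DecidableEq J]

/-- A function of one pair of coordinates. -/
def lift (j : J) (g : G) : (J × Bool → ZMod 2) → ZMod 2 := fun b => g (b (j, false)) (b (j, true))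

/-- The function described by a state. -/
def st : St J → (J × Bool → ZMod 2) → ZMod 2
  | .inl c => fun _ => c
  | .inr (j, g) => lift j g.1

/-- The part of a state seen by one pair of coordinates. -/
def rho (j : J) : St J → G
  | .inl _ => 0
  | .inr (k, g) => if k = j then g.1 else 0

theorem ind_lift {j : J} {i : J × Bool} (h : i.1 ≠ j) (g : G) : Ind i (lift j g) := fun b => by
  have e : ∀ s, (j, s) ≠ i := fun s e => h (e ▸ rfl)
  simp [lift, uv, e]

/-- A vector supported on one pair of coordinates. -/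
def pv (j : J) (p q : ZMod 2) : J × Bool → ZMod 2 :=
  fun i => if i = (j, false) then p else if i = (j, true) then q else 0

theorem lift_pair (j : J) (g : G) (p q : ZMod 2) : lift j g (pv j p q) = g p q := by
  simp [lift, pv]

theorem lift_inj (j : J) : Function.Injective (lift j) := fun g g' h =>
  funext₂ fun p q => by rw [← lift_pair j g, h, lift_pair]

theorem relF_true (j : J) (v g : G) : RelF (j, true) (lift j v) (lift j g) ↔
    ∀ p q, Rel (v p q) (v p (q + 1)) (g p q) (g p (q + 1)) := by
  simp only [RelF, lift, uv, Pi.add_apply, Pi.single_eq_same,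
    Pi.single_eq_of_ne (show (j, false) ≠ (j, true) by simp), add_zero]
  refine ⟨fun h p q => ?_, fun h b => h _ _⟩
  simpa using h (fun i => if i.2 then q else p)

theorem relF_false (j : J) (v g : G) : RelF (j, false) (lift j v) (lift j g) ↔
    ∀ p q, Rel (v p q) (v (p + 1) q) (g p q) (g (p + 1) q) := by
  simp only [RelF, lift, uv, Pi.add_apply, Pi.single_eq_same,
    Pi.single_eq_of_ne (show (j, true) ≠ (j, false) by simp), add_zero]
  refine ⟨fun h p q => ?_, fun h b => h _ _⟩
  simpa using h (fun i => if i.2 then q else p)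

theorem relF_st (j : J) (t : Bool) (v : (J × Bool → ZMod 2) → ZMod 2) (s : St J) :
    RelF (j, t) v (st s) ↔ RelF (j, t) v (lift j (rho j s)) := by
  have key : ∀ u, Ind (j, t) u → (RelF (j, t) v u ↔ RelF (j, t) v (lift j 0)) := fun u hu =>
    ⟨fun h => (h.ind hu).relF (fun _ => rfl), fun h => (h.ind (fun _ => rfl)).relF hu⟩
  rcases s with c | ⟨k, g⟩
  · exact key _ (fun _ => rfl)
  · by_cases h : k = j
    · subst h
      simp [st, rho]
    · simp only [st, rho, if_neg h]
      exact key _ (ind_lift (Ne.symm h) _)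

theorem st_inj : Function.Injective (st : St J → _) := by
  have key : ∀ (j : J) (g : {g : G // NC g}) (c : ZMod 2), ¬ ∀ p q, g.1 p q = c := by
    rintro j ⟨g, p, q, h⟩ c e
    exact h ((e p q).trans (e 0 0).symm)
  rintro (c | ⟨j, g⟩) (c' | ⟨j', g'⟩) h
  · exact congrArg _ (congrFun h 0)
  · exact (key j' g' c (fun p q =>
      (lift_pair j' g'.1 p q).symm.trans (congrFun h (pv j' p q)).symm)).elim
  · exact (key j g c' (fun p q => (lift_pair j g.1 p q).symm.trans (congrFun h (pv j p q)))).elim
  · by_cases e : j = j'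
    · subst e
      congr 2
      exact Subtype.ext (lift_inj j h)
    · refine (key j g (g'.1 0 0) (fun p q => (lift_pair j g.1 p q).symm.trans
        ((congrFun h (pv j p q)).trans ?_))).elim
      simp [st, lift, pv, Ne.symm e]

theorem ind_st (s : St J) : (∀ i, Ind i (st s)) ↔ s.isLeft = true := by
  rcases s with c | ⟨j, g, p, q, h⟩
  · exact iff_of_true (fun _ _ => rfl) rfl
  · refine iff_of_false (fun k => h ?_) (by simp)
    have h0 : ∀ p q, g (p + 1) q = g p q := fun p q => by
      simpa [st, lift, uv] using k (j, false) (fun i => if i.2 then q else p)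
    have h1 : ∀ p q, g p (q + 1) = g p q := fun p q => by
      simpa [st, lift, uv] using k (j, true) (fun i => if i.2 then q else p)
    rcases two_cases p with rfl | rfl <;> rcases two_cases q with rfl | rfl
    · rfl
    · exact h1 0 0
    · exact h0 0 0
    · exact (h0 0 1).trans (h1 0 0)

variable [Fintype J]

theorem eq_lift {j : J} {v : (J × Bool → ZMod 2) → ZMod 2} (h : ∀ i : J × Bool, i.1 ≠ j → Ind i v) :
    ∃ g, v = lift j g := by
  refine ⟨fun p q => v (fun i => if i.2 then q else p), funext fun b => eq_of_ind _ _ ?_⟩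
  rintro ⟨k, t⟩ e
  refine h _ ?_
  rintro rfl
  cases t <;> simp at e

theorem dn_st (j : J) (s s' : St J) : dn j (st s) (st s') = nn (rho j s) (rho j s') := by
  rw [dn, nn, ← Fintype.card_subtype, ← Nat.card_eq_fintype_card]
  symm
  refine Nat.card_eq_of_bijective (fun g => ⟨lift j g.1, fun i hi => ind_lift hi _,
    (relF_st _ _ _ _).2 ((relF_true _ _ _).2 g.2.1),
    (relF_st _ _ _ _).2 ((relF_false _ _ _).2 g.2.2)⟩) ⟨fun g g' h => ?_, ?_⟩
  · exact Subtype.ext (lift_inj j (congrArg Subtype.val h))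
  · rintro ⟨v, h1, h2, h3⟩
    obtain ⟨g, rfl⟩ := eq_lift h1
    exact ⟨⟨g, (relF_true _ _ _).1 ((relF_st _ _ _ _).1 h2),
      (relF_false _ _ _).1 ((relF_st _ _ _ _).1 h3)⟩, rfl⟩

/-- The classification of the functions at diagonal vertices. -/
theorem exists_st {σ : (J × Bool → ZMod 2) → ZMod 2}
    (h : ∀ i : J × Bool, ∃ v, (∀ k : J × Bool, k.1 ≠ i.1 → Ind k v) ∧ RelF i v σ) :
    ∃ s, st s = σ := by
  have slice : ∀ (i : J × Bool) (b : J × Bool → ZMod 2), σ (b + uv i) ≠ σ b →
      ∀ b' : J × Bool → ZMod 2, (∀ k : J × Bool, k.1 = i.1 → b k = b' k) →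
        σ b' = σ b ∧ σ (b' + uv i) = σ (b + uv i) := by
    intro i b hb b' hb'
    obtain ⟨v, hv, hr⟩ := h i
    have e1 : v b = v b' := eq_of_ind _ _ (fun k hk => hv k (fun e => hk (hb' k e)))
    have e2 : v (b + uv i) = v (b' + uv i) := eq_of_ind _ _ (fun k hk => hv k (fun e => hk (by
      simp only [Pi.add_apply, hb' k e])))
    have r1 := (hr b).resolve_left (fun e => hb e.2.symm)
    have r2 := (hr b').resolve_left (fun e => hb (by rw [← r1.1, ← r1.2, e1, e2, e.1]))
    exact ⟨by rw [← r2.1, ← r1.1, e1], by rw [← r2.2, ← r1.2, e2]⟩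
  by_cases h0 : ∀ i, Ind i σ
  · exact ⟨.inl (σ 0), funext fun b => eq_of_ind _ _ (fun i _ => h0 i)⟩
  · obtain ⟨i, hi⟩ := not_forall.1 h0
    obtain ⟨b, hb⟩ := not_forall.1 hi
    have h1 : ∀ k : J × Bool, k.1 ≠ i.1 → Ind k σ := by
      intro k hk c
      by_contra hc
      have a1 := (slice k c hc (fun l => if l.1 = i.1 then b l else c l)
        (fun l hl => by rw [if_neg (hl ▸ hk)]))
      have a2 := (slice i b hb (fun l => if l.1 = i.1 then b l else c l)
        (fun l hl => by rw [if_pos hl])).1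
      have a3 := (slice i b hb ((fun l => if l.1 = i.1 then b l else c l) + uv k)
        (fun l hl => by
          have : l ≠ k := fun e => hk (e ▸ hl)
          simp [uv, hl, this])).1
      exact hc (by rw [← a1.1, ← a1.2, a2, a3])
    obtain ⟨g, rfl⟩ := eq_lift h1
    refine ⟨.inr (i.1, ⟨g, ?_⟩), rfl⟩
    by_contra hg
    simp only [NC, not_exists, not_not] at hg
    exact hb ((hg _ _).trans (hg _ _).symm)

open Classical in
/-- Third reduction. -/
theorem sum_states (Y : Set (J → ZMod 2)) (c : ℕ) :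
    ∑ σ : (J → ZMod 2) → (J × Bool → ZMod 2) → ZMod 2, ∏ x,
      ((if x ∈ Y ∨ ∀ i, Ind i (σ x) then 1 else 0) * (∏ j, dn j (σ x) (σ (x + uv j))) * c) =
    ∑ s : (J → ZMod 2) → St J, ∏ x, ((if x ∈ Y ∨ (s x).isLeft = true then 1 else 0) *
      (∏ j, nn (rho j (s x)) (rho j (s (x + uv j)))) * c) := by
  symm
  refine Fintype.sum_of_injective (fun s x => st (s x))
    (fun s s' h => funext fun x => st_inj (congrFun h x)) _ _ (fun σ hσ => ?_) (fun s => ?_)
  · by_contra h0
    have h1 : ∀ x j, ∃ v, (∀ i : J × Bool, i.1 ≠ j → Ind i v) ∧ RelF (j, true) v (σ x) ∧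
        RelF (j, false) v (σ (x + uv j)) := by
      intro x j
      have a1 := Finset.prod_ne_zero_iff.1 h0 x (mem_univ x)
      have a2 := Finset.prod_ne_zero_iff.1 (right_ne_zero_of_mul (left_ne_zero_of_mul a1)) j
        (mem_univ j)
      obtain ⟨v⟩ := (Nat.card_ne_zero.1 a2).1
      exact ⟨v.1, v.2⟩
    have h2 : ∀ x, ∃ s, st s = σ x := by
      refine fun x => exists_st ?_
      rintro ⟨j, _ | _⟩
      · obtain ⟨v, a1, -, a2⟩ := h1 (x + uv j) j
        rw [vadd_cancel] at a2
        exact ⟨v, a1, a2⟩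
      · obtain ⟨v, a1, a2, -⟩ := h1 x j
        exact ⟨v, a1, a2⟩
    choose s hs using h2
    exact hσ ⟨s, funext hs⟩
  · simp only [dn_st, ind_st]

theorem sum_St (f : J → G → ZMod 5) : ∑ s : St J, ∏ j, f j (rho j s) =
    2 * ∏ j, f j 0 + ∑ j, (∑ g : {g // NC g}, f j g.1) * ∏ k ∈ univ.erase j, f k 0 := by
  rw [Fintype.sum_sum_type, Fintype.sum_prod_type]
  congr 1
  · simp [rho]
  · refine Finset.sum_congr rfl (fun j _ => ?_)
    rw [Finset.sum_mul]
    refine Finset.sum_congr rfl (fun g _ => ?_)
    rw [← Finset.mul_prod_erase _ _ (mem_univ j)]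
    simp only [rho, if_true]
    congr 1
    exact Finset.prod_congr rfl (fun k hk => by rw [if_neg (Finset.ne_of_mem_erase hk).symm])

theorem sum_St_left (f : J → G → ZMod 5) :
    ∑ s : St J, (if s.isLeft = true then 1 else 0) * ∏ j, f j (rho j s) = 2 * ∏ j, f j 0 := by
  rw [Fintype.sum_sum_type]
  simp [rho]

end Pool.Agent.Lib.MP_b90951_co.Five
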