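import Pool.Agent.Lib.MP_b90951_co.M5State

/-!
The sum over states is, modulo five, the number of perfect matchings of an induced subgraph of the
cube.
-/

namespace Pool.Agent.Lib.MP_b90951_co.Five

open Finset Hard

variable {J : Type} [DecidableEq J] [Fintype J]

open Classical in
/-- The indicator of the allowed states. -/
noncomputable def lam (P : Prop) (s : St J) : ZMod 5 := if P ∨ s.isLeft = true then 1 else 0

omit [DecidableEq J] in
theorem card_cast (hJ : Fintype.card J % 5 = 4) : (Fintype.card J : ZMod 5) = 4 := by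
  rw [← ZMod.natCast_mod, hJ]
  rfl

open Classical in
theorem side_R (hJ : Fintype.card J % 5 = 4) (P : Prop) (h : J → G) :
    ∑ s : St J, lam P s * ∏ j, En (h j) (rho j s) =
      ∑ o : Option J, (if (o = none ↔ ¬ P) then 2 else 0) *
        ∏ j, ph (decide (o = some j)) (h j) := by
  have e0 : ∀ g, En g 0 = ph false g := fun _ => rfl
  rw [Fintype.sum_option]
  by_cases hP : P
  · simp only [lam, hP, true_or, if_true, one_mul, not_true, iff_false, reduceCtorEq,
      if_false, zero_mul, zero_add]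
    rw [sum_St (fun j g => En (h j) g)]
    simp only [sum_En, e0, add_mul, Finset.sum_add_distrib, mul_assoc,
      Finset.mul_prod_erase univ (fun j => ph false (h j)) (mem_univ _), Finset.sum_const,
      card_univ, nsmul_eq_mul, card_cast hJ]
    have e : ∑ j, 2 * (ph true (h j) * ∏ k ∈ univ.erase j, ph false (h k)) =
        ∑ j, 2 * ∏ k, ph (decide (some j = some k)) (h k) := by
      refine Finset.sum_congr rfl (fun j _ => ?_)
      rw [← Finset.mul_prod_erase _ _ (mem_univ j)]
      simp only [decide_true]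
      congr 2
      refine Finset.prod_congr rfl (fun k hk => ?_)
      rw [decide_eq_false (by simpa using (Finset.ne_of_mem_erase hk).symm)]
    rw [e]
    have : (5 : ZMod 5) = 0 := rfl
    linear_combination (2 * ∏ j, ph false (h j)) * this
  · simp only [lam, hP, false_or, not_false_eq_true, iff_true, if_true, reduceCtorEq, if_false,
      zero_mul, Finset.sum_const_zero, add_zero, decide_false]
    convert sum_St_left (fun j g => En (h j) g)
    rfl

open Classical in
theorem side_L (hJ : Fintype.card J % 5 = 4) (P : Prop) (η : J → Bool) :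
    ∑ s : St J, lam P s * ∏ j, ph (η j) (rho j s) =
      if (P → ∃! j, η j = true) ∧ (¬ P → ∀ j, η j = false)
      then 3 * 4 ^ (Fintype.card J - 1) else 0 := by
  have five : (5 : ZMod 5) = 0 := rfl
  have hc : Fintype.card J = Fintype.card J - 1 + 1 := by omega
  have z1 : ∀ (s : Finset J) (j : J), j ∈ s → η j = true → ∏ k ∈ s, ph (η k) 0 = 0 :=
    fun s j hj h => Finset.prod_eq_zero hj (by rw [h, ph_true_zero])
  have z2 : ∀ s : Finset J, (∀ j ∈ s, η j = false) → ∏ k ∈ s, ph (η k) 0 = 4 ^ s.card :=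
    fun s h => Finset.prod_eq_pow_card (fun j hj => by rw [h j hj, ph_false_zero])
  by_cases hP : P
  · simp only [lam, hP, true_or, if_true, one_mul, not_true, false_imp_iff, and_true,
      true_imp_iff]
    rw [sum_St (fun j g => ph (η j) g)]
    simp only [sum_ph]
    by_cases h0 : ∃ j, η j = true
    · obtain ⟨j, hj⟩ := h0
      rw [z1 _ j (mem_univ j) hj, Finset.sum_eq_single j (fun k _ hk => by
        rw [z1 _ j (mem_erase.2 ⟨hk.symm, mem_univ j⟩) hj, mul_zero]) (by simp), mul_zero, zero_add]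
      split_ifs with h1
      · rw [z2 _ (fun k hk => Bool.eq_false_iff.2
          (fun e => Finset.ne_of_mem_erase hk (h1.unique e hj))), card_erase_of_mem (mem_univ j),
          card_univ]
      · obtain ⟨k, hk, hkj⟩ : ∃ k, η k = true ∧ k ≠ j := by
          by_contra h2
          exact h1 ⟨j, hj, fun k hk => by_contra fun e => h2 ⟨k, hk, e⟩⟩
        rw [z1 _ k (mem_erase.2 ⟨hkj, mem_univ k⟩) hk, mul_zero]
    · have h1 : ∀ j, η j = false := fun j => Bool.eq_false_iff.2 (fun e => h0 ⟨j, e⟩)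
      rw [if_neg (fun e => h0 e.exists), z2 _ (fun j _ => h1 j), Finset.sum_congr rfl
        (fun j _ => by rw [z2 _ (fun k _ => h1 k), card_erase_of_mem (mem_univ j), card_univ]),
        Finset.sum_const, card_univ, nsmul_eq_mul, card_cast hJ]
      conv_lhs => rw [hc, pow_succ, Nat.add_sub_cancel]
      linear_combination (4 * 4 ^ (Fintype.card J - 1)) * five
  · simp only [lam, hP, false_or, not_false_eq_true, false_imp_iff, true_and, true_imp_iff]
    have := sum_St_left (fun j g => ph (η j) g)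
    refine Eq.trans (by convert this) ?_
    split_ifs with h1
    · rw [z2 _ (fun j _ => h1 j), card_univ]
      conv_lhs => rw [hc, pow_succ]
      linear_combination (4 ^ (Fintype.card J - 1)) * five
    · obtain ⟨j, hj⟩ := not_forall.1 h1
      rw [z1 _ j (mem_univ j) (by simpa using hj), mul_zero]

theorem sum_bip (hJ : Fintype.card J % 5 = 4) {L R : Type} [Fintype L] [Fintype R] [DecidableEq L]
    [DecidableEq R] (τ : J → L ≃ R) (YL : L → Prop) (YR : R → Prop) :
    ∑ sL : L → St J, ∑ sR : R → St J, (∏ l, lam (YL l) (sL l)) * (∏ r, lam (YR r) (sR r)) *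
      ∏ l, ∏ j, En (rho j (sL l)) (rho j (sR (τ j l))) =
    2 ^ Fintype.card R * (3 * 4 ^ (Fintype.card J - 1)) ^ Fintype.card L *
      Nat.card {o : R → Option J // (∀ r, o r = none ↔ ¬ YR r) ∧ ∀ l,
        (YL l → ∃! j, o (τ j l) = some j) ∧ (¬ YL l → ∀ j, o (τ j l) ≠ some j)} := by
  classical
  have sw : ∀ f : J → L → R → ZMod 5,
      ∏ l, ∏ j, f j l (τ j l) = ∏ r, ∏ j, f j ((τ j).symm r) r := by
    intro f
    rw [Finset.prod_comm, Finset.prod_comm (γ := R)]
    exact Finset.prod_congr rfl (fun j _ => Fintype.prod_equiv (τ j) _ _ (fun l => by simp))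
  have h1 : ∀ sL : L → St J, ∑ sR : R → St J, (∏ l, lam (YL l) (sL l)) *
      (∏ r, lam (YR r) (sR r)) * ∏ l, ∏ j, En (rho j (sL l)) (rho j (sR (τ j l))) =
      ∑ o : R → Option J, (∏ r, if (o r = none ↔ ¬ YR r) then 2 else 0) *
        ∏ l, (lam (YL l) (sL l) * ∏ j, ph (decide (o (τ j l) = some j)) (rho j (sL l))) := by
    intro sL
    have e := fun sR : R → St J => sw (fun j l r => En (rho j (sL l)) (rho j (sR r)))
    simp only [mul_assoc, e, ← Finset.prod_mul_distrib, ← Finset.mul_sum]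
    rw [← Fintype.prod_sum (fun r s => lam (YR r) s * ∏ j, En (rho j (sL ((τ j).symm r))) (rho j s))]
    simp only [side_R hJ]
    rw [Fintype.prod_sum, Finset.mul_sum]
    refine Finset.sum_congr rfl (fun o _ => ?_)
    rw [Finset.prod_mul_distrib, Finset.prod_mul_distrib,
      sw (fun j l r => ph (decide (o r = some j)) (rho j (sL l)))]
    ring
  simp only [h1]
  rw [Finset.sum_comm]
  simp only [← Finset.mul_sum]
  have h2 : ∀ o : R → Option J, ∑ sL : L → St J,
      ∏ l, (lam (YL l) (sL l) * ∏ j, ph (decide (o (τ j l) = some j)) (rho j (sL l))) =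
      ∏ l, if (YL l → ∃! j, o (τ j l) = some j) ∧ (¬ YL l → ∀ j, o (τ j l) ≠ some j)
        then 3 * 4 ^ (Fintype.card J - 1) else 0 := by
    intro o
    rw [← Fintype.prod_sum
      (fun l s => lam (YL l) s * ∏ j, ph (decide (o (τ j l) = some j)) (rho j s))]
    refine Finset.prod_congr rfl (fun l _ => ?_)
    rw [side_L hJ]
    simp only [decide_eq_true_eq, decide_eq_false_iff_not, ne_eq]
  simp only [h2, Finset.prod_ite_zero, mem_univ, true_imp_iff, Finset.prod_const, card_univ,
    ite_zero_mul_ite_zero]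
  rw [← Finset.sum_filter, Finset.sum_const, nsmul_eq_mul, mul_comm, Nat.card_eq_fintype_card,
    Fintype.card_subtype]

/-- A perfect matching of the subgraph of the cube induced on `Y`, given by its directions. -/
def IsPM (Y : Set (J → ZMod 2)) (c : (J → ZMod 2) → Option J) : Prop :=
  (∀ x, c x = none ↔ x ∉ Y) ∧ ∀ x j, c x = some j → c (x + uv j) = some j

/-- Even and odd vertices are exchanged by a step. -/
def flip (j : J) : {x : J → ZMod 2 // ∑ i, x i = 0} ≃ {x : J → ZMod 2 // ¬ ∑ i, x i = 0} :=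
  Equiv.subtypeEquiv (Equiv.addRight (uv j)) (fun x => by
    rw [Equiv.coe_addRight, sum_add_uv]
    generalize ∑ i, x i = a
    revert a
    decide)

theorem flip_val (j : J) (x : {x : J → ZMod 2 // ∑ i, x i = 0}) : (flip j x).1 = x.1 + uv j := rfl

theorem card_PM (Y : Set (J → ZMod 2)) : Nat.card {c // IsPM Y c} =
    Nat.card {o : {x : J → ZMod 2 // ¬ ∑ i, x i = 0} → Option J //
      (∀ r, o r = none ↔ ¬ r.1 ∈ Y) ∧ ∀ l : {x : J → ZMod 2 // ∑ i, x i = 0},
        (l.1 ∈ Y → ∃! j, o (flip j l) = some j) ∧ (¬ l.1 ∈ Y → ∀ j, o (flip j l) ≠ some j)} := by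
  classical
  have back : ∀ {c}, IsPM Y c → ∀ x j, c (x + uv j) = some j → c x = some j := fun h x j e => by
    simpa only [vadd_cancel] using h.2 _ _ e
  refine Nat.card_eq_of_bijective (fun c => ⟨fun r => c.1 r.1, fun r => c.2.1 _, fun l =>
    ⟨fun h => ?_, fun h j e => ?_⟩⟩) ⟨fun c c' h => Subtype.ext (funext fun x => ?_), ?_⟩
  · obtain ⟨j, hj⟩ := Option.ne_none_iff_exists'.1 (fun e => (c.2.1 _).1 e h)
    exact ⟨j, c.2.2 _ _ hj, fun k hk => Option.some.inj ((back c.2 _ _ hk).symm.trans hj)⟩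
  · exact absurd (((c.2.1 _).2 h).symm.trans (back c.2 _ _ e)) (by simp)
  · have h1 : ∀ r : {x : J → ZMod 2 // ¬ ∑ i, x i = 0}, c.1 r.1 = c'.1 r.1 :=
      congrFun (congrArg Subtype.val h)
    by_cases hx : ∑ i, x i = 0
    · by_cases hY : x ∈ Y
      · obtain ⟨j, hj⟩ := Option.ne_none_iff_exists'.1 (fun e => (c.2.1 _).1 e hY)
        rw [hj, back c'.2 x j ((h1 (flip j ⟨x, hx⟩)).symm.trans (c.2.2 _ _ hj))]
      · rw [(c.2.1 _).2 hY, (c'.2.1 _).2 hY]
    · exact h1 ⟨x, hx⟩
  · rintro ⟨o, h1, h2⟩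
    have key : ∀ l : {x : J → ZMod 2 // ∑ i, x i = 0}, ∃ a : Option J,
        (a = none ↔ l.1 ∉ Y) ∧ ∀ j, a = some j ↔ o (flip j l) = some j := by
      intro l
      by_cases hY : l.1 ∈ Y
      · obtain ⟨j, hj, hu⟩ := (h2 l).1 hY
        exact ⟨some j, by simpa using hY, fun k => ⟨fun e => Option.some.inj e ▸ hj,
          fun e => congrArg _ (hu k e).symm⟩⟩
      · exact ⟨none, by simpa using hY, fun j => iff_of_false (by simp) ((h2 l).2 hY j)⟩
    choose a ha using key
    refine ⟨⟨fun x => if h : ∑ i, x i = 0 then a ⟨x, h⟩ else o ⟨x, h⟩, fun x => ?_, fun x j => ?_⟩,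
      Subtype.ext (funext fun r => dif_neg r.2)⟩
    · dsimp only
      split_ifs with h
      · exact (ha _).1
      · exact h1 _
    · dsimp only
      by_cases h : ∑ i, x i = 0
      · rw [dif_pos h, dif_neg (show ¬ ∑ i, (x + uv j) i = 0 from (flip j ⟨x, h⟩).2)]
        exact ((ha _).2 j).1
      · obtain ⟨l, hl⟩ := (flip j).surjective ⟨x, h⟩
        have e : x + uv j = l.1 := by
          rw [← show l.1 + uv j = x from congrArg Subtype.val hl, vadd_cancel]
        rw [dif_neg h, e, dif_pos l.2, ← hl]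
        exact ((ha _).2 j).2

/-- The number of balanced pairs is the number of perfect matchings modulo five. -/
theorem count_PM (hJ : Fintype.card J % 5 = 4) (Y : Set (J → ZMod 2)) :
    (Nat.card {F : (J × Bool → Q) → ZMod 2 //
      LB F ∧ LB ((fun u : J × Bool → Q => ∑ i, (u i).1 + zeta Y (fun i => (u i).1)) + F)} :
        ZMod 5) = Nat.card {c // IsPM Y c} := by
  classical
  rw [card_LB, card_cond, sum_states, card_PM]
  generalize (insert 0 (univ.image (uv : J → J → ZMod 2)))ᶜ.card = m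
  have hb := sum_bip hJ (flip (J := J)) (fun l => l.1 ∈ Y) (fun r => r.1 ∈ Y)
  obtain ⟨k, hk⟩ : ∃ k, Fintype.card J = k + 2 := ⟨Fintype.card J - 2, by omega⟩
  have cX : Fintype.card (J → ZMod 2) = 4 * 2 ^ k := by
    rw [Fintype.card_fun, ZMod.card, hk]; ring
  have j0 : J := Classical.choice (Fintype.card_pos_iff.1 (by omega))
  have cLR := Fintype.card_congr (flip j0)
  have cR : Fintype.card {x : J → ZMod 2 // ¬ ∑ i, x i = 0} = 2 * 2 ^ k := by
    have h1 := Fintype.card_subtype_compl (fun x : J → ZMod 2 => ∑ i, x i = 0)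
    have h2 := Fintype.card_subtype_le (fun x : J → ZMod 2 => ∑ i, x i = 0)
    omega
  have u1 : (2 : ZMod 5) ^ (2 * 2 ^ k) * (3 * 4 ^ (Fintype.card J - 1)) ^ (2 * 2 ^ k) = 1 := by
    rw [← mul_pow, ← mul_assoc, show (2 * 3 : ZMod 5) = 1 from rfl, one_mul, ← pow_mul, mul_left_comm,
      pow_mul, show (4 : ZMod 5) ^ 2 = 1 from rfl, one_pow]
  have u2 : ((2 : ZMod 5) ^ m) ^ (4 * 2 ^ k) = 1 := by
    rw [← pow_mul, mul_left_comm, pow_mul, show (2 : ZMod 5) ^ 4 = 1 from rfl, one_pow]
  rw [cLR, cR, u1, one_mul] at hb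
  rw [← hb, ← Fintype.sum_prod_type', Nat.cast_sum]
  refine Finset.sum_equiv
    (Equiv.piEquivPiSubtypeProd (fun x : J → ZMod 2 => ∑ i, x i = 0) (fun _ => St J))
    (fun s => by simp only [mem_univ]) (fun s _ => ?_)
  push_cast
  rw [Finset.prod_mul_distrib, Finset.prod_mul_distrib, Finset.prod_const, card_univ, cX, u2,
    mul_one, ← Fintype.prod_subtype_mul_prod_subtype (fun x : J → ZMod 2 => ∑ i, x i = 0),
    ← Fintype.prod_subtype_mul_prod_subtype (fun x : J → ZMod 2 => ∑ i, x i = 0)
      (fun x => ∏ j, (nn (rho j (s x)) (rho j (s (x + uv j))) : ZMod 5))]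
  congr 1
  simp only [En, Finset.prod_mul_distrib]
  congr 1
  rw [Finset.prod_comm, Finset.prod_comm (γ := {x : J → ZMod 2 // ∑ i, x i = 0})]
  refine Finset.prod_congr rfl (fun j _ => (Fintype.prod_equiv (flip j) _ _ (fun l => ?_)).symm)
  simp [flip_val, vadd_cancel]

end Pool.Agent.Lib.MP_b90951_co.Five
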