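import Mathlib
import Pool.Agent.Lib.MP_b90951_co.Count

open Pool.Agent.Lib.MP_b90951_co

/-- For every even `n` every multiplicity is at most `2^(20 C(n, n/2))`; for `ψ = 0` the
multiplicity is the number of bent functions. -/
theorem Pool.Agent.Results.MP_b90951_co.MultiplicityBound.result (n : ℕ) (hn : Even n)
    (ψ : BoolFun n) : mult ψ ≤ 2 ^ (20 * n.choose (n / 2)) := by
  obtain ⟨r, rfl⟩ := hn.two_dvd
  rw [show 2 * r / 2 = r by omega]
  refine le_trans ?_ (card_bent_le r)
  rw [mult, ← Set.ncard_coe_finset]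
  apply Set.ncard_le_ncard _ (Finset.finite_toSet _)
  intro f hf
  exact Finset.mem_coe.mpr (mem_bentSet.mpr hf.1)
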