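import Pool.Agent.Lib.MP_b90951_co.NPGeom

/-!
Pointer graphs and the labelling problem that expresses one-in-three satisfiability.
-/

namespace Pool.Agent.Lib.MP_b90951_co.Hard

open Module Finset

/-- Whether the vertex `q` uses the coordinate `s` of the block `b`. -/
def useB (ptr : ℕ → ℕ → ℕ) (q b s : ℕ) : Bool :=
  if q % 2 = 0 then
    (decide (b < 8) && ((ptr q (b / 2)).testBit s == decide (b % 2 = 1))) || decide (b = 8)
  else
    (decide (b < 8) && decide (q / 2 % 4 = b / 2) && (q.testBit s != decide (b % 2 = 1))) ||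
      decide (b = 9)

/-- Whether the vertex `q` uses the coordinate `t`. -/
def useP (a : ℕ) (ptr : ℕ → ℕ → ℕ) (q t : ℕ) : Bool := useB ptr q ((t - 3) / a) ((t - 3) % a)

/-- The value of the vertex `q` at the coordinate `t`. -/
def valP (a q t : ℕ) : ZMod 2 := if (t - 3) / a < 8 then bz q 0 else bz q ((t - 3) % a)

/-- The even vertex `q` points to the odd vertex `q'`. -/
def AdjP (ptr : ℕ → ℕ → ℕ) (q q' : ℕ) : Prop := q % 2 = 0 ∧ q' % 2 = 1 ∧ ptr q (q' / 2 % 4) = q'

theorem bz_ne {q q' u : ℕ} (h : q.testBit u ≠ q'.testBit u) : bz q u ≠ bz q' u := by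
  intro h'
  have := bz_add_eq_one h
  rw [h', zadd_self] at this
  exact zero_ne_one this

theorem blk_div {a b s : ℕ} (hs : s < a) : (3 + (b * a + s) - 3) / a = b := by
  rw [Nat.add_sub_cancel_left, add_comm, Nat.add_mul_div_right _ _ (by omega),
    Nat.div_eq_of_lt hs, zero_add]

theorem blk_mod {a b s : ℕ} (hs : s < a) : (3 + (b * a + s) - 3) % a = s := by
  rw [Nat.add_sub_cancel_left, add_comm, Nat.add_mul_mod_self_right, Nat.mod_eq_of_lt hs]

theorem sep_cross {a : ℕ} {ptr : ℕ → ℕ → ℕ} {q q' : ℕ} (hq : q % 2 = 0) (hq' : q' % 2 = 1)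
    (h1 : ptr q (q' / 2 % 4) < 2 ^ a) (h2 : q' < 2 ^ a) (h : ptr q (q' / 2 % 4) ≠ q') :
    ∃ t, 3 ≤ t ∧ useP a ptr q t = true ∧ useP a ptr q' t = true ∧ valP a q t ≠ valP a q' t := by
  obtain ⟨s, hs, hne⟩ := exists_bit_ne h1 h2 h
  obtain ⟨e, he, hb⟩ : ∃ e, e < 2 ∧ (ptr q (q' / 2 % 4)).testBit s = decide (e = 1) := by
    cases (ptr q (q' / 2 % 4)).testBit s
    · exact ⟨0, by norm_num, rfl⟩
    · exact ⟨1, by norm_num, rfl⟩
  have e1 : (2 * (q' / 2 % 4) + e) / 2 = q' / 2 % 4 := by omega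
  have e2 : (2 * (q' / 2 % 4) + e) % 2 = e := by omega
  have e3 : 2 * (q' / 2 % 4) + e < 8 := by omega
  refine ⟨3 + ((2 * (q' / 2 % 4) + e) * a + s), by omega, ?_, ?_, ?_⟩
  · rw [useP, blk_div hs, blk_mod hs, useB, if_pos hq, e1, e2, hb]
    simp [e3]
  · rw [useP, blk_div hs, blk_mod hs, useB, if_neg (by omega), e1, e2, ← hb]
    simp [e3, hne.symm]
  · rw [valP, valP, blk_div hs, if_pos e3, if_pos e3]
    exact bz_ne (by simp [Nat.testBit_zero, hq, hq'])

theorem ptr_geom (a K : ℕ) (ptr : ℕ → ℕ → ℕ) (nrm : ℕ → ℕ) (ha : 0 < a) (hK : K ≤ 2 ^ a)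
    (hp : ∀ q < K, ∀ s < 4, ptr q s < 2 ^ a)
    (hn : ∀ q, (nrm q).testBit 0 = true ∨ (nrm q).testBit 1 = true ∨ (nrm q).testBit 2 = true)
    (m : ℕ) (hm : m = 13 + 42 * a) :
    (∃ F H : (Fin (2 * m) → ZMod 2) → ℤ, (∀ x, F x = 1 ∨ F x = -1) ∧
      (∀ x, (∃ q < K, ∀ t < m, psi m (useP a ptr) nrm q t x = tgt (useP a ptr) (valP a) q t) →
        H x = -F x) ∧
      (∀ x, (¬ ∃ q < K, ∀ t < m, psi m (useP a ptr) nrm q t x = tgt (useP a ptr) (valP a) q t) →
        H x = F x) ∧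
      (∀ φ, |W F φ| = 2 ^ m) ∧ ∀ φ, |W H φ| = 2 ^ m) ↔
    ∃ γ : ℕ → ℕ → ZMod 2, ∀ q < K, ∀ q' < K, AdjP ptr q q' →
      Good (nrm q) (nrm q') (γ q) (γ q') := by
  refine geom m (3 + 10 * a) a K _ _ nrm (AdjP ptr) (by omega) (by omega) hK ?_ hn ?_ ?_
  · intro q t h
    have h1 : (t - 3) / a < 10 := by
      rw [useP, useB] at h
      split at h <;> simp only [Bool.or_eq_true, Bool.and_eq_true, decide_eq_true_eq] at h <;>
        omega
    rw [Nat.div_lt_iff_lt_mul ha] at h1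
    omega
  · rintro q q' ⟨h1, h2, h3⟩
    refine ⟨h1, h2, fun t _ ⟨h4, h5⟩ => ?_⟩
    rw [useP, useB, if_pos h1] at h4
    rw [useP, useB, if_neg (by omega)] at h5
    simp only [Bool.or_eq_true, Bool.and_eq_true, decide_eq_true_eq, beq_iff_eq, bne_iff_ne]
      at h4 h5
    rcases h4 with ⟨h4, h6⟩ | h4 <;> rcases h5 with ⟨⟨h5, h7⟩, h8⟩ | h5
    · rw [← h7, h3] at h6
      exact h8 h6
    all_goals omega
  · intro q hq q' hq' hne
    have hq1 : q < 2 ^ a := lt_of_lt_of_le hq hK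
    have hq2 : q' < 2 ^ a := lt_of_lt_of_le hq' hK
    by_cases hpar : q % 2 = q' % 2
    · obtain ⟨s, hs, h⟩ := exists_bit_ne hq1 hq2 hne
      refine Or.inr (Or.inr ⟨3 + ((8 + q % 2) * a + s), by omega, ?_, ?_, ?_⟩)
      · rw [useP, blk_div hs, blk_mod hs, useB]
        split <;> simp only [Bool.or_eq_true, decide_eq_true_eq] <;> right <;> omega
      · rw [useP, blk_div hs, blk_mod hs, useB]
        split <;> simp only [Bool.or_eq_true, decide_eq_true_eq] <;> right <;> omega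
      · rw [valP, valP, blk_div hs, blk_mod hs, if_neg (by omega), if_neg (by omega)]
        exact bz_ne h
    rcases Nat.mod_two_eq_zero_or_one q with h0 | h0
    · by_cases h : ptr q (q' / 2 % 4) = q'
      · exact Or.inl ⟨h0, by omega, h⟩
      · exact Or.inr (Or.inr (sep_cross h0 (by omega) (hp q hq _ (by omega)) hq2 h))
    · by_cases h : ptr q' (q / 2 % 4) = q
      · exact Or.inr (Or.inl ⟨by omega, h0, h⟩)
      · obtain ⟨t, h1, h2, h3, h4⟩ := sep_cross (by omega) h0 (hp q' hq' _ (by omega)) hq1 h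
        exact Or.inr (Or.inr ⟨t, h1, h3, h2, h4.symm⟩)

/-- The index of the variable in slot `s` of the constraint of kind `k` and number `j`. -/
def argC (cl : ℕ → ℕ × ℕ × ℕ) (k j s : ℕ) : ℕ :=
  if k = 0 then (if s = 3 then 1 else j) else if k = 1 then (if s = 2 then 1 else j)
  else if s = 1 then (cl j).1 else if s = 2 then (cl j).2.1 else (cl j).2.2

/-- The pointers of the even vertices. -/
def ptrC (cl : ℕ → ℕ × ℕ × ℕ) (q s : ℕ) : ℕ :=
  if s = 0 then (if q / 2 % 4 < 2 then 0 else 1)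
  else if q / 2 % 4 = 3 then (if s = q / 8 % 3 + 1 then 2 * s + 1 else 0)
  else 8 * argC cl (q / 2 % 4) (q / 8) s + 2 * s + 1

/-- The normal vector of the plane of a vertex. -/
def nrmC (q : ℕ) : ℕ :=
  if q % 2 = 0 then (if q / 2 % 4 = 3 then 1 + 2 * (q / 8 % 3 + 1) else 1)
  else if q / 2 % 4 = 0 then 1 else 2 * (q / 2 % 4)

/-- The value of a label in the direction number `s`. -/
def dv (s : ℕ) (c : ℕ → ZMod 2) : ZMod 2 := if s = 1 then c 2 else if s = 2 then c 1 else c 1 + c 2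

theorem good_dir {s : ℕ} (hs : s = 1 ∨ s = 2 ∨ s = 3) (c c' : ℕ → ZMod 2) :
    (Good 1 (2 * s) c c' ↔ dv s c ≠ dv s c') ∧ (Good (1 + 2 * s) (2 * s) c c' ↔ dv s c ≠ dv s c') ∧
      (Good (1 + 2 * s) 1 c c' ↔ dv s c ≠ dv s c') := by
  unfold Good dv
  generalize c 0 = c0
  generalize c 1 = c1
  generalize c 2 = c2
  generalize c' 0 = d0
  generalize c' 1 = d1
  generalize c' 2 = d2
  revert c0 c1 c2 d0 d1 d2
  rcases hs with rfl | rfl | rfl <;> decide

theorem good_full (c c' : ℕ → ZMod 2) :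
    Good 1 1 c c' ↔ (dv 1 c ≠ dv 1 c' ∨ dv 2 c ≠ dv 2 c') := by
  unfold Good dv
  generalize c 0 = c0
  generalize c 1 = c1
  generalize c 2 = c2
  generalize c' 0 = d0
  generalize c' 1 = d1
  generalize c' 2 = d2
  revert c0 c1 c2 d0 d1 d2
  decide

theorem dv_three (c : ℕ → ZMod 2) : dv 3 c = dv 1 c + dv 2 c := by simp [dv, add_comm]

/-- A label with value `e` in the direction number `s`. -/
def lab (s : ℕ) (e : ZMod 2) : ℕ → ZMod 2 :=
  fun i => if i = 1 then e else if s = 3 then 0 else e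

theorem dv_lab {s : ℕ} (hs : s = 1 ∨ s = 2 ∨ s = 3) (e : ZMod 2) : dv s (lab s e) = e := by
  rcases hs with rfl | rfl | rfl <;> simp [dv, lab]

theorem nrmC_bit (q : ℕ) :
    (nrmC q).testBit 0 = true ∨ (nrmC q).testBit 1 = true ∨ (nrmC q).testBit 2 = true := by
  unfold nrmC
  have h1 : q / 8 % 3 < 3 := by omega
  have h2 : q / 2 % 4 < 4 := by omega
  generalize q / 8 % 3 = x at h1 ⊢
  generalize q / 2 % 4 = y at h2 ⊢
  split <;> interval_cases x <;> interval_cases y <;> decide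

theorem argC_lt {cl : ℕ → ℕ × ℕ × ℕ} {nv : ℕ} (hnv : 3 ≤ nv)
    (hcl : ∀ j < nv, (cl j).1 < nv ∧ (cl j).2.1 < nv ∧ (cl j).2.2 < nv) (k s : ℕ) {j : ℕ}
    (hj : j < nv) : argC cl k j s < nv := by
  have := hcl j hj
  unfold argC
  split_ifs <;> omega

theorem ptrC_lt {cl : ℕ → ℕ × ℕ × ℕ} {nv : ℕ} (hnv : 3 ≤ nv)
    (hcl : ∀ j < nv, (cl j).1 < nv ∧ (cl j).2.1 < nv ∧ (cl j).2.2 < nv) {q s : ℕ}
    (hq : q < 8 * nv) (hs : s < 4) : ptrC cl q s < 8 * nv := by
  have := argC_lt hnv hcl (q / 2 % 4) s (show q / 8 < nv by omega)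
  unfold ptrC
  split_ifs <;> omega

set_option synthInstance.maxSize 1024 in
theorem csp (cl : ℕ → ℕ × ℕ × ℕ) (nv : ℕ) (hnv : 3 ≤ nv)
    (hcl : ∀ j < nv, (cl j).1 < nv ∧ (cl j).2.1 < nv ∧ (cl j).2.2 < nv) :
    (∃ γ : ℕ → ℕ → ZMod 2, ∀ q < 8 * nv, ∀ q' < 8 * nv, AdjP (ptrC cl) q q' →
      Good (nrmC q) (nrmC q') (γ q) (γ q')) ↔
    ∃ x : ℕ → ZMod 2, x 0 = 0 ∧ x 1 = 1 ∧ ∀ j < nv,
      x (cl j).1 + x (cl j).2.1 + x (cl j).2.2 = 1 ∧ ¬ (x (cl j).1 = 1 ∧ x (cl j).2.1 = 1) := by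
  constructor
  · rintro ⟨γ, hγ⟩
    have n1 : nrmC 1 = 1 := rfl
    have hZ : ∀ s, s = 1 ∨ s = 2 ∨ s = 3 → dv s (γ (2 * s + 1)) = dv s (γ 1) := by
      intro s hs
      have h1 := hγ (8 * (s - 1) + 6) (by omega) 1 (by omega)
        (by rcases hs with rfl | rfl | rfl <;> simp [AdjP, ptrC])
      have h2 := hγ (8 * (s - 1) + 6) (by omega) (2 * s + 1) (by omega)
        (by rcases hs with rfl | rfl | rfl <;> simp [AdjP, ptrC])
      have e1 : nrmC (8 * (s - 1) + 6) = 1 + 2 * s := by rcases hs with rfl | rfl | rfl <;> rfl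
      have e2 : nrmC (2 * s + 1) = 2 * s := by rcases hs with rfl | rfl | rfl <;> rfl
      rw [e1, n1, (good_dir hs _ _).2.2] at h1
      rw [e1, e2, (good_dir hs _ _).2.1] at h2
      revert h1 h2
      generalize dv s (γ (8 * (s - 1) + 6)) = a
      generalize dv s (γ (2 * s + 1)) = b
      generalize dv s (γ 1) = c
      revert a b c
      decide
    have hW : ∀ k < 3, ∀ j < nv, ∀ s, s = 1 ∨ s = 2 ∨ s = 3 →
        dv s (γ (8 * j + 2 * k)) ≠ dv s (γ (8 * argC cl k j s + 2 * s + 1)) := by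
      intro k hk j hj s hs
      have h0 := argC_lt hnv hcl k s hj
      have e0 : (8 * j + 2 * k) / 2 % 4 = k := by omega
      have e1 : (8 * j + 2 * k) / 8 = j := by omega
      have e2 : (8 * argC cl k j s + 2 * s + 1) / 2 % 4 = s := by omega
      have h1 := hγ (8 * j + 2 * k) (by omega) (8 * argC cl k j s + 2 * s + 1) (by omega)
        ⟨by omega, by omega, by
          rw [e2, ptrC, if_neg (by omega), e0, if_neg (by omega), e1]⟩
      have e3 : nrmC (8 * j + 2 * k) = 1 := by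
        rw [nrmC, if_pos (by omega), if_neg (by omega)]
      have e4 : nrmC (8 * argC cl k j s + 2 * s + 1) = 2 * s := by
        rw [nrmC, if_neg (by omega), if_neg (by omega), e2]
      rwa [e3, e4, (good_dir hs _ _).1] at h1
    have hpar : ∀ k < 3, ∀ j < nv, dv 1 (γ (8 * argC cl k j 1 + 3)) +
        dv 2 (γ (8 * argC cl k j 2 + 5)) + dv 3 (γ (8 * argC cl k j 3 + 7)) = 1 := by
      intro k hk j hj
      have h1 := hW k hk j hj 1 (by omega)
      have h2 := hW k hk j hj 2 (by omega)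
      have h3 := hW k hk j hj 3 (by omega)
      rw [dv_three] at h3
      revert h1 h2 h3
      simp only [add_assoc, Nat.reduceMul, Nat.reduceAdd]
      generalize dv 1 (γ (8 * j + 2 * k)) = a
      generalize dv 2 (γ (8 * j + 2 * k)) = b
      generalize dv 1 (γ (8 * argC cl k j 1 + 3)) = c
      generalize dv 2 (γ (8 * argC cl k j 2 + 5)) = d
      generalize dv 3 (γ (8 * argC cl k j 3 + 7)) = e
      revert a b c d e
      decide
    have hE0 : ∀ j < nv, dv 1 (γ (8 * j + 3)) + dv 2 (γ (8 * j + 5)) + dv 3 (γ 15) = 1 :=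
      fun j hj => hpar 0 (by omega) j hj
    have hE1 : ∀ j < nv, dv 1 (γ (8 * j + 3)) + dv 2 (γ 13) + dv 3 (γ (8 * j + 7)) = 1 :=
      fun j hj => hpar 1 (by omega) j hj
    have z1 : dv 1 (γ 3) = dv 1 (γ 1) := hZ 1 (by omega)
    have z2 : dv 2 (γ 5) = dv 2 (γ 1) := hZ 2 (by omega)
    have z3 : dv 3 (γ 7) = dv 1 (γ 1) + dv 2 (γ 1) := (hZ 3 (by omega)).trans (dv_three _)
    have o3 : dv 1 (γ 3) + dv 2 (γ 5) + dv 3 (γ 15) = 1 := hE0 0 (by omega)
    have o2 : dv 1 (γ 3) + dv 2 (γ 13) + dv 3 (γ 7) = 1 := hE1 0 (by omega)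
    have o1 : dv 1 (γ 11) + dv 2 (γ 13) + dv 3 (γ 15) = 1 := hE0 1 (by omega)
    rw [z1, z2] at o3
    rw [z1, z3] at o2
    refine ⟨fun v => dv 1 (γ (8 * v + 3)) + dv 1 (γ 1), ?_, ?_, fun j hj => ?_⟩
    · change dv 1 (γ 3) + dv 1 (γ 1) = 0
      rw [z1, zadd_self]
    · change dv 1 (γ 11) + dv 1 (γ 1) = 1
      revert o1 o2 o3
      generalize dv 1 (γ 11) = a
      generalize dv 2 (γ 13) = b
      generalize dv 3 (γ 15) = c
      generalize dv 1 (γ 1) = d
      generalize dv 2 (γ 1) = e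
      revert a b c d e
      decide
    · obtain ⟨c1, c2, c3⟩ := hcl j hj
      have h1 : dv 1 (γ (8 * j + 4)) ≠ dv 1 (γ (8 * (cl j).1 + 3)) := hW 2 (by omega) j hj 1 (by omega)
      have h2 : dv 2 (γ (8 * j + 4)) ≠ dv 2 (γ (8 * (cl j).2.1 + 5)) :=
        hW 2 (by omega) j hj 2 (by omega)
      have h3 : dv 1 (γ (8 * (cl j).1 + 3)) + dv 2 (γ (8 * (cl j).2.1 + 5)) +
          dv 3 (γ (8 * (cl j).2.2 + 7)) = 1 := hpar 2 (by omega) j hj
      have h4 := hγ (8 * j + 4) (by omega) 1 (by omega)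
        ⟨by omega, rfl, by rw [ptrC, if_pos rfl, if_neg (by omega)]⟩
      have e3 : nrmC (8 * j + 4) = 1 := by rw [nrmC, if_pos (by omega), if_neg (by omega)]
      rw [e3, n1, good_full] at h4
      have h5 := hE0 _ c2
      have h6 := hE1 _ c3
      revert h1 h2 h3 h4 h5 h6 o2 o3
      beta_reduce
      generalize dv 1 (γ (8 * j + 4)) = a1
      generalize dv 2 (γ (8 * j + 4)) = a2
      generalize dv 1 (γ (8 * (cl j).1 + 3)) = b1
      generalize dv 2 (γ (8 * (cl j).2.1 + 5)) = b2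
      generalize dv 3 (γ (8 * (cl j).2.2 + 7)) = b3
      generalize dv 1 (γ (8 * (cl j).2.1 + 3)) = b4
      generalize dv 1 (γ (8 * (cl j).2.2 + 3)) = b5
      generalize dv 2 (γ 13) = d2
      generalize dv 3 (γ 15) = d3
      generalize dv 1 (γ 1) = g1
      generalize dv 2 (γ 1) = g2
      revert a1 a2 b1 b2 b3 b4 b5
      rcases two_cases d2 with rfl | rfl <;> rcases two_cases d3 with rfl | rfl <;>
        rcases two_cases g1 with rfl | rfl <;> rcases two_cases g2 with rfl | rfl <;> decide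
  · rintro ⟨x, x0, x1, hx⟩
    have hpar : ∀ k, ∀ j < nv,
        x (argC cl k j 1) + x (argC cl k j 2) + x (argC cl k j 3) = 1 := by
      intro k j hj
      unfold argC
      split_ifs <;> first | omega | skip
      · rw [zadd_self, x1, zero_add]
      · rw [add_right_comm, zadd_self, x1, zero_add]
      · exact (hx j hj).1
    set γ : ℕ → ℕ → ZMod 2 := fun q => if q % 2 = 1 then
      (if q / 2 % 4 = 0 then fun _ => 0 else lab (q / 2 % 4) (x (q / 8)))
      else if q / 2 % 4 = 3 then lab (q / 8 % 3 + 1) 1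
      else fun i => if i = 1 then 1 + x (argC cl (q / 2 % 4) (q / 8) 2)
        else 1 + x (argC cl (q / 2 % 4) (q / 8) 1) with hγ
    have g1 : ∀ s, dv s (γ 1) = 0 := by intro s; simp [hγ, dv]
    have n1 : nrmC 1 = 1 := rfl
    refine ⟨γ, ?_⟩
    rintro q hq q' - ⟨h1, h2, h3⟩
    have hj : q / 8 < nv := by omega
    by_cases hk : q / 2 % 4 = 3
    · have hs : q / 8 % 3 + 1 = 1 ∨ q / 8 % 3 + 1 = 2 ∨ q / 8 % 3 + 1 = 3 := by omega
      have e1 : nrmC q = 1 + 2 * (q / 8 % 3 + 1) := by rw [nrmC, if_pos h1, if_pos hk]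
      have e2 : dv (q / 8 % 3 + 1) (γ q) = 1 := by
        simp only [hγ]
        rw [if_neg (by omega), if_pos hk, dv_lab hs]
      by_cases h0 : q' / 2 % 4 = 0
      · rw [ptrC, if_pos h0, if_neg (by omega)] at h3
        rw [← h3, e1, n1, (good_dir hs _ _).2.2, e2, g1]
        exact one_ne_zero
      · rw [ptrC, if_neg h0, if_pos hk] at h3
        have h4 : q' / 2 % 4 = q / 8 % 3 + 1 := by split at h3 <;> omega
        rw [if_pos h4] at h3
        have e3 : nrmC q' = 2 * (q / 8 % 3 + 1) := by rw [nrmC, if_neg (by omega), if_neg h0, h4]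
        have e4 : dv (q / 8 % 3 + 1) (γ q') = 0 := by
          simp only [hγ]
          rw [if_pos h2, if_neg h0, h4, dv_lab hs, show q' / 8 = 0 by omega, x0]
        rw [e1, e3, (good_dir hs _ _).2.1, e2, e4]
        exact one_ne_zero
    · have e1 : nrmC q = 1 := by rw [nrmC, if_pos h1, if_neg hk]
      have e2 : ∀ s, s = 1 ∨ s = 2 ∨ s = 3 →
          dv s (γ q) = 1 + x (argC cl (q / 2 % 4) (q / 8) s) := by
        have a1 : dv 1 (γ q) = 1 + x (argC cl (q / 2 % 4) (q / 8) 1) := by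
          simp only [hγ]
          rw [if_neg (by omega), if_neg hk]; simp [dv]
        have a2 : dv 2 (γ q) = 1 + x (argC cl (q / 2 % 4) (q / 8) 2) := by
          simp only [hγ]
          rw [if_neg (by omega), if_neg hk]; simp [dv]
        rintro s (rfl | rfl | rfl)
        · exact a1
        · exact a2
        · rw [dv_three, a1, a2]
          have := hpar (q / 2 % 4) _ hj
          revert this
          generalize x (argC cl (q / 2 % 4) (q / 8) 1) = a
          generalize x (argC cl (q / 2 % 4) (q / 8) 2) = b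
          generalize x (argC cl (q / 2 % 4) (q / 8) 3) = c
          revert a b c
          decide
      by_cases h0 : q' / 2 % 4 = 0
      · rw [ptrC, if_pos h0] at h3
        have h4 : q / 2 % 4 = 2 := by split at h3 <;> omega
        rw [if_neg (by omega)] at h3
        rw [← h3, e1, n1, good_full, e2 1 (by omega), e2 2 (by omega), g1, g1, h4]
        have := (hx _ hj).2
        change _ ≠ _ ∨ _ ≠ _
        simp only [argC]
        norm_num
        revert this
        generalize x (cl (q / 8)).1 = a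
        generalize x (cl (q / 8)).2.1 = b
        revert a b
        decide
      · rw [ptrC, if_neg h0, if_neg hk] at h3
        have hs : q' / 2 % 4 = 1 ∨ q' / 2 % 4 = 2 ∨ q' / 2 % 4 = 3 := by omega
        have e3 : nrmC q' = 2 * (q' / 2 % 4) := by rw [nrmC, if_neg (by omega), if_neg h0]
        have e4 : dv (q' / 2 % 4) (γ q') = x (argC cl (q / 2 % 4) (q / 8) (q' / 2 % 4)) := by
          simp only [hγ]
          rw [if_pos h2, if_neg h0, dv_lab hs]
          congr 1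
          omega
        rw [e1, e3, (good_dir hs _ _).1, e2 _ hs, e4]
        generalize x (argC cl (q / 2 % 4) (q / 8) (q' / 2 % 4)) = a
        revert a
        decide

end Pool.Agent.Lib.MP_b90951_co.Hard
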