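import Mathlib

/-!
Walsh transforms of integer functions on a finite vector space over the field with two elements:
character sums over subspaces, Poisson summation and transforms of flats.
-/

namespace Pool.Agent.Lib.MP_b90951_co.Hard

open Module Finset

/-- The sign character of the field with two elements. -/
def sg (t : ZMod 2) : ℤ := (-1) ^ t.val

theorem sg_add (s t : ZMod 2) : sg (s + t) = sg s * sg t := by revert s t; decide

@[simp] theorem sg_zero : sg 0 = 1 := by decide

@[simp] theorem sg_one : sg 1 = -1 := by decide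

theorem sg_cases (t : ZMod 2) : sg t = 1 ∨ sg t = -1 := by revert t; decide

theorem sg_mul_self (t : ZMod 2) : sg t * sg t = 1 := by revert t; decide

theorem two_cases (t : ZMod 2) : t = 0 ∨ t = 1 := by revert t; decide

theorem zadd_self (t : ZMod 2) : t + t = 0 := by revert t; decide

theorem zadd_eq_zero {s t : ZMod 2} : s + t = 0 ↔ s = t := by revert s t; decide

section General

variable {G : Type*} [AddCommGroup G] [Module (ZMod 2) G]

theorem vadd_self (x : G) : x + x = 0 := by
  have h : (2 : ZMod 2) • x = x + x := two_smul _ _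
  rw [← h, show (2 : ZMod 2) = 0 from rfl, zero_smul]

theorem vadd_cancel (x y : G) : x + y + y = x := by rw [add_assoc, vadd_self, add_zero]

open Classical in
/-- The indicator function of a subspace. -/
noncomputable def ind (U : Submodule (ZMod 2) G) (x : G) : ℤ := if x ∈ U then 1 else 0

theorem ind_of_mem {U : Submodule (ZMod 2) G} {x : G} (h : x ∈ U) : ind U x = 1 := by simp [ind, h]

theorem ind_of_not {U : Submodule (ZMod 2) G} {x : G} (h : x ∉ U) : ind U x = 0 := by simp [ind, h]

theorem ind_nonneg (U : Submodule (ZMod 2) G) (x : G) : 0 ≤ ind U x := by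
  unfold ind; split <;> norm_num

theorem ind_congr {U U' : Submodule (ZMod 2) G} {x y : G} (h : x ∈ U ↔ y ∈ U') :
    ind U x = ind U' y := by
  by_cases hx : x ∈ U
  · rw [ind_of_mem hx, ind_of_mem (h.1 hx)]
  · rw [ind_of_not hx, ind_of_not (fun hy => hx (h.2 hy))]

theorem ind_inf (U U' : Submodule (ZMod 2) G) (x : G) : ind (U ⊓ U') x = ind U x * ind U' x := by
  by_cases hx : x ∈ U
  · rw [ind_of_mem hx, one_mul]
    exact ind_congr ⟨fun h => h.2, fun h => ⟨hx, h⟩⟩
  · rw [ind_of_not hx, zero_mul]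
    exact ind_of_not (fun h => hx h.1)

theorem add_mem_iff' {U : Submodule (ZMod 2) G} {u : G} (hu : u ∈ U) (x : G) :
    x + u ∈ U ↔ x ∈ U := ⟨fun h => by simpa [vadd_cancel] using U.add_mem h hu,
      fun h => U.add_mem h hu⟩

theorem ind_add {U : Submodule (ZMod 2) G} {u : G} (hu : u ∈ U) (x : G) :
    ind U (x + u) = ind U x := by
  exact ind_congr (add_mem_iff' hu x)

variable [Fintype G]

theorem sum_ind (U : Submodule (ZMod 2) G) : ∑ x, ind U x = 2 ^ finrank (ZMod 2) U := by
  classical
  have h : Fintype.card U = 2 ^ finrank (ZMod 2) U := by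
    rw [Module.card_eq_pow_finrank (K := ZMod 2), ZMod.card]
  have h2 : ∑ x, ind U x = ((univ.filter (fun x => x ∈ U)).card : ℤ) := by
    rw [Finset.card_filter]; push_cast
    exact Finset.sum_congr rfl (fun x _ => by unfold ind; congr)
  rw [h2, ← Fintype.card_subtype, h]; push_cast; rfl

omit [Module (ZMod 2) G] in
theorem sum_shift (g : G → ℤ) (p : G) : ∑ x, g (x + p) = ∑ x, g x :=
  Fintype.sum_equiv (Equiv.addRight p) _ _ (fun _ => rfl)

theorem sum_ind_shift (U : Submodule (ZMod 2) G) (p : G) :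
    ∑ x, ind U (x + p) = 2 ^ finrank (ZMod 2) U := by
  rw [sum_shift (ind U) p, sum_ind]

theorem sum_char_zero (U : Submodule (ZMod 2) G) (θ : G →ₗ[ZMod 2] ZMod 2) {u : G} (hu : u ∈ U)
    (h : θ u ≠ 0) : ∑ x, ind U x * sg (θ x) = 0 := by
  have h1 : θ u = 1 := (two_cases _).resolve_left h
  have h2 := sum_shift (fun x => ind U x * sg (θ x)) u
  have h3 : ∑ x, ind U (x + u) * sg (θ (x + u)) = -∑ x, ind U x * sg (θ x) := by
    rw [← Finset.sum_neg_distrib]
    refine Finset.sum_congr rfl (fun x _ => ?_)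
    rw [ind_add hu, map_add, sg_add, h1, sg_one]; ring
  omega

theorem sum_char_full (U : Submodule (ZMod 2) G) (θ : G →ₗ[ZMod 2] ZMod 2)
    (h : ∀ u ∈ U, θ u = 0) : ∑ x, ind U x * sg (θ x) = 2 ^ finrank (ZMod 2) U := by
  rw [← sum_ind]
  refine Finset.sum_congr rfl (fun x _ => ?_)
  by_cases hx : x ∈ U
  · rw [h x hx, sg_zero, mul_one]
  · rw [ind_of_not hx, zero_mul]

end General

variable {V : Type*} [AddCommGroup V] [Module (ZMod 2) V] [Fintype V]

/-- The unnormalised Walsh transform. -/
def W (g : V → ℤ) (φ : Dual (ZMod 2) V) : ℤ := ∑ x, g x * sg (φ x)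

theorem sum_primal (U : Submodule (ZMod 2) V) (φ : Dual (ZMod 2) V) :
    ∑ x, ind U x * sg (φ x) = 2 ^ finrank (ZMod 2) U * ind U.dualAnnihilator φ := by
  by_cases h : φ ∈ U.dualAnnihilator
  · rw [ind_of_mem h, mul_one]
    exact sum_char_full U φ ((Submodule.mem_dualAnnihilator φ).1 h)
  · rw [ind_of_not h, mul_zero]
    rw [Submodule.mem_dualAnnihilator] at h
    push Not at h
    obtain ⟨u, hu, h⟩ := h
    exact sum_char_zero U φ hu h

/-- The transform of a character restricted to a flat. -/
theorem W_flat (U : Submodule (ZMod 2) V) (p : V) (e : ℤ) (c φ : Dual (ZMod 2) V) :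
    W (fun x => ind U (x + p) * (e * sg (c x))) φ =
      e * sg ((φ + c) p) * (2 ^ finrank (ZMod 2) U * ind U.dualAnnihilator (φ + c)) := by
  rw [← sum_primal, Finset.mul_sum, W, ← sum_shift _ p]
  refine Finset.sum_congr rfl (fun x _ => ?_)
  simp only [vadd_cancel, map_add, LinearMap.add_apply, sg_add]
  ring

theorem W_sum {ι : Type*} (s : Finset ι) (g : ι → V → ℤ) (φ : Dual (ZMod 2) V) :
    W (fun x => ∑ i ∈ s, g i x) φ = ∑ i ∈ s, W (g i) φ := by
  simp only [W, Finset.sum_mul]
  exact Finset.sum_comm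

theorem W_add (g h : V → ℤ) (φ : Dual (ZMod 2) V) :
    W (fun x => g x + h x) φ = W g φ + W h φ := by
  simp only [W, add_mul, Finset.sum_add_distrib]

/-- Shifting the character by an annihilator of the direction of a flat changes only the sign. -/
theorem W_shift (U : Submodule (ZMod 2) V) (p : V) (F : V → ℤ) (φ : Dual (ZMod 2) V)
    {b : Dual (ZMod 2) V} (hb : b ∈ U.dualAnnihilator) :
    W (fun x => ind U (x + p) * F x) (φ + b) = sg (b p) * W (fun x => ind U (x + p) * F x) φ := by
  simp only [W, Finset.mul_sum]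
  refine Finset.sum_congr rfl (fun x _ => ?_)
  by_cases hx : x + p ∈ U
  · have h := (Submodule.mem_dualAnnihilator b).1 hb _ hx
    rw [map_add, zadd_eq_zero] at h
    rw [LinearMap.add_apply, sg_add, h]; ring
  · rw [ind_of_not hx]; ring

variable [Fintype (Dual (ZMod 2) V)]

omit [Fintype V] in
theorem sum_dual (U : Submodule (ZMod 2) V) (x : V) :
    ∑ φ, ind U.dualAnnihilator φ * sg (φ x) =
      2 ^ finrank (ZMod 2) U.dualAnnihilator * ind U x := by
  by_cases h : x ∈ U
  · rw [ind_of_mem h, mul_one]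
    exact sum_char_full U.dualAnnihilator (Dual.eval (ZMod 2) V x)
      (fun φ hφ => (Submodule.mem_dualAnnihilator φ).1 hφ x h)
  · rw [ind_of_not h, mul_zero]
    rw [← Subspace.forall_mem_dualAnnihilator_apply_eq_zero_iff] at h
    push Not at h
    obtain ⟨φ, hφ, h⟩ := h
    exact sum_char_zero U.dualAnnihilator (Dual.eval (ZMod 2) V x) hφ h

/-- Poisson summation. -/
theorem poisson (U : Submodule (ZMod 2) V) (p : V) (g : V → ℤ) (φ : Dual (ZMod 2) V) :
    ∑ b, ind U.dualAnnihilator b * (sg (b p) * W g (φ + b)) =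
      2 ^ finrank (ZMod 2) U.dualAnnihilator * W (fun x => ind U (x + p) * g x) φ := by
  simp only [W, Finset.mul_sum]
  rw [Finset.sum_comm]
  refine Finset.sum_congr rfl (fun x _ => ?_)
  have h := sum_dual U (x + p)
  calc ∑ b, ind U.dualAnnihilator b * (sg (b p) * (g x * sg ((φ + b) x)))
      = ∑ b, g x * sg (φ x) * (ind U.dualAnnihilator b * sg (b (x + p))) := by
        refine Finset.sum_congr rfl (fun b _ => ?_)
        rw [LinearMap.add_apply, map_add, sg_add, sg_add]; ring
    _ = _ := by rw [← Finset.mul_sum, h]; ring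

/-- The energy of the transform of a function on a flat along a coset of an annihilator. -/
theorem coset_energy (U U' : Submodule (ZMod 2) V) (p : V) (F : V → ℤ)
    (hF : ∀ x, F x = 1 ∨ F x = -1) (φ : Dual (ZMod 2) V) :
    ∑ b, ind U.dualAnnihilator b * W (fun x => ind U' (x + p) * F x) (φ + b) ^ 2 ≤
      2 ^ finrank (ZMod 2) U.dualAnnihilator * (2 ^ finrank (ZMod 2) U' *
        2 ^ finrank (ZMod 2) (U ⊓ U' : Submodule (ZMod 2) V)) := by
  have e1 : ∑ b, ind U.dualAnnihilator b * W (fun x => ind U' (x + p) * F x) (φ + b) ^ 2 =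
      ∑ x, ∑ y, (ind U' (x + p) * F x * sg (φ x)) * (ind U' (y + p) * F y * sg (φ y)) *
        (2 ^ finrank (ZMod 2) U.dualAnnihilator * ind U (x + y)) := by
    simp only [W, sq, Finset.sum_mul_sum, ← sum_dual]
    simp only [Finset.mul_sum]
    rw [Finset.sum_comm]
    refine Finset.sum_congr rfl (fun x _ => ?_)
    rw [Finset.sum_comm]
    refine Finset.sum_congr rfl (fun y _ => Finset.sum_congr rfl (fun b _ => ?_))
    simp only [LinearMap.add_apply, map_add, sg_add]; ring
  have e2 : ∀ x, ∑ y, ind U' (x + p) * (ind U' (y + p) * ind U (x + y)) =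
      ind U' (x + p) * 2 ^ finrank (ZMod 2) (U ⊓ U' : Submodule (ZMod 2) V) := by
    intro x
    by_cases hx : x + p ∈ U'
    · rw [← Finset.mul_sum, ← sum_ind_shift (U ⊓ U') x]
      congr 1
      refine Finset.sum_congr rfl (fun y _ => ?_)
      have h1 : y + p ∈ U' ↔ y + x ∈ U' := by
        rw [← add_mem_iff' hx (y + p)]
        have : y + p + (x + p) = y + x := by
          rw [add_add_add_comm, vadd_self, add_zero]
        rw [this]
      rw [ind_inf, ind_congr h1, add_comm x y, mul_comm]
    · simp [ind_of_not hx]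
  rw [e1, ← sum_ind_shift U' p, Finset.sum_mul, Finset.mul_sum]
  refine Finset.sum_le_sum (fun x _ => ?_)
  rw [← e2, Finset.mul_sum]
  refine Finset.sum_le_sum (fun y _ => ?_)
  have hp : (0 : ℤ) ≤ 2 ^ finrank (ZMod 2) U.dualAnnihilator * (ind U' (x + p) *
      (ind U' (y + p) * ind U (x + y))) :=
    mul_nonneg (by positivity) (mul_nonneg (ind_nonneg _ _)
      (mul_nonneg (ind_nonneg _ _) (ind_nonneg _ _)))
  rcases hF x with h1 | h1 <;> rcases hF y with h2 | h2 <;> rcases sg_cases (φ x) with h3 | h3 <;>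
    rcases sg_cases (φ y) with h4 | h4 <;> rw [h1, h2, h3, h4] <;> linarith

end Pool.Agent.Lib.MP_b90951_co.Hard
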