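import Pool.Agent.Lib.MP_b90951_co.NPFourier

/-!
Double tilings: bent functions that are characters on the flats of a partition of the space.
-/

namespace Pool.Agent.Lib.MP_b90951_co.Hard

open Module Finset

variable {V : Type*} [AddCommGroup V] [Module (ZMod 2) V] [Fintype V]

open Classical in
theorem card_flat {G : Type*} [AddCommGroup G] [Module (ZMod 2) G] [Fintype G]
    (U : Submodule (ZMod 2) G) (p : G) :
    (univ.filter (fun x => x + p ∈ U)).card = 2 ^ finrank (ZMod 2) U := by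
  have h := sum_ind_shift U p
  have h2 : ∑ x, ind U (x + p) = ((univ.filter (fun x => x + p ∈ U)).card : ℤ) := by
    rw [Finset.card_filter]; push_cast
    exact Finset.sum_congr rfl (fun x _ => by unfold ind; congr)
  rw [h2] at h
  exact_mod_cast h

variable [Fintype (Dual (ZMod 2) V)]

/-- A union of cosets of `U` and a union of as many cosets of its annihilator can be matched. -/
theorem tile (m : ℕ) (U : Submodule (ZMod 2) V) (hU : finrank (ZMod 2) U = m)
    (hUd : finrank (ZMod 2) U.dualAnnihilator = m) (n : ℕ) :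
    ∀ (S : Finset V) (T : Finset (Dual (ZMod 2) V)), S.card = n → T.card = n →
      (∀ x ∈ S, ∀ u ∈ U, x + u ∈ S) → (∀ φ ∈ T, ∀ b ∈ U.dualAnnihilator, φ + b ∈ T) →
      ∃ g : V → ℤ, (∀ x ∈ S, g x = 1 ∨ g x = -1) ∧ (∀ x ∉ S, g x = 0) ∧
        ∀ ε : V → ℤ, (∀ x, ε x = 1 ∨ ε x = -1) → (∀ x, ∀ u ∈ U, ε (x + u) = ε x) →
          ∀ φ, (φ ∈ T → |W (fun x => ε x * g x) φ| = 2 ^ m) ∧
            (φ ∉ T → W (fun x => ε x * g x) φ = 0) := by
  classical
  induction n using Nat.strong_induction_on with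
  | _ n ih =>
  intro S T hS hT hSi hTi
  rcases Nat.eq_zero_or_pos n with rfl | hn
  · rw [Finset.card_eq_zero] at hS hT
    subst hS hT
    exact ⟨fun _ => 0, by simp, by simp, by simp [W]⟩
  obtain ⟨p, hp⟩ := Finset.card_pos.1 (hS ▸ hn)
  obtain ⟨c, hc⟩ := Finset.card_pos.1 (hT ▸ hn)
  set A := univ.filter (fun x => x + p ∈ U) with hA
  set B := univ.filter (fun φ => φ + c ∈ U.dualAnnihilator) with hB
  have hAS : A ⊆ S := by
    intro x hx
    have h := hSi p hp _ (mem_filter.1 hx).2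
    rwa [add_comm, vadd_cancel] at h
  have hBT : B ⊆ T := by
    intro x hx
    have h := hTi c hc _ (mem_filter.1 hx).2
    rwa [add_comm, vadd_cancel] at h
  have hAc : A.card = 2 ^ m := by
    have := card_flat U p
    rw [hU] at this
    convert this
  have hBc : B.card = 2 ^ m := by
    have := card_flat U.dualAnnihilator c
    rw [hUd] at this
    convert this
  have hpos : 0 < 2 ^ m := by positivity
  obtain ⟨g, hg1, hg0, hg⟩ := ih (n - 2 ^ m) (by omega) (S \ A) (T \ B)
    (by rw [Finset.card_sdiff_of_subset hAS, hS, hAc])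
    (by rw [Finset.card_sdiff_of_subset hBT, hT, hBc])
    (by
      intro x hx u hu
      rw [Finset.mem_sdiff] at hx ⊢
      refine ⟨hSi x hx.1 u hu, fun h => hx.2 ?_⟩
      rw [hA, mem_filter] at h ⊢
      refine ⟨mem_univ _, ?_⟩
      rw [← add_mem_iff' hu, add_right_comm]; exact h.2)
    (by
      intro x hx u hu
      rw [Finset.mem_sdiff] at hx ⊢
      refine ⟨hTi x hx.1 u hu, fun h => hx.2 ?_⟩
      rw [hB, mem_filter] at h ⊢
      refine ⟨mem_univ _, ?_⟩
      rw [← add_mem_iff' hu, add_right_comm]; exact h.2)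
  refine ⟨fun x => g x + ind U (x + p) * sg (c x), fun x hx => ?_, fun x hx => ?_,
    fun ε hε hεi φ => ?_⟩ <;> beta_reduce
  · by_cases hxA : x + p ∈ U
    · rw [hg0 x (fun h => (Finset.mem_sdiff.1 h).2 (mem_filter.2 ⟨mem_univ _, hxA⟩)),
        ind_of_mem hxA, zero_add, one_mul]
      exact sg_cases _
    · rw [ind_of_not hxA, zero_mul, add_zero]
      exact hg1 x (Finset.mem_sdiff.2 ⟨hx, fun h => hxA (mem_filter.1 h).2⟩)
  · rw [hg0 x (fun h => hx (Finset.mem_sdiff.1 h).1),
      ind_of_not (fun h => hx (hAS (mem_filter.2 ⟨mem_univ _, h⟩))), zero_mul, add_zero]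
  · have e1 : (fun x => ε x * (g x + ind U (x + p) * sg (c x))) =
        fun x => ε x * g x + ind U (x + p) * (ε p * sg (c x)) := by
      funext x
      by_cases hxA : x + p ∈ U
      · have := hεi p _ hxA
        rw [add_comm, vadd_cancel] at this
        rw [this]; ring
      · rw [ind_of_not hxA]; ring
    rw [e1, W_add, W_flat, hU]
    obtain ⟨h1, h0⟩ := hg ε hε hεi φ
    by_cases hφ : φ + c ∈ U.dualAnnihilator
    · have hφB : φ ∈ B := mem_filter.2 ⟨mem_univ _, hφ⟩
      rw [h0 (fun h => (Finset.mem_sdiff.1 h).2 hφB), ind_of_mem hφ, zero_add, mul_one]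
      refine ⟨fun _ => ?_, fun h => absurd (hBT hφB) h⟩
      rcases hε p with h | h <;> rcases sg_cases ((φ + c) p) with h' | h' <;> rw [h, h'] <;> simp
    · rw [ind_of_not hφ, mul_zero, mul_zero, add_zero]
      exact ⟨fun h => h1 (Finset.mem_sdiff.2 ⟨h, fun h => hφ (mem_filter.1 h).2⟩),
        fun h => h0 (fun h' => h (Finset.mem_sdiff.1 h').1)⟩

/-- Double tiling theorem. -/
theorem double_tiling {ι : Type*} [Fintype ι] (m : ℕ) (U : ι → Submodule (ZMod 2) V)
    (U0 : Submodule (ZMod 2) V) (p : ι → V) (c : ι → Dual (ZMod 2) V)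
    (hV : finrank (ZMod 2) V = 2 * m) (hU : ∀ i, finrank (ZMod 2) (U i) = m)
    (hU0 : finrank (ZMod 2) U0 = m)
    (hP : ∀ i j, i ≠ j → ∀ x, x + p j ∈ U j ⊔ U0 → x + p i ∉ U i ⊔ U0)
    (hc : ∀ i j, i ≠ j → ∃ v ∈ U i ⊓ U0, v ∈ U j ∧ c i v ≠ c j v) :
    ∃ F H : V → ℤ, (∀ x, F x = 1 ∨ F x = -1) ∧ (∀ x i, x + p i ∈ U i → H x = -F x) ∧
      (∀ x, (∀ i, x + p i ∉ U i) → H x = F x) ∧ (∀ φ, |W F φ| = 2 ^ m) ∧
      ∀ φ, |W H φ| = 2 ^ m := by
  classical
  have hd : ∀ X : Submodule (ZMod 2) V,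
      finrank (ZMod 2) X + finrank (ZMod 2) X.dualAnnihilator = 2 * m := by
    intro X
    rw [Subspace.finrank_add_finrank_dualAnnihilator_eq, hV]
  set S : ι → Finset V := fun i => univ.filter (fun x => x + p i ∈ U i ⊔ U0) with hS
  set T : ι → Finset (Dual (ZMod 2) V) :=
    fun i => univ.filter (fun φ => φ + c i ∈ (U i ⊓ U0).dualAnnihilator) with hT
  have hmS : ∀ i x, x ∈ S i ↔ x + p i ∈ U i ⊔ U0 := by simp [hS]
  have hmT : ∀ i φ, φ ∈ T i ↔ φ + c i ∈ (U i ⊓ U0).dualAnnihilator := by simp [hT]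
  have hcard : ∀ i, (T i).card = (S i).card := by
    intro i
    have h1 := card_flat (U i ⊔ U0) (p i)
    have h2 := card_flat (U i ⊓ U0).dualAnnihilator (c i)
    have h3 := Submodule.finrank_sup_add_finrank_inf_eq (U i) U0
    have h4 := hd (U i ⊓ U0)
    rw [hU, hU0] at h3
    have h5 : finrank (ZMod 2) (U i ⊓ U0).dualAnnihilator =
      finrank (ZMod 2) (U i ⊔ U0 : Submodule (ZMod 2) V) := by omega
    rw [h5, ← h1] at h2
    simp only [hS, hT]
    convert h2
  have hSd : ∀ i j, i ≠ j → ∀ x, x ∈ S j → x ∉ S i := by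
    intro i j hij x hx
    rw [hmS] at hx ⊢
    exact hP i j hij x hx
  have hTd : ∀ i j, i ≠ j → ∀ φ, φ ∈ T j → φ ∉ T i := by
    intro i j hij φ hj hi
    rw [hmT, Submodule.mem_dualAnnihilator] at hi hj
    obtain ⟨v, hv, hv', hne⟩ := hc i j hij
    have h1 := hi v hv
    have h2 := hj v ⟨hv', hv.2⟩
    rw [LinearMap.add_apply, zadd_eq_zero] at h1 h2
    exact hne (h1.symm.trans h2)
  have hSi : ∀ i, ∀ x ∈ S i, ∀ u ∈ U i ⊔ U0, x + u ∈ S i := by
    intro i x hx u hu
    rw [hmS] at hx ⊢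
    rw [add_right_comm]
    exact (U i ⊔ U0).add_mem hx hu
  have hTi : ∀ i, ∀ φ ∈ T i, ∀ b ∈ (U i ⊓ U0).dualAnnihilator, φ + b ∈ T i := by
    intro i x hx u hu
    rw [hmT] at hx ⊢
    rw [add_right_comm]
    exact Submodule.add_mem _ hx hu
  choose g hg1 hg0 hg using fun i => tile m (U i) (hU i) (by have := hd (U i); rw [hU] at this; omega)
    _ (S i) (T i) rfl (hcard i) (fun x hx u hu => hSi i x hx u (Submodule.mem_sup_left hu))
    (fun φ hφ b hb => hTi i φ hφ b (Submodule.dualAnnihilator_anti inf_le_left hb))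
  have hcV : Fintype.card (Dual (ZMod 2) V) = Fintype.card V := by
    rw [Module.card_eq_pow_finrank (K := ZMod 2), Module.card_eq_pow_finrank (K := ZMod 2) (V := V),
      Subspace.dual_finrank_eq]
  obtain ⟨g0, h01, h00, h0⟩ := tile m U0 hU0 (by have := hd U0; rw [hU0] at this; omega) _
    (univ.biUnion S)ᶜ (univ.biUnion T)ᶜ rfl
    (by
      rw [Finset.card_compl, Finset.card_compl, Finset.card_biUnion, Finset.card_biUnion, hcV]
      · simp only [hcard]
      · intro i _ j _ hij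
        exact Finset.disjoint_left.2 (fun x hx => hSd j i hij.symm x hx)
      · intro i _ j _ hij
        exact Finset.disjoint_left.2 (fun x hx => hTd j i hij.symm x hx))
    (by
      intro x hx u hu
      simp only [Finset.mem_compl, Finset.mem_biUnion, mem_univ, true_and, not_exists] at hx ⊢
      intro i hi
      have := hSi i _ hi u (Submodule.mem_sup_right hu)
      rw [vadd_cancel] at this
      exact hx i this)
    (by
      intro x hx u hu
      simp only [Finset.mem_compl, Finset.mem_biUnion, mem_univ, true_and, not_exists] at hx ⊢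
      intro i hi
      have := hTi i _ hi u (Submodule.dualAnnihilator_anti inf_le_right hu)
      rw [vadd_cancel] at this
      exact hx i this)
  simp only [Finset.mem_compl, Finset.mem_biUnion, mem_univ, true_and, not_exists, not_forall,
    not_not] at h01 h00 h0
  have key : ∀ ε : ι → V → ℤ, (∀ i x, ε i x = 1 ∨ ε i x = -1) →
      (∀ i x, ∀ u ∈ U i, ε i (x + u) = ε i x) →
      ∀ φ, |W (fun x => 1 * g0 x + ∑ i, ε i x * g i x) φ| = 2 ^ m := by
    intro ε hε hεi φ
    rw [W_add, W_sum]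
    obtain ⟨k1, k0⟩ := h0 (fun _ => 1) (fun _ => Or.inl rfl) (fun _ _ _ => rfl) φ
    by_cases hφ : ∃ i, φ ∈ T i
    · obtain ⟨i, hi⟩ := hφ
      rw [k0 ⟨i, hi⟩, zero_add, Finset.sum_eq_single i]
      · exact (hg i (ε i) (hε i) (hεi i) φ).1 hi
      · exact fun j _ hj => (hg j (ε j) (hε j) (hεi j) φ).2 (hTd j i hj φ hi)
      · simp
    · push Not at hφ
      rw [Finset.sum_eq_zero (fun j _ => (hg j (ε j) (hε j) (hεi j) φ).2 (hφ j)), add_zero]
      exact k1 hφ
  have val1 : ∀ (ε : ι → V → ℤ) x i, x ∈ S i →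
      1 * g0 x + ∑ i, ε i x * g i x = ε i x * g i x := by
    intro ε x i hi
    rw [h00 x ⟨i, hi⟩, mul_zero, zero_add, Finset.sum_eq_single i]
    · intro j _ hj
      rw [hg0 j x (hSd j i hj x hi), mul_zero]
    · simp
  have val0 : ∀ (ε : ι → V → ℤ) x, (∀ i, x ∉ S i) → 1 * g0 x + ∑ i, ε i x * g i x = g0 x := by
    intro ε x hx
    rw [Finset.sum_eq_zero (fun j _ => by rw [hg0 j x (hx j), mul_zero]), add_zero, one_mul]
  refine ⟨fun x => 1 * g0 x + ∑ i, 1 * g i x,
    fun x => 1 * g0 x + ∑ i, (1 - 2 * ind (U i) (x + p i)) * g i x, fun x => ?_, fun x i hx => ?_,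
    fun x hx => ?_, key (fun _ _ => 1) (fun _ _ => Or.inl rfl) (fun _ _ _ _ => rfl),
    key (fun i x => 1 - 2 * ind (U i) (x + p i)) (fun i x => ?_) (fun i x u hu => ?_)⟩
  · beta_reduce
    by_cases hx : ∃ i, x ∈ S i
    · obtain ⟨i, hi⟩ := hx
      rw [val1 (fun _ _ => 1) x i hi, one_mul]
      exact hg1 i x hi
    · push Not at hx
      rw [val0 (fun _ _ => 1) x hx]
      exact h01 x hx
  · have hi : x ∈ S i := (hmS i x).2 (Submodule.mem_sup_left hx)
    beta_reduce
    rw [val1 (fun _ _ => 1) x i hi, val1 (fun i x => 1 - 2 * ind (U i) (x + p i)) x i hi,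
      ind_of_mem hx]
    ring
  · simp only [ind_of_not (hx _), mul_zero, sub_zero]
  · by_cases hx : x + p i ∈ U i
    · rw [ind_of_mem hx]; norm_num
    · rw [ind_of_not hx]; norm_num
  · rw [add_right_comm, ind_add hu]

end Pool.Agent.Lib.MP_b90951_co.Hard
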