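import Pool.Agent.Lib.MP_b90951_co.NPRigid
import Pool.Agent.Lib.MP_b90951_co.NPTile

/-!
An explicit family of flats of half dimension whose union is a sum of two bent functions exactly
when a labelling problem on a bipartite graph is solvable.
-/

namespace Pool.Agent.Lib.MP_b90951_co.Hard

open Module Finset

/-- The coordinate `t` of a vector, zero when out of range. -/
def co (n t : ℕ) : (Fin n → ZMod 2) →ₗ[ZMod 2] ZMod 2 :=
  if h : t < n then LinearMap.proj ⟨t, h⟩ else 0

/-- The bit `u` of `q`. -/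
def bz (q u : ℕ) : ZMod 2 := if q.testBit u then 1 else 0

/-- The vector with first half `x` and second half `y`. -/
def mk2 (m : ℕ) (x y : ℕ → ZMod 2) : Fin (2 * m) → ZMod 2 :=
  fun i => if i.val < m then x i else y (i - m)

theorem co_mk2_x {m t : ℕ} (ht : t < m) (x y : ℕ → ZMod 2) : co (2 * m) t (mk2 m x y) = x t := by
  rw [co, dif_pos (by omega)]
  simp [mk2, ht]

theorem co_mk2_y {m t : ℕ} (ht : t < m) (x y : ℕ → ZMod 2) :
    co (2 * m) (m + t) (mk2 m x y) = y t := by
  rw [co, dif_pos (by omega)]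
  simp [mk2]

theorem eq_mk2 {m : ℕ} (v : Fin (2 * m) → ZMod 2) (x y : ℕ → ZMod 2)
    (hx : ∀ t < m, co (2 * m) t v = x t) (hy : ∀ t < m, co (2 * m) (m + t) v = y t) :
    v = mk2 m x y := by
  funext i
  have hi := i.2
  by_cases h : i.val < m
  · have := hx i h
    rw [co, dif_pos hi] at this
    simpa [mk2, h] using this
  · have := hy (i - m) (by omega)
    rw [show m + (i - m) = i by omega, co, dif_pos hi] at this
    simpa [mk2, h] using this

theorem eq_zero_of_co {m : ℕ} (v : Fin (2 * m) → ZMod 2)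
    (hx : ∀ t < m, co (2 * m) t v = 0) (hy : ∀ t < m, co (2 * m) (m + t) v = 0) : v = 0 := by
  rw [eq_mk2 v (fun _ => 0) (fun _ => 0) hx hy]
  funext i
  simp [mk2]

section Rank

variable {V : Type*} [AddCommGroup V] [Module (ZMod 2) V] [Fintype V]

/-- The common kernel of the first `k` functionals of a sequence. -/
def kerAll (k : ℕ) (L : ℕ → V →ₗ[ZMod 2] ZMod 2) : Submodule (ZMod 2) V :=
  LinearMap.ker (LinearMap.pi (fun t : Fin k => L t))

omit [Fintype V] in
theorem mem_kerAll {k : ℕ} {L : ℕ → V →ₗ[ZMod 2] ZMod 2} {v : V} :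
    v ∈ kerAll k L ↔ ∀ t < k, L t v = 0 := by
  rw [kerAll, LinearMap.mem_ker, funext_iff]
  exact ⟨fun h t ht => h ⟨t, ht⟩, fun h t => h t t.2⟩

theorem finrank_kerAll {k : ℕ} (L : ℕ → V →ₗ[ZMod 2] ZMod 2)
    (h : ∀ g : ℕ → ZMod 2, ∃ v, ∀ t < k, L t v = g t) :
    k + finrank (ZMod 2) (kerAll k L) = finrank (ZMod 2) V := by
  have h1 := LinearMap.finrank_range_add_finrank_ker (LinearMap.pi (fun t : Fin k => L t))
  have h2 : LinearMap.range (LinearMap.pi (fun t : Fin k => L t)) = ⊤ := by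
    rw [LinearMap.range_eq_top]
    intro g
    obtain ⟨v, hv⟩ := h (fun t => if ht : t < k then g ⟨t, ht⟩ else 0)
    refine ⟨v, funext fun t => ?_⟩
    rw [LinearMap.pi_apply, hv t t.2, dif_pos t.2]
  rw [h2, finrank_top, Module.finrank_fin_fun] at h1
  exact h1

omit [Fintype V] in
theorem finrank_le_of_inj (X : Submodule (ZMod 2) V) (k : ℕ) (L : ℕ → V →ₗ[ZMod 2] ZMod 2)
    (h : ∀ v ∈ X, (∀ t < k, L t v = 0) → v = 0) : finrank (ZMod 2) X ≤ k := by
  have h1 : Function.Injective ((LinearMap.pi (fun t : Fin k => L t)).domRestrict X) := by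
    rw [injective_iff_map_eq_zero]
    intro v hv
    exact Subtype.ext (h v v.2 (fun t ht => congrFun hv ⟨t, ht⟩))
  have h2 := LinearMap.finrank_le_finrank_of_injective h1
  rwa [Module.finrank_fin_fun] at h2

end Rank

theorem toeplitz (δ x : ℕ → ZMod 2) (u0 B : ℕ) (h1 : δ u0 = 1) (h0 : ∀ u < u0, δ u = 0)
    (h : ∀ s < B, x s = 0 ∨ ∑ u ∈ range (s + u0 + 1), δ u * x (s + u0 - u) = 0) :
    ∀ s < B, x s = 0 := by
  intro s
  induction s using Nat.strong_induction_on with
  | _ s ih =>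
  intro hs
  rcases h s hs with h2 | h2
  · exact h2
  rw [Finset.sum_eq_single u0, h1, one_mul, Nat.add_sub_cancel] at h2
  · exact h2
  · intro u hu hne
    rw [Finset.mem_range] at hu
    rcases Nat.lt_or_gt_of_ne hne with h3 | h3
    · rw [h0 u h3, zero_mul]
    · rw [ih (s + u0 - u) (by omega) (by omega), mul_zero]
  · intro hu
    exact absurd (Finset.mem_range.2 (by omega)) hu

/-- The coordinate `t` of `y + T_q x`, where `T_q` is carry-less multiplication by `q`. -/
def zL (m q t : ℕ) : (Fin (2 * m) → ZMod 2) →ₗ[ZMod 2] ZMod 2 :=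
  co (2 * m) (m + t) + ∑ u ∈ range (t + 1), bz q u • co (2 * m) (t - u)

theorem zL_apply (m q t : ℕ) (v : Fin (2 * m) → ZMod 2) :
    zL m q t v = co (2 * m) (m + t) v + ∑ u ∈ range (t + 1), bz q u * co (2 * m) (t - u) v := by
  simp [zL, LinearMap.sum_apply]

theorem zL_of_x {m q t : ℕ} (ht : t < m) {v : Fin (2 * m) → ZMod 2}
    (hx : ∀ s < m, co (2 * m) s v = 0) : zL m q t v = co (2 * m) (m + t) v := by
  rw [zL_apply, Finset.sum_eq_zero (fun u _ => by rw [hx _ (by omega), mul_zero]), add_zero]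

theorem zL_diff {m q q' t : ℕ} {v : Fin (2 * m) → ZMod 2} (h : zL m q t v = 0)
    (h' : zL m q' t v = 0) :
    ∑ u ∈ range (t + 1), (bz q u + bz q' u) * co (2 * m) (t - u) v = 0 := by
  rw [zL_apply, zadd_eq_zero] at h h'
  simp only [add_mul, Finset.sum_add_distrib]
  rw [← h, ← h', zadd_self]

/-- The linear equations of the flat of the vertex `q`. -/
def psi (m : ℕ) (use : ℕ → ℕ → Bool) (nrm : ℕ → ℕ) (q t : ℕ) :
    (Fin (2 * m) → ZMod 2) →ₗ[ZMod 2] ZMod 2 :=
  if t = 0 then co (2 * m) 0 else if t = 1 then co (2 * m) (1 + q % 2)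
  else if t = 2 then bz (nrm q) 0 • zL m q 0 + bz (nrm q) 1 • zL m q 1 + bz (nrm q) 2 • zL m q 2
  else if use q t then co (2 * m) t else zL m q t

/-- The right-hand sides of the equations of the flat of the vertex `q`. -/
def tgt (use : ℕ → ℕ → Bool) (val : ℕ → ℕ → ZMod 2) (q t : ℕ) : ZMod 2 :=
  if t = 0 then bz q 0 else if t ≤ 2 then 0 else if use q t then val q t else 0

section Psi

variable (m : ℕ) (use : ℕ → ℕ → Bool) (nrm : ℕ → ℕ) (q : ℕ)

theorem psi_zero : psi m use nrm q 0 = co (2 * m) 0 := by simp [psi]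

theorem psi_one : psi m use nrm q 1 = co (2 * m) (1 + q % 2) := by simp [psi]

theorem psi_two (v : Fin (2 * m) → ZMod 2) : psi m use nrm q 2 v =
    bz (nrm q) 0 * zL m q 0 v + bz (nrm q) 1 * zL m q 1 v + bz (nrm q) 2 * zL m q 2 v := by
  simp [psi]

theorem psi_used {t : ℕ} (ht : 3 ≤ t) (h : use q t = true) : psi m use nrm q t = co (2 * m) t := by
  rw [psi, if_neg (by omega), if_neg (by omega), if_neg (by omega), if_pos h]

theorem psi_free {t : ℕ} (ht : 3 ≤ t) (h : ¬ use q t = true) : psi m use nrm q t = zL m q t := by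
  rw [psi, if_neg (by omega), if_neg (by omega), if_neg (by omega), if_neg h]

theorem psi_surj (hm : 3 ≤ m)
    (hn : (nrm q).testBit 0 = true ∨ (nrm q).testBit 1 = true ∨ (nrm q).testBit 2 = true)
    (g : ℕ → ZMod 2) : ∃ v, ∀ t < m, psi m use nrm q t v = g t := by
  obtain ⟨w0, w1, w2, hw⟩ : ∃ w0 w1 w2 : ZMod 2,
      bz (nrm q) 0 * w0 + bz (nrm q) 1 * w1 + bz (nrm q) 2 * w2 = g 2 := by
    rcases hn with h | h | h
    · exact ⟨g 2, 0, 0, by simp [bz, h]⟩
    · exact ⟨0, g 2, 0, by simp [bz, h]⟩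
    · exact ⟨0, 0, g 2, by simp [bz, h]⟩
  set x : ℕ → ZMod 2 := fun t => if t = 0 then g 0 else if t ≤ 2 then g 1 else g t with hx
  set z : ℕ → ZMod 2 := fun t => if t = 0 then w0 else if t = 1 then w1 else if t = 2 then w2
    else g t with hz
  set v := mk2 m x (fun t => z t + ∑ u ∈ range (t + 1), bz q u * x (t - u)) with hv
  have hzv : ∀ t < m, zL m q t v = z t := by
    intro t ht
    have e : ∀ u, co (2 * m) (t - u) v = x (t - u) := fun u => co_mk2_x (by omega) _ _
    rw [zL_apply]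
    simp only [e]
    rw [hv, co_mk2_y ht, add_assoc, zadd_self, add_zero]
  refine ⟨v, fun t ht => ?_⟩
  rcases (by omega : t = 0 ∨ t = 1 ∨ t = 2 ∨ 3 ≤ t) with rfl | rfl | rfl | h3
  · rw [psi_zero, hv, co_mk2_x ht]; simp [hx]
  · rw [psi_one, hv, co_mk2_x (by omega)]
    simp only [hx]
    rw [if_neg (by omega), if_pos (by omega)]
  · rw [psi_two, hzv 0 (by omega), hzv 1 (by omega), hzv 2 (by omega)]
    simpa [hz] using hw
  · by_cases h : use q t = true
    · rw [psi_used _ _ _ _ h3 h, hv, co_mk2_x ht]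
      simp only [hx]
      rw [if_neg (by omega), if_neg (by omega)]
    · rw [psi_free _ _ _ _ h3 h, hzv t ht]
      simp only [hz]
      rw [if_neg (by omega), if_neg (by omega), if_neg (by omega)]

theorem mk2_mem (hm : 3 ≤ m) (y : ℕ → ZMod 2)
    (h2 : bz (nrm q) 0 * y 0 + bz (nrm q) 1 * y 1 + bz (nrm q) 2 * y 2 = 0)
    (h3 : ∀ t, 3 ≤ t → ¬ use q t = true → y t = 0) :
    mk2 m (fun _ => 0) y ∈ kerAll m (psi m use nrm q) := by
  have hx : ∀ s < m, co (2 * m) s (mk2 m (fun _ => 0) y) = 0 := fun s hs => co_mk2_x hs _ _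
  have hz : ∀ t < m, zL m q t (mk2 m (fun _ => 0) y) = y t :=
    fun t ht => by rw [zL_of_x ht hx, co_mk2_y ht]
  rw [mem_kerAll]
  intro t ht
  rcases (by omega : t = 0 ∨ t = 1 ∨ t = 2 ∨ 3 ≤ t) with rfl | rfl | rfl | h
  · rw [psi_zero, hx 0 ht]
  · rw [psi_one, hx _ (by omega)]
  · rw [psi_two, hz 0 (by omega), hz 1 (by omega), hz 2 (by omega), h2]
  · by_cases hu : use q t = true
    · rw [psi_used _ _ _ _ h hu, hx t ht]
    · rw [psi_free _ _ _ _ h hu, hz t ht, h3 t h hu]

end Psi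

/-- The labels `c`, `c'` differ on the intersection of the planes with normals `n`, `n'`. -/
def Good (n n' : ℕ) (c c' : ℕ → ZMod 2) : Prop :=
  ∃ w0 w1 w2 : ZMod 2, bz n 0 * w0 + bz n 1 * w1 + bz n 2 * w2 = 0 ∧
    bz n' 0 * w0 + bz n' 1 * w1 + bz n' 2 * w2 = 0 ∧
    c 0 * w0 + c 1 * w1 + c 2 * w2 ≠ c' 0 * w0 + c' 1 * w1 + c' 2 * w2

theorem Good.symm {n n' : ℕ} {c c' : ℕ → ZMod 2} (h : Good n n' c c') : Good n' n c' c := by
  obtain ⟨w0, w1, w2, h1, h2, h3⟩ := h
  exact ⟨w0, w1, w2, h2, h1, h3.symm⟩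

theorem bz_add_eq_zero {q q' u : ℕ} (h : q.testBit u = q'.testBit u) : bz q u + bz q' u = 0 := by
  rw [bz, bz, h, zadd_self]

theorem bz_add_eq_one {q q' u : ℕ} (h : q.testBit u ≠ q'.testBit u) : bz q u + bz q' u = 1 := by
  rw [bz, bz]
  revert h
  cases q.testBit u <;> cases q'.testBit u <;> simp

theorem exists_bit_ne {a q q' : ℕ} (hq : q < 2 ^ a) (hq' : q' < 2 ^ a) (h : q ≠ q') :
    ∃ u < a, q.testBit u ≠ q'.testBit u := by
  by_contra hc
  push Not at hc
  refine h (Nat.eq_of_testBit_eq (fun i => ?_))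
  by_cases hi : i < a
  · exact hc i hi
  · have h2 : 2 ^ a ≤ 2 ^ i := Nat.pow_le_pow_right (by norm_num) (by omega)
    rw [Nat.testBit_lt_two_pow (by omega), Nat.testBit_lt_two_pow (by omega)]

theorem inter_small {m r a : ℕ} {use : ℕ → ℕ → Bool} {nrm : ℕ → ℕ} (hr : 3 ≤ r)
    (hm : r + a ≤ m) (huse : ∀ q t, use q t = true → t < r) {q q' : ℕ} (hq : q < 2 ^ a)
    (hq' : q' < 2 ^ a) (h : q ≠ q') :
    finrank (ZMod 2) (kerAll m (psi m use nrm q) ⊓ kerAll m (psi m use nrm q') :
      Submodule (ZMod 2) _) ≤ 2 * r + a := by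
  classical
  refine finrank_le_of_inj _ _ (fun t => if t < r then co (2 * m) t else if t < 2 * r then
    co (2 * m) (m + (t - r)) else co (2 * m) (m - 1 - (t - 2 * r))) (fun v hv hL => ?_)
  obtain ⟨h1, h2⟩ := Submodule.mem_inf.1 hv
  rw [mem_kerAll] at h1 h2
  have hz : ∀ q, (∀ t < m, psi m use nrm q t v = 0) → ∀ t < m, r ≤ t → zL m q t v = 0 := by
    intro q hq t ht hrt
    rw [← psi_free m use nrm q (by omega) (fun h => by have := huse q t h; omega)]
    exact hq t ht
  have hex := exists_bit_ne hq hq' h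
  have hu := Nat.find_spec hex
  have hx1 := toeplitz (fun u => bz q u + bz q' u) (fun s => co (2 * m) s v) (Nat.find hex)
    (m - Nat.find hex) (bz_add_eq_one hu.2)
    (fun u hlt => bz_add_eq_zero (by
      have := Nat.find_min hex hlt
      push Not at this
      exact this (by omega)))
    (fun s hs => by
      by_cases hsr : s < r
      · left
        have := hL s (by omega)
        rwa [if_pos hsr] at this
      · right
        exact zL_diff (hz q h1 _ (by omega) (by omega)) (hz q' h2 _ (by omega) (by omega)))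
  have hx : ∀ s < m, co (2 * m) s v = 0 := by
    intro s hs
    by_cases h3 : s < m - Nat.find hex
    · exact hx1 s h3
    · have := hL (2 * r + (m - 1 - s)) (by omega)
      rw [if_neg (by omega), if_neg (by omega)] at this
      rwa [show m - 1 - (2 * r + (m - 1 - s) - 2 * r) = s by omega] at this
  refine eq_zero_of_co v hx (fun t ht => ?_)
  by_cases htr : t < r
  · have := hL (r + t) (by omega)
    rw [if_neg (by omega), if_pos (by omega)] at this
    rwa [show r + t - r = t by omega] at this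
  · rw [← zL_of_x (q := q) ht hx]
    exact hz q h1 t ht (by omega)

theorem inter_adj {m : ℕ} {use : ℕ → ℕ → Bool} {nrm : ℕ → ℕ} (hm : 3 ≤ m) {q q' : ℕ}
    (hq : q % 2 = 0) (hq' : q' % 2 = 1) (hu : ∀ t, 3 ≤ t → ¬ (use q t = true ∧ use q' t = true))
    (c c' : Dual (ZMod 2) (Fin (2 * m) → ZMod 2)) {v : Fin (2 * m) → ZMod 2}
    (h1 : v ∈ kerAll m (psi m use nrm q)) (h2 : v ∈ kerAll m (psi m use nrm q'))
    (hc : c v ≠ c' v) :
    Good (nrm q) (nrm q') (fun s => c (mk2 m (fun _ => 0) (fun t => if t = s then 1 else 0)))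
      (fun s => c' (mk2 m (fun _ => 0) (fun t => if t = s then 1 else 0))) := by
  rw [mem_kerAll] at h1 h2
  have hx := toeplitz (fun u => bz q u + bz q' u) (fun s => co (2 * m) s v) 0 m
    (bz_add_eq_one (by simp [Nat.testBit_zero, hq, hq'])) (by simp)
    (fun s hs => by
      rcases (by omega : s = 0 ∨ s = 1 ∨ s = 2 ∨ 3 ≤ s) with rfl | rfl | rfl | h
      · left
        rw [← psi_zero m use nrm q]; exact h1 0 hs
      · left
        have := h1 1 hs
        rwa [psi_one, hq] at this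
      · left
        have := h2 1 (by omega)
        rwa [psi_one, hq'] at this
      · by_cases h3 : use q s = true
        · left
          rw [← psi_used m use nrm q h h3]; exact h1 s hs
        by_cases h4 : use q' s = true
        · left
          rw [← psi_used m use nrm q' h h4]; exact h2 s hs
        right
        refine zL_diff (m := m) (t := s) ?_ ?_
        · rw [← psi_free m use nrm q h h3]; exact h1 s hs
        · rw [← psi_free m use nrm q' h h4]; exact h2 s hs)
  have hy : ∀ t < m, 3 ≤ t → co (2 * m) (m + t) v = 0 := by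
    intro t ht h
    by_cases h3 : use q t = true
    · rw [← zL_of_x (q := q') ht hx, ← psi_free m use nrm q' h (fun h4 => hu t h ⟨h3, h4⟩)]
      exact h2 t ht
    · rw [← zL_of_x (q := q) ht hx, ← psi_free m use nrm q h h3]
      exact h1 t ht
  have hv : v = co (2 * m) (m + 0) v • mk2 m (fun _ => 0) (fun t => if t = 0 then 1 else 0) +
      co (2 * m) (m + 1) v • mk2 m (fun _ => 0) (fun t => if t = 1 then 1 else 0) +
      co (2 * m) (m + 2) v • mk2 m (fun _ => 0) (fun t => if t = 2 then 1 else 0) := by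
    rw [← sub_eq_zero]
    refine eq_zero_of_co _ (fun t ht => ?_) (fun t ht => ?_)
    · simp only [map_sub, map_add, map_smul, co_mk2_x ht, hx t ht]; simp
    · simp only [map_sub, map_add, map_smul, co_mk2_y ht]
      rcases (by omega : t = 0 ∨ t = 1 ∨ t = 2 ∨ 3 ≤ t) with rfl | rfl | rfl | h
      · simp
      · simp
      · simp
      · rw [hy t ht h, if_neg (by omega), if_neg (by omega), if_neg (by omega)]; simp
  refine ⟨co (2 * m) (m + 0) v, co (2 * m) (m + 1) v, co (2 * m) (m + 2) v, ?_, ?_, ?_⟩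
  · have := h1 2 (by omega)
    rwa [psi_two, zL_of_x (by omega) hx, zL_of_x (by omega) hx, zL_of_x (by omega) hx] at this
  · have := h2 2 (by omega)
    rwa [psi_two, zL_of_x (by omega) hx, zL_of_x (by omega) hx, zL_of_x (by omega) hx] at this
  · rw [hv] at hc
    simp only [map_add, map_smul, smul_eq_mul] at hc
    simpa only [mul_comm] using hc

/-- The main geometric equivalence. -/
theorem geom (m r a K : ℕ) (use : ℕ → ℕ → Bool) (val : ℕ → ℕ → ZMod 2) (nrm : ℕ → ℕ)
    (Adj : ℕ → ℕ → Prop) (hr : 3 ≤ r) (hm : 4 * r + 2 * a < m) (hK : K ≤ 2 ^ a)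
    (huse : ∀ q t, use q t = true → t < r)
    (hn : ∀ q, (nrm q).testBit 0 = true ∨ (nrm q).testBit 1 = true ∨ (nrm q).testBit 2 = true)
    (hadj : ∀ q q', Adj q q' → q % 2 = 0 ∧ q' % 2 = 1 ∧
      ∀ t, 3 ≤ t → ¬ (use q t = true ∧ use q' t = true))
    (hnon : ∀ q < K, ∀ q' < K, q ≠ q' → Adj q q' ∨ Adj q' q ∨
      ∃ t, 3 ≤ t ∧ use q t = true ∧ use q' t = true ∧ val q t ≠ val q' t) :
    (∃ F H : (Fin (2 * m) → ZMod 2) → ℤ, (∀ x, F x = 1 ∨ F x = -1) ∧
      (∀ x, (∃ q < K, ∀ t < m, psi m use nrm q t x = tgt use val q t) → H x = -F x) ∧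
      (∀ x, (¬ ∃ q < K, ∀ t < m, psi m use nrm q t x = tgt use val q t) → H x = F x) ∧
      (∀ φ, |W F φ| = 2 ^ m) ∧ ∀ φ, |W H φ| = 2 ^ m) ↔
    ∃ γ : ℕ → ℕ → ZMod 2, ∀ q < K, ∀ q' < K, Adj q q' → Good (nrm q) (nrm q') (γ q) (γ q') := by
  classical
  have : Finite (Dual (ZMod 2) (Fin (2 * m) → ZMod 2)) :=
    Finite.of_injective _ DFunLike.coe_injective
  have : Fintype (Dual (ZMod 2) (Fin (2 * m) → ZMod 2)) := Fintype.ofFinite _
  have hm3 : 3 ≤ m := by omega
  have hV : finrank (ZMod 2) (Fin (2 * m) → ZMod 2) = 2 * m := Module.finrank_fin_fun _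
  set U : Fin K → Submodule (ZMod 2) (Fin (2 * m) → ZMod 2) :=
    fun i => kerAll m (psi m use nrm i) with hUdef
  set U0 : Submodule (ZMod 2) (Fin (2 * m) → ZMod 2) := kerAll m (co (2 * m)) with hU0def
  have hU : ∀ i, finrank (ZMod 2) (U i) = m := by
    intro i
    have := finrank_kerAll (psi m use nrm i) (psi_surj m use nrm i hm3 (hn i))
    rw [hV] at this
    change finrank (ZMod 2) (kerAll m (psi m use nrm i)) = m
    omega
  have hU0 : finrank (ZMod 2) U0 = m := by
    have := finrank_kerAll (k := m) (co (2 * m))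
      (fun g => ⟨mk2 m g g, fun t ht => co_mk2_x ht _ _⟩)
    rw [hV] at this
    change finrank (ZMod 2) (kerAll m (co (2 * m))) = m
    omega
  choose p hp using fun i : Fin K => psi_surj m use nrm i hm3 (hn i) (tgt use val i)
  have hmem : ∀ (i : Fin K) x,
      x + p i ∈ U i ↔ ∀ t < m, psi m use nrm i t x = tgt use val i t := by
    intro i x
    simp only [hUdef, mem_kerAll]
    refine forall₂_congr (fun t ht => ?_)
    rw [map_add, hp i t ht, zadd_eq_zero]
  have hfix : ∀ (i : Fin K) x, x + p i ∈ U i ⊔ U0 → ∀ t < m, psi m use nrm i t = co (2 * m) t →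
      co (2 * m) t x = tgt use val i t := by
    intro i x hx t ht he
    obtain ⟨y, hy, z, hz, hyz⟩ := Submodule.mem_sup.1 hx
    have h1 := mem_kerAll.1 hy t ht
    have h2 := mem_kerAll.1 hz t ht
    have h3 := hp i t ht
    rw [he] at h1 h3
    rw [← h3, ← zadd_eq_zero, ← map_add, ← hyz, map_add, h1, h2, add_zero]
  have hP : ∀ i j, i ≠ j → ∀ x, x + p j ∈ U j ⊔ U0 → x + p i ∉ U i ⊔ U0 := by
    intro i j hij x hj hi
    have h0 : bz i 0 = bz j 0 := by
      have h1 := hfix i x hi 0 (by omega) (psi_zero ..)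
      have h2 := hfix j x hj 0 (by omega) (psi_zero ..)
      simpa [tgt] using h1.symm.trans h2
    rcases hnon i i.2 j j.2 (fun h => hij (Fin.ext h)) with h | h | ⟨t, h3, h4, h5, h6⟩
    · obtain ⟨h1, h2, -⟩ := hadj _ _ h
      simp [bz, Nat.testBit_zero, h1, h2] at h0
    · obtain ⟨h1, h2, -⟩ := hadj _ _ h
      simp [bz, Nat.testBit_zero, h1, h2] at h0
    · have ht : t < m := by have := huse _ _ h4; omega
      have h1 := hfix i x hi t ht (psi_used _ _ _ _ h3 h4)
      have h2 := hfix j x hj t ht (psi_used _ _ _ _ h3 h5)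
      rw [tgt, if_neg (by omega), if_neg (by omega), if_pos h4] at h1
      rw [tgt, if_neg (by omega), if_neg (by omega), if_pos h5] at h2
      exact h6 (h1.symm.trans h2)
  constructor
  · rintro ⟨F, H, hF, hH1, hH0, hFb, hHb⟩
    obtain ⟨c, hc⟩ := rigid m r (2 * r + a) U (fun i => U i ⊔ U0) p hV hU (fun i => le_sup_left)
      (fun i => by
        have h1 := Subspace.finrank_add_finrank_dualAnnihilator_eq (U i ⊔ U0)
        have h2 := Submodule.finrank_sup_add_finrank_inf_eq (U i) U0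
        have h3 : finrank (ZMod 2) (U i ⊓ U0 : Submodule (ZMod 2) _) ≤ r := by
          refine finrank_le_of_inj _ _ (fun t => co (2 * m) (m + t)) (fun v hv hL => ?_)
          obtain ⟨h1, h2⟩ := Submodule.mem_inf.1 hv
          have hx := mem_kerAll.1 h2
          refine eq_zero_of_co v hx (fun t ht => ?_)
          by_cases htr : t < r
          · exact hL t htr
          · rw [← zL_of_x (q := i) ht hx,
              ← psi_free m use nrm i (by omega) (fun h => htr (huse _ _ h))]
            exact mem_kerAll.1 h1 t ht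
        rw [hV] at h1
        rw [hU, hU0] at h2
        omega)
      (fun i j hij x hx => hP i j hij x (Submodule.mem_sup_left hx))
      (fun i j hij => inter_small hr (by omega) huse (lt_of_lt_of_le i.2 hK)
        (lt_of_lt_of_le j.2 hK) (fun h => hij (Fin.ext h)))
      (by
        rw [Fintype.card_fin]
        calc K * 4 ^ r * 2 ^ (2 * r + a) ≤ 2 ^ a * 4 ^ r * 2 ^ (2 * r + a) := by gcongr
          _ = 2 ^ (4 * r + 2 * a) := by
            rw [show (4 : ℕ) = 2 ^ 2 from rfl, ← pow_mul, ← pow_add, ← pow_add]; congr 1; ring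
          _ < 2 ^ m := Nat.pow_lt_pow_right (by norm_num) hm)
      F H hF (fun x i hx => hH1 x ⟨i, i.2, (hmem i x).1 hx⟩)
      (fun x hx => hH0 x (fun ⟨q, hq, h⟩ => hx ⟨q, hq⟩ ((hmem ⟨q, hq⟩ x).2 h))) hFb hHb
    refine ⟨fun q s => if h : q < K then
      c ⟨q, h⟩ (mk2 m (fun _ => 0) (fun t => if t = s then 1 else 0)) else 0,
      fun q hq q' hq' h => ?_⟩
    obtain ⟨h1, h2, h3⟩ := hadj _ _ h
    obtain ⟨v, hv, hne⟩ := hc ⟨q, hq⟩ ⟨q', hq'⟩ (fun h => by
      have := congrArg Fin.val h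
      simp only at this
      omega)
    simp only [dif_pos hq, dif_pos hq']
    exact inter_adj hm3 h1 h2 h3 _ _ hv.1 hv.2 hne
  · rintro ⟨γ, hγ⟩
    set c : Fin K → Dual (ZMod 2) (Fin (2 * m) → ZMod 2) := fun i =>
      ∑ t ∈ range m, (if t < 3 then γ i t else val i t) • co (2 * m) (m + t) with hcdef
    have hcy : ∀ (i : Fin K) (y : ℕ → ZMod 2), c i (mk2 m (fun _ => 0) y) =
        ∑ t ∈ range m, (if t < 3 then γ i t else val i t) * y t := by
      intro i y
      simp only [hcdef, LinearMap.sum_apply, LinearMap.smul_apply, smul_eq_mul]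
      exact Finset.sum_congr rfl (fun t ht => by rw [co_mk2_y (Finset.mem_range.1 ht)])
    have h0 : ∀ y : ℕ → ZMod 2, mk2 m (fun _ => 0) y ∈ U0 :=
      fun y => mem_kerAll.2 (fun t ht => co_mk2_x ht _ _)
    have hgood : ∀ i j : Fin K, Good (nrm i) (nrm j) (γ i) (γ j) →
        ∃ v ∈ U i ⊓ U0, v ∈ U j ∧ c i v ≠ c j v := by
      rintro i j ⟨w0, w1, w2, h1, h2, h3⟩
      set y : ℕ → ZMod 2 := fun t => if t = 0 then w0 else if t = 1 then w1 else if t = 2 then w2
        else 0 with hy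
      have hy3 : ∀ t, 3 ≤ t → y t = 0 := by
        intro t ht
        simp only [hy]
        rw [if_neg (by omega), if_neg (by omega), if_neg (by omega)]
      have hs : ∀ l : Fin K, c l (mk2 m (fun _ => 0) y) = γ l 0 * w0 + γ l 1 * w1 + γ l 2 * w2 := by
        intro l
        rw [hcy, ← Finset.sum_subset (Finset.range_subset_range.2 hm3)
          (fun t _ ht => by rw [hy3 t (by simpa using ht), mul_zero])]
        simp [Finset.sum_range_succ, hy]
      refine ⟨mk2 m (fun _ => 0) y, ⟨mk2_mem m use nrm i hm3 y (by simpa [hy] using h1)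
        (fun t ht _ => hy3 t ht), h0 y⟩, mk2_mem m use nrm j hm3 y (by simpa [hy] using h2)
        (fun t ht _ => hy3 t ht), ?_⟩
      rwa [hs, hs]
    obtain ⟨F, H, hF, hH1, hH0, hFb, hHb⟩ := double_tiling m U U0 p c hV hU hU0 hP (by
      intro i j hij
      rcases hnon i i.2 j j.2 (fun h => hij (Fin.ext h)) with h | h | ⟨t, h3, h4, h5, h6⟩
      · exact hgood i j (hγ i i.2 j j.2 h)
      · exact hgood i j (hγ j j.2 i i.2 h).symm
      · have ht : t < m := by have := huse _ _ h4; omega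
        set y : ℕ → ZMod 2 := fun s => if s = t then 1 else 0 with hy
        have hl : ∀ l : Fin K, use l t = true → mk2 m (fun _ => 0) y ∈ U l := by
          intro l hl
          refine mk2_mem m use nrm l hm3 y ?_ (fun s _ hs => ?_)
          · simp only [hy]
            rw [if_neg (by omega), if_neg (by omega), if_neg (by omega)]; simp
          · simp only [hy]
            rw [if_neg (fun (h : s = t) => hs (h ▸ hl))]
        have hs : ∀ l : Fin K, c l (mk2 m (fun _ => 0) y) = val l t := by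
          intro l
          rw [hcy, Finset.sum_eq_single t]
          · rw [if_neg (by omega)]; simp [hy]
          · intro s _ hs
            simp [hy, hs]
          · intro h
            exact absurd (Finset.mem_range.2 ht) h
        refine ⟨mk2 m (fun _ => 0) y, ⟨hl i h4, h0 y⟩, hl j h5, ?_⟩
        rwa [hs, hs])
    exact ⟨F, H, hF, fun x ⟨q, hq, h⟩ => hH1 x ⟨q, hq⟩ ((hmem ⟨q, hq⟩ x).2 h),
      fun x hx => hH0 x (fun i hi => hx ⟨i, i.2, (hmem i x).1 hi⟩), hFb, hHb⟩

end Pool.Agent.Lib.MP_b90951_co.Hard
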