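import Pool.Agent.Lib.MP_b90951_co.NPFourier

/-!
Rigidity: if a bent function stays bent after its sign is changed on a union of well separated
flats of half dimension, then it is a character on each flat and the dual flats are disjoint.
-/

namespace Pool.Agent.Lib.MP_b90951_co.Hard

open Module Finset

theorem eq_of_sum_le {α : Type*} [Fintype α] (a t : α → ℤ) (c : ℤ) (ha : ∀ x, 0 ≤ a x)
    (ht : ∀ x, t x ≤ c) (h : (∑ x, a x) * c ≤ ∑ x, a x * t x) (x : α) (hx : a x = 1) : t x = c := by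
  have h1 : ∑ x, a x * (c - t x) ≤ 0 := by
    simp only [mul_sub, Finset.sum_sub_distrib, ← Finset.sum_mul]; linarith
  have h2 : ∀ y ∈ (univ : Finset α), 0 ≤ a y * (c - t y) :=
    fun y _ => mul_nonneg (ha y) (sub_nonneg.2 (ht y))
  have h3 := (Finset.sum_eq_zero_iff_of_nonneg h2).1 (le_antisymm h1 (Finset.sum_nonneg h2)) x
    (mem_univ x)
  rw [hx, one_mul] at h3
  linarith

variable {V : Type*} [AddCommGroup V] [Module (ZMod 2) V] [Fintype V]
  [Fintype (Dual (ZMod 2) V)]

theorem exists_W_ne (g : V → ℤ) (p : V) (h : g p ≠ 0) : ∃ φ, W g φ ≠ 0 := by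
  by_contra hc
  push Not at hc
  have h1 := poisson (⊥ : Submodule (ZMod 2) V) p g 0
  simp only [hc, mul_zero, Finset.sum_const_zero] at h1
  have h2 : W (fun x => ind (⊥ : Submodule (ZMod 2) V) (x + p) * g x) 0 = g p := by
    rw [W, Finset.sum_eq_single p]
    · rw [vadd_self, ind_of_mem (Submodule.zero_mem _)]; simp
    · intro x _ hx
      rw [ind_of_not]
      · simp
      · intro h
        rw [Submodule.mem_bot] at h
        exact hx (by rw [← vadd_cancel x p, h, zero_add])
    · simp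
  rw [h2] at h1
  exact h (by simpa using h1)

/-- Rigidity theorem. -/
theorem rigid {ι : Type*} [Fintype ι] (m w d : ℕ) (U K : ι → Submodule (ZMod 2) V) (p : ι → V)
    (hV : finrank (ZMod 2) V = 2 * m) (hU : ∀ i, finrank (ZMod 2) (U i) = m)
    (hUK : ∀ i, U i ≤ K i) (hK : ∀ i, finrank (ZMod 2) (K i).dualAnnihilator ≤ w)
    (hsep : ∀ i j, i ≠ j → ∀ x, x + p j ∈ U j → x + p i ∉ K i)
    (hD : ∀ i j, i ≠ j → finrank (ZMod 2) (U i ⊓ U j : Submodule (ZMod 2) V) ≤ d)
    (hsmall : Fintype.card ι * 4 ^ w * 2 ^ d < 2 ^ m)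
    (F H : V → ℤ) (hF : ∀ x, F x = 1 ∨ F x = -1)
    (hH1 : ∀ x i, x + p i ∈ U i → H x = -F x) (hH0 : ∀ x, (∀ i, x + p i ∉ U i) → H x = F x)
    (hFb : ∀ φ, |W F φ| = 2 ^ m) (hHb : ∀ φ, |W H φ| = 2 ^ m) :
    ∃ c : ι → Dual (ZMod 2) V, ∀ i j, i ≠ j → ∃ v ∈ U i ⊓ U j, c i v ≠ c j v := by
  classical
  set M : ℤ := 2 ^ m with hM
  have hM0 : 0 < M := by positivity
  have hUd : ∀ i, finrank (ZMod 2) (U i).dualAnnihilator = m := by
    intro i
    have := Subspace.finrank_add_finrank_dualAnnihilator_eq (U i)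
    rw [hU, hV] at this
    omega
  set u : ι → V → ℤ := fun i x => ind (U i) (x + p i) * F x with hu
  set s : V → ℤ := fun x => ∑ i, u i x with hs
  have hdis : ∀ i j, i ≠ j → ∀ x, x + p j ∈ U j → x + p i ∉ U i :=
    fun i j hij x hx h => hsep i j hij x hx (hUK i h)
  have hs1 : ∀ x i, x + p i ∈ U i → s x = F x := by
    intro x i hx
    simp only [hs, hu]
    rw [Finset.sum_eq_single i, ind_of_mem hx, one_mul]
    · intro j _ hj
      rw [ind_of_not (hdis j i hj x hx), zero_mul]
    · simp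
  have hs0 : ∀ x, (∀ i, x + p i ∉ U i) → s x = 0 := by
    intro x hx
    simp only [hs, hu]
    exact Finset.sum_eq_zero (fun i _ => by rw [ind_of_not (hx i), zero_mul])
  have hWs : ∀ φ, 2 * W s φ = W F φ - W H φ := by
    intro φ
    simp only [W, Finset.mul_sum, ← Finset.sum_sub_distrib]
    refine Finset.sum_congr rfl (fun x _ => ?_)
    by_cases hx : ∃ i, x + p i ∈ U i
    · obtain ⟨i, hi⟩ := hx
      rw [hs1 x i hi, hH1 x i hi]; ring
    · push Not at hx
      rw [hs0 x hx, hH0 x hx]; ring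
  have hdvd : ∀ φ, M ∣ W s φ := by
    intro φ
    have h := hWs φ
    rcases abs_eq hM0.le |>.1 (hFb φ) with h1 | h1 <;>
      rcases abs_eq hM0.le |>.1 (hHb φ) with h2 | h2 <;> rw [h1, h2] at h
    · exact ⟨0, by linarith⟩
    · exact ⟨1, by linarith⟩
    · exact ⟨-1, by linarith⟩
    · exact ⟨0, by linarith⟩
  have hWsum : ∀ φ, W s φ = ∑ i, W (u i) φ := fun φ => W_sum univ u φ
  have hres : ∀ i, u i = fun x => ind (K i) (x + p i) * s x := by
    intro i
    funext x
    by_cases hx : x + p i ∈ U i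
    · simp only [hu]
      rw [ind_of_mem hx, ind_of_mem (hUK i hx), hs1 x i hx]
    · simp only [hu]
      rw [ind_of_not hx, zero_mul]
      by_cases hy : ∃ j, x + p j ∈ U j
      · obtain ⟨j, hj⟩ := hy
        rw [ind_of_not (hsep i j (fun h => hx (h ▸ hj)) x hj), zero_mul]
      · push Not at hy
        rw [hs0 x hy, mul_zero]
  have hbig : ∀ i φ, W (u i) φ ≠ 0 → M ^ 2 ≤ 4 ^ w * W (u i) φ ^ 2 := by
    intro i φ hne
    have h1 := poisson (K i) (p i) s φ
    rw [← hres i] at h1
    have h2 : M ∣ 2 ^ finrank (ZMod 2) (K i).dualAnnihilator * W (u i) φ := by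
      rw [← h1]
      exact Finset.dvd_sum (fun b _ => ((hdvd _).mul_left _).mul_left _)
    have h3 : M ∣ 2 ^ w * W (u i) φ :=
      h2.trans (mul_dvd_mul_right (pow_dvd_pow 2 (hK i)) _)
    have h4 : M ≤ |2 ^ w * W (u i) φ| :=
      Int.le_of_dvd (abs_pos.2 (mul_ne_zero (by positivity) hne)) ((dvd_abs _ _).2 h3)
    have h5 : M ^ 2 ≤ |2 ^ w * W (u i) φ| ^ 2 := pow_le_pow_left₀ hM0.le h4 2
    have h6 : ((2 : ℤ) ^ w) ^ 2 = 4 ^ w := by rw [← pow_mul, mul_comm, pow_mul]; norm_num
    rwa [sq_abs, mul_pow, h6] at h5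
  have hfree : ∀ i φ, ∃ b ∈ (U i).dualAnnihilator, ∀ j, j ≠ i → W (u j) (φ + b) = 0 := by
    intro i φ
    by_contra hc
    push Not at hc
    have h1 : ∀ b, ind (U i).dualAnnihilator b * M ^ 2 ≤
        ∑ j ∈ univ.erase i, 4 ^ w * (ind (U i).dualAnnihilator b * W (u j) (φ + b) ^ 2) := by
      intro b
      have hnn : ∀ j ∈ univ.erase i,
          0 ≤ 4 ^ w * (ind (U i).dualAnnihilator b * W (u j) (φ + b) ^ 2) :=
        fun j _ => mul_nonneg (by positivity) (mul_nonneg (ind_nonneg _ _) (sq_nonneg _))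
      by_cases hb : b ∈ (U i).dualAnnihilator
      · obtain ⟨j, hj, hne⟩ := hc b hb
        refine le_trans ?_ (Finset.single_le_sum hnn (mem_erase.2 ⟨hj, mem_univ j⟩))
        rw [ind_of_mem hb, one_mul, one_mul]
        exact hbig j _ hne
      · rw [ind_of_not hb, zero_mul]
        simp
    have h2 := Finset.sum_le_sum (fun b (_ : b ∈ univ) => h1 b)
    rw [← Finset.sum_mul, sum_ind, hUd, Finset.sum_comm] at h2
    have h3 : ∀ j ∈ univ.erase i,
        ∑ b, 4 ^ w * (ind (U i).dualAnnihilator b * W (u j) (φ + b) ^ 2) ≤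
          4 ^ w * (M * (M * 2 ^ d)) := by
      intro j hj
      rw [← Finset.mul_sum]
      refine mul_le_mul_of_nonneg_left ?_ (by positivity)
      refine (coset_energy (U i) (U j) (p j) F hF φ).trans ?_
      rw [hUd, hU]
      exact mul_le_mul_of_nonneg_left (mul_le_mul_of_nonneg_left
        (pow_le_pow_right₀ (by norm_num) (hD i j (mem_erase.1 hj).1.symm)) hM0.le) hM0.le
    have h4 := h2.trans (Finset.sum_le_card_nsmul _ _ _ h3)
    have h5 : ((univ.erase i).card : ℤ) ≤ Fintype.card ι := by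
      exact_mod_cast Finset.card_le_univ _
    have h6 : (Fintype.card ι : ℤ) * 4 ^ w * 2 ^ d < M := by rw [hM]; exact_mod_cast hsmall
    rw [nsmul_eq_mul] at h4
    have h7 : ((univ.erase i).card : ℤ) * (4 ^ w * (M * (M * 2 ^ d))) ≤
        Fintype.card ι * (4 ^ w * (M * (M * 2 ^ d))) :=
      mul_le_mul_of_nonneg_right h5 (by positivity)
    have h8 := mul_lt_mul_of_pos_right h6 (mul_pos hM0 hM0)
    nlinarith
  have hchar : ∀ i, ∃ (c : Dual (ZMod 2) V) (e : ℤ), (e = 1 ∨ e = -1) ∧
      u i = fun x => ind (U i) (x + p i) * (e * sg (c x)) := by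
    intro i
    obtain ⟨φ, hφ⟩ := exists_W_ne (u i) (p i) (by
      simp only [hu]
      rw [vadd_self, ind_of_mem (Submodule.zero_mem _), one_mul]
      rcases hF (p i) with h | h <;> rw [h] <;> norm_num)
    obtain ⟨b, hb, hz⟩ := hfree i φ
    have h1 : W (u i) (φ + b) ≠ 0 := by
      simp only [hu]
      rw [W_shift (U i) (p i) F φ hb]
      refine mul_ne_zero ?_ hφ
      rcases sg_cases (b (p i)) with h | h <;> rw [h] <;> norm_num
    have h2 : W s (φ + b) = W (u i) (φ + b) := by
      rw [hWsum, Finset.sum_eq_single i (fun j _ hj => hz j hj) (by simp)]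
    have h3 : M ≤ |W (u i) (φ + b)| :=
      Int.le_of_dvd (abs_pos.2 h1) ((dvd_abs _ _).2 (h2 ▸ hdvd _))
    obtain ⟨e, he, h4⟩ : ∃ e : ℤ, (e = 1 ∨ e = -1) ∧ M ≤ e * W (u i) (φ + b) := by
      rcases le_abs.1 h3 with h | h
      · exact ⟨1, Or.inl rfl, by linarith⟩
      · exact ⟨-1, Or.inr rfl, by linarith⟩
    refine ⟨φ + b, e, he, funext fun x => ?_⟩
    by_cases hx : x + p i ∈ U i
    · have h5 := eq_of_sum_le (fun x => ind (U i) (x + p i))
        (fun x => e * (F x * sg ((φ + b) x))) 1 (fun x => ind_nonneg _ _)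
        (fun x => by
          rcases he with h | h <;> rcases hF x with h' | h' <;>
            rcases sg_cases ((φ + b) x) with h'' | h'' <;> rw [h, h', h''] <;> norm_num)
        (by
          rw [sum_ind_shift, hU, mul_one]
          refine h4.trans (le_of_eq ?_)
          simp only [W, hu, Finset.mul_sum]
          exact Finset.sum_congr rfl (fun x _ => by ring)) x (ind_of_mem hx)
      simp only [hu]
      congr 1
      rcases he with h | h <;> rcases hF x with h' | h' <;>
        rcases sg_cases ((φ + b) x) with h'' | h'' <;> rw [h, h', h''] at h5 <;>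
        rw [h, h', h''] <;> omega
    · simp only [hu]
      rw [ind_of_not hx, zero_mul, zero_mul]
  choose c e he hc using hchar
  have hW : ∀ i φ, W (u i) φ = e i * sg ((φ + c i) (p i)) *
      (M * ind (U i).dualAnnihilator (φ + c i)) := by
    intro i φ
    rw [hc i, W_flat, hU]
  have hFc : ∀ i φ, φ + c i ∈ (U i).dualAnnihilator → W F φ = W (u i) φ := by
    intro i φ hφ
    have h1 := poisson (U i) (p i) F (c i)
    have h2 : W (u i) (c i) = e i * M := by
      rw [hW, vadd_self, ind_of_mem (Submodule.zero_mem _)]; simp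
    rw [hUd] at h1
    change _ = M * W (u i) (c i) at h1
    have h5 := eq_of_sum_le (fun b => ind (U i).dualAnnihilator b)
      (fun b => e i * (sg (b (p i)) * W F (c i + b))) M (fun x => ind_nonneg _ _)
      (fun b => by
        rcases he i with h | h <;> rcases abs_eq hM0.le |>.1 (hFb (c i + b)) with h' | h' <;>
          rcases sg_cases (b (p i)) with h'' | h'' <;> rw [h, h', h''] <;> linarith)
      (by
        rw [sum_ind, hUd]
        have : ∑ b, ind (U i).dualAnnihilator b * (e i * (sg (b (p i)) * W F (c i + b))) =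
            e i * ∑ b, ind (U i).dualAnnihilator b * (sg (b (p i)) * W F (c i + b)) := by
          rw [Finset.mul_sum]
          exact Finset.sum_congr rfl (fun x _ => by ring)
        rw [this, h1, h2]
        rcases he i with h | h <;> rw [h] <;> linarith) (φ + c i) (ind_of_mem hφ)
    have h6 : c i + (φ + c i) = φ := by rw [add_comm, vadd_cancel]
    simp only [h6] at h5
    rw [hW, ind_of_mem hφ, mul_one]
    rcases he i with h | h <;> rcases sg_cases ((φ + c i) (p i)) with h'' | h'' <;>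
      rw [h, h''] at h5 <;> rw [h, h''] <;> linarith
  refine ⟨c, fun i j hij => ?_⟩
  by_contra hcon
  push Not at hcon
  have h1 : c i + c j ∈ (U i ⊓ U j).dualAnnihilator := by
    rw [Submodule.mem_dualAnnihilator]
    intro v hv
    rw [LinearMap.add_apply, hcon v hv, zadd_self]
  rw [Subspace.dualAnnihilator_inf_eq, Submodule.mem_sup] at h1
  obtain ⟨b, hb, b', hb', hbb⟩ := h1
  have hi : (b + c i) + c i ∈ (U i).dualAnnihilator := by rwa [vadd_cancel]
  have hj : (b + c i) + c j ∈ (U j).dualAnnihilator := by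
    rw [add_assoc, ← hbb, ← add_assoc, vadd_self, zero_add]; exact hb'
  set φ := b + c i
  have hsq : W F φ * W F φ = M * M := by
    rw [← abs_mul_abs_self, hFb]
  have hnn : ∀ l ∈ (univ : Finset ι), 0 ≤ W F φ * W (u l) φ := by
    intro l _
    by_cases hl : φ + c l ∈ (U l).dualAnnihilator
    · rw [← hFc l φ hl]; exact mul_self_nonneg _
    · rw [hW, ind_of_not hl]; simp
  have h2 : W F φ * W (u i) φ + W F φ * W (u j) φ ≤ ∑ l, W F φ * W (u l) φ :=
    Finset.add_le_sum hnn (mem_univ i) (mem_univ j) hij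
  rw [← Finset.mul_sum, ← hWsum, ← hFc i φ hi, ← hFc j φ hj, hsq] at h2
  have h3 := hWs φ
  have h4 := mul_pos hM0 hM0
  rcases abs_eq hM0.le |>.1 (hFb φ) with h5 | h5 <;>
    rcases abs_eq hM0.le |>.1 (hHb φ) with h6 | h6 <;> rw [h5, h6] at h3 <;> rw [h5] at h2 <;>
    nlinarith

end Pool.Agent.Lib.MP_b90951_co.Hard
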