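import Mathlib
import Pool.Agent.Lib.MP_b90951_co.Example

namespace Pool.Agent.Lib.MP_b90951_co

namespace Six

open Finset Polynomial

/-! ### the 2-adic lemma -/

lemma cop (p : ℤ[X]) : IsCoprime (2 : ℤ[X]) (1 + 2 * p) := ⟨-p, 1, by ring⟩

lemma dvd_of_X_mul (k : ℕ) (p : ℤ[X]) (h : (2 : ℤ[X]) ^ k ∣ X * p) : (2 : ℤ[X]) ^ k ∣ p := by
  have e : (2 : ℤ[X]) ^ k = C (2 ^ k) := by simp
  rw [e, C_dvd_iff_dvd_coeff] at h ⊢
  intro j
  simpa [coeff_X_mul] using h (j + 1)

lemma top_even (p : ℤ[X]) (i : ℕ) : ∀ β : ℕ → ℤ,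
    (2 : ℤ[X]) ^ (4 * i + 1) ∣ ∑ a ∈ range (i + 1), C (β a) * (16 * (X * (1 + 2 * p))) ^ a →
      2 ∣ β i := by
  induction i with
  | zero =>
    intro β h
    have e : (2 : ℤ[X]) = C 2 := rfl
    simp only [mul_zero, zero_add, pow_one, range_one, sum_singleton, pow_zero, mul_one] at h
    rw [e, C_dvd_iff_dvd_coeff] at h
    simpa using h 0
  | succ i ih =>
    intro β h
    rw [sum_range_succ'] at h
    have h0 : (2 : ℤ) ^ (4 * (i + 1) + 1) ∣ β 0 := by
      have := map_dvd (evalRingHom (0 : ℤ)) h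
      simpa [eval_finsetSum] using this
    have h1 : (2 : ℤ[X]) ^ (4 * (i + 1) + 1) ∣ C (β 0) * (16 * (X * (1 + 2 * p))) ^ 0 := by
      have := map_dvd (C : ℤ →+* ℤ[X]) h0
      simpa using this
    have h2 := (dvd_add_left h1).1 h
    have e : ∑ a ∈ range (i + 1), C (β (a + 1)) * (16 * (X * (1 + 2 * p))) ^ (a + 1) =
        16 * (X * ((1 + 2 * p) *
          ∑ a ∈ range (i + 1), C (β (a + 1)) * (16 * (X * (1 + 2 * p))) ^ a)) := by
      simp only [mul_sum]
      exact sum_congr rfl fun a _ => by ring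
    have e2 : (2 : ℤ[X]) ^ (4 * (i + 1) + 1) = 16 * 2 ^ (4 * i + 1) := by ring
    rw [e, e2] at h2
    have h16 : (16 : ℤ[X]) ≠ 0 := by
      have : (16 : ℤ[X]) = C 16 := rfl
      rw [this]
      exact C_ne_zero.2 (by norm_num)
    have h3 := dvd_of_X_mul _ _ ((mul_dvd_mul_iff_left h16).1 h2)
    exact ih (fun a => β (a + 1)) ((cop p).pow_left.dvd_of_dvd_mul_left h3)

/-! ### sums against products of coordinates -/

/-- the sign as an integer -/
def si (t : ZMod 2) : ℤ := (-1) ^ t.val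

lemma si_add (s t : ZMod 2) : si (s + t) = si s * si t := by
  revert s t; decide

lemma two_val (t : ZMod 2) : (2 * (t.val : ℤ)) = 1 - si t := by
  revert t; decide

/-- all twisted sums of `g * u` are divisible by `2 ^ r` -/
def Pd {n : ℕ} (r : ℕ) (g : Cube n → ℤ) (u : Cube n → ℤ[X]) : Prop :=
  ∀ a : Cube n, (2 : ℤ[X]) ^ r ∣ ∑ x, C (g x * si (∑ i, a i * x i)) * u x

variable {n r : ℕ} {g : Cube n → ℤ} {u : Cube n → ℤ[X]}

lemma Pd.coord (h : Pd r g u) (j : Fin n) :
    Pd r g fun x => u x * C (2 * ((x j).val : ℤ)) := by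
  intro a
  have key := dvd_sub (h a) (h (a + Pi.single j 1))
  rw [← sum_sub_distrib] at key
  convert key using 2 with x
  have e : ∑ i, (a + Pi.single j 1 : Cube n) i * x i = ∑ i, a i * x i + x j := by
    simp [add_mul, sum_add_distrib, Pi.single_apply]
  beta_reduce
  rw [e, si_add, two_val]
  simp only [map_mul, map_sub, map_one]
  ring

lemma Pd.step (h : Pd r g u) (j k : Fin n) (α β : ℤ[X]) :
    Pd r g fun x => u x * (α + β * C (4 * ((x j).val * (x k).val : ℕ) : ℤ)) := by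
  intro a
  have key := dvd_add (Dvd.dvd.mul_left (h a) α) (Dvd.dvd.mul_left ((h.coord j).coord k a) β)
  rw [mul_sum, mul_sum, ← sum_add_distrib] at key
  convert key using 2 with x
  have e : (4 * ((x j).val * (x k).val : ℕ) : ℤ) =
      2 * ((x j).val : ℤ) * (2 * ((x k).val : ℤ)) := by
    push_cast; ring
  beta_reduce
  rw [e, map_mul C (2 * ((x j).val : ℤ))]
  ring

lemma Pd.prod {ι : Type} [DecidableEq ι] (h : Pd r g fun _ => 1) (A B : ι → Fin n)
    (α β : ι → ℤ[X]) (s : Finset ι) :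
    Pd r g fun x =>
      ∏ l ∈ s, (α l + β l * C (4 * ((x (A l)).val * (x (B l)).val : ℕ) : ℤ)) := by
  induction s using Finset.induction_on with
  | empty => simpa using h
  | insert l s hl ih =>
    have := ih.step (A l) (B l) (α l) (β l)
    simpa only [prod_insert hl, mul_comm] using this

lemma pd_one {r : ℕ} {f h : BoolFun (2 * r)} (hf : IsBent f) (hh : IsBent h) :
    Pd r (fun x => if f x + h x = 0 then 0 else si (f x)) fun _ => 1 := by
  intro a
  have e : walsh f a - walsh h a =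
      2 * ∑ x, (if f x + h x = 0 then 0 else si (f x)) * si (∑ i, a i * x i) := by
    rw [walsh, walsh, ← sum_sub_distrib, mul_sum]
    refine sum_congr rfl fun x _ => ?_
    generalize f x = s, h x = t, (∑ i, a i * x i) = w
    revert s t w; decide
  have h1 := hf a
  have h2 := hh a
  rw [show 2 * r / 2 = r by omega] at h1 h2
  have h3 : (2 : ℤ) * 2 ^ r ∣ walsh f a - walsh h a := by
    rcases (abs_eq (by positivity)).1 h1 with h1 | h1 <;>
      rcases (abs_eq (by positivity)).1 h2 with h2 | h2 <;> rw [h1, h2]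
    · simp
    · exact ⟨1, by ring⟩
    · exact ⟨-1, by ring⟩
    · simp
  rw [e] at h3
  have := map_dvd (C : ℤ →+* ℤ[X]) ((mul_dvd_mul_iff_left (by norm_num)).1 h3)
  simpa [map_sum] using this

/-! ### the function -/

/-- the number of pairs in `s` with both coordinates equal to one -/
def cnt {ι : Type} (A B : ι → Fin n) (s : Finset ι) (x : Cube n) : ℕ :=
  ∑ l ∈ s, (x (A l)).val * (x (B l)).val

lemma val_mul_cases (s t : ZMod 2) :
    s.val * t.val = 0 ∨ (s.val * t.val = 1 ∧ s = 1 ∧ t = 1) := by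
  revert s t; decide

lemma pd_const (c : ZMod 2) : PD (fun _ : Cube n => c) 0 :=
  ⟨MvPolynomial.C c, by simp, fun x => by simp⟩

lemma pd_pair (j k : Fin n) :
    PD (fun x : Cube n => (((x j).val * (x k).val : ℕ) : ZMod 2)) 2 := by
  refine ⟨MvPolynomial.X j * MvPolynomial.X k, ?_, fun x => by simp⟩
  refine (MvPolynomial.totalDegree_mul _ _).trans ?_
  simp

lemma pd_cnt {ι : Type} [DecidableEq ι] (A B : ι → Fin n) (s : Finset ι) :
    PD (fun x => (cnt A B s x : ZMod 2)) 2 ∧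
      PD (fun x => ((cnt A B s x).choose 2 : ZMod 2)) 4 := by
  induction s using Finset.induction_on with
  | empty =>
    exact ⟨by simpa [cnt] using (pd_const (n := n) 0).mono (Nat.zero_le 2),
      by simpa [cnt] using (pd_const (n := n) 0).mono (Nat.zero_le 4)⟩
  | insert l s hl ih =>
    have e : ∀ x, cnt A B (insert l s) x = (x (A l)).val * (x (B l)).val + cnt A B s x :=
      fun x => sum_insert hl
    constructor
    · have := (pd_pair (A l) (B l)).add ih.1
      simpa only [e, Nat.cast_add] using this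
    · have := ((pd_pair (A l) (B l)).mul ih.1).add ih.2
      convert this using 2 with x
      rw [e]
      rcases val_mul_cases (x (A l)) (x (B l)) with h | ⟨h, -⟩ <;> rw [h]
      · simp
      · rw [add_comm 1, Nat.choose_succ_succ', Nat.choose_one_right]
        simp

lemma choose_mod (a : ℕ) : a.choose 2 % 2 = a % 4 / 2 := by
  induction a with
  | zero => simp
  | succ a ih =>
    rw [Nat.choose_succ_succ', Nat.choose_one_right]
    have h4 : a % 4 = 0 ∨ a % 4 = 1 ∨ a % 4 = 2 ∨ a % 4 = 3 := by omega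
    have h5 : (1 + 1 : ℕ) = 2 := rfl
    rw [h5]
    generalize a.choose 2 = c at ih ⊢
    rcases h4 with h4 | h4 | h4 | h4 <;> omega

lemma mod_four {a b : ℕ}
    (h : (1 + (b : ZMod 2) + (a : ZMod 2)) *
      (1 + (b.choose 2 : ZMod 2) + (a.choose 2 : ZMod 2)) ≠ 0) : a % 4 = b % 4 := by
  have key : ∀ s t : ZMod 2, 1 + s + t ≠ 0 → t = s := by decide
  have h1 := (ZMod.natCast_eq_natCast_iff' _ _ _).1 (key _ _ (left_ne_zero_of_mul h))
  have h2 := (ZMod.natCast_eq_natCast_iff' _ _ _).1 (key _ _ (right_ne_zero_of_mul h))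
  rw [choose_mod, choose_mod] at h2
  omega

lemma cnt_le {ι : Type} (A B : ι → Fin n) (s : Finset ι) (x : Cube n) : cnt A B s x ≤ s.card := by
  rw [cnt, card_eq_sum_ones]
  exact sum_le_sum fun l _ => by
    rcases val_mul_cases (x (A l)) (x (B l)) with h | ⟨h, -⟩ <;> omega

lemma ones_of_cnt {ι : Type} (A B : ι → Fin n) (s : Finset ι) (x : Cube n)
    (h : cnt A B s x = s.card) : ∀ l ∈ s, x (A l) = 1 ∧ x (B l) = 1 := by
  rw [cnt, card_eq_sum_ones, sum_eq_sum_iff_of_le fun l _ => by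
    rcases val_mul_cases (x (A l)) (x (B l)) with h | ⟨h, -⟩ <;> omega] at h
  intro l hl
  have := h l hl
  rcases val_mul_cases (x (A l)) (x (B l)) with h0 | ⟨-, h1⟩
  · omega
  · exact h1

theorem not_sum {r : ℕ} (A B : Fin r → Fin (2 * r)) (hAB : ∀ j, ∃ l, j = A l ∨ j = B l)
    (s : Finset (Fin r)) (hs : 4 * (s.card / 4) + 1 + 2 * sᶜ.card ≤ r) :
    (fun x => (1 + (s.card : ZMod 2) + (cnt A B s x : ZMod 2)) *
      (1 + (s.card.choose 2 : ZMod 2) + ((cnt A B s x).choose 2 : ZMod 2))) ∉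
        BentSums (2 * r) := by
  rintro ⟨f, h, hf, hh, hψ⟩
  set g : Cube (2 * r) → ℤ := fun x => if f x + h x = 0 then 0 else si (f x) with hg
  set i := s.card / 4 with hi
  set m : Cube (2 * r) → ℤ :=
    fun x => ∏ l ∈ sᶜ, (((x (A l)).val * (x (B l)).val : ℕ) : ℤ) with hm
  set p : ℤ[X] := 3 * X + 8 * X ^ 2 + 8 * X ^ 3 with hp
  have hsupp : ∀ x, g x ≠ 0 → cnt A B s x % 4 = s.card % 4 := by
    intro x hx
    apply mod_four
    have := congrFun hψ x
    simp only [Pi.add_apply] at this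
    rw [this]
    intro h0
    exact hx (if_pos h0)
  have key := (pd_one hf hh).prod A B (fun l => if l ∈ s then 1 else 0)
    (fun l => if l ∈ s then X else 1) univ 0
  have e : ∀ x : Cube (2 * r), C (g x * si (∑ j, (0 : Cube (2 * r)) j * x j)) *
      ∏ l, ((if l ∈ s then 1 else 0) + (if l ∈ s then X else 1) *
        C (4 * ((x (A l)).val * (x (B l)).val : ℕ) : ℤ)) =
      2 ^ (2 * sᶜ.card) * ((1 + 2 * (2 * X)) ^ (s.card % 4) * ∑ a ∈ range (i + 1),
        C (g x * m x * ((cnt A B s x / 4).choose a : ℕ)) * (16 * (X * (1 + 2 * p))) ^ a) := by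
    intro x
    by_cases hx : g x = 0
    · simp [hx]
    have e1 : ∏ l ∈ s, ((if l ∈ s then 1 else 0) + (if l ∈ s then X else 1) *
        C (4 * ((x (A l)).val * (x (B l)).val : ℕ) : ℤ)) =
        (1 + 2 * (2 * X) : ℤ[X]) ^ cnt A B s x := by
      rw [cnt, ← prod_pow_eq_pow_sum]
      refine prod_congr rfl fun l hl => ?_
      rw [if_pos hl, if_pos hl]
      rcases val_mul_cases (x (A l)) (x (B l)) with h0 | ⟨h0, -⟩ <;> rw [h0]
      · simp
      · have : (C (4 * ((1 : ℕ) : ℤ)) : ℤ[X]) = 4 := rfl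
        rw [this]
        ring
    have e2 : ∏ l ∈ sᶜ, ((if l ∈ s then 1 else 0) + (if l ∈ s then X else 1) *
        C (4 * ((x (A l)).val * (x (B l)).val : ℕ) : ℤ)) = 2 ^ (2 * sᶜ.card) * C (m x) := by
      rw [hm, map_prod, pow_mul, ← prod_const, ← prod_mul_distrib]
      refine prod_congr rfl fun l hl => ?_
      have h4 : (C (4 : ℤ) : ℤ[X]) = 2 ^ 2 := by
        have : (C (4 : ℤ) : ℤ[X]) = 4 := rfl
        rw [this]; norm_num
      rw [if_neg (mem_compl.1 hl), if_neg (mem_compl.1 hl), map_mul, h4]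
      ring
    have hq : cnt A B s x / 4 ≤ i := Nat.div_le_div_right (cnt_le A B s x)
    have e3 : (1 + 2 * (2 * X) : ℤ[X]) ^ cnt A B s x = (1 + 2 * (2 * X)) ^ (s.card % 4) *
        ∑ a ∈ range (i + 1),
          ((cnt A B s x / 4).choose a : ℤ[X]) * (16 * (X * (1 + 2 * p))) ^ a := by
      have e4 : (1 + 2 * (2 * X) : ℤ[X]) ^ 4 = 16 * (X * (1 + 2 * p)) + 1 := by
        rw [hp]; ring
      have e6 : (16 * (X * (1 + 2 * p)) + 1 : ℤ[X]) ^ (cnt A B s x / 4) = ∑ a ∈ range (i + 1),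
          ((cnt A B s x / 4).choose a : ℤ[X]) * (16 * (X * (1 + 2 * p))) ^ a := by
        rw [add_pow, ← sum_subset (range_subset_range.2 (Nat.succ_le_succ hq))]
        · exact sum_congr rfl fun a _ => by ring
        · intro a _ ha
          rw [Nat.choose_eq_zero_of_lt (by simpa using ha)]
          simp
      rw [← e6, ← e4, ← pow_mul, ← pow_add, ← hsupp x hx, Nat.mod_add_div]
    rw [← prod_mul_prod_compl s, e1, e2, e3]
    have e5 : si (∑ j, (0 : Cube (2 * r)) j * x j) = 1 := by simp [si]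
    simp only [e5, mul_one, mul_sum, sum_mul, map_mul, map_natCast]
    exact sum_congr rfl fun a _ => by ring
  rw [sum_congr rfl fun x _ => e x, ← mul_sum, ← mul_sum, sum_comm] at key
  simp only [← sum_mul, ← map_sum] at key
  have h2 : (2 : ℤ[X]) ≠ 0 := by
    have : (2 : ℤ[X]) = C 2 := rfl
    rw [this]
    exact C_ne_zero.2 (by norm_num)
  have k1 := (pow_dvd_pow (2 : ℤ[X]) (show 2 * sᶜ.card + (4 * i + 1) ≤ r by omega)).trans key
  rw [pow_add, mul_dvd_mul_iff_left (pow_ne_zero _ h2)] at k1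
  have k2 := top_even p i _ ((cop (2 * X)).pow.dvd_of_dvd_mul_left k1)
  have hv : (1 : ZMod 2).val = 1 := rfl
  have hc1 : cnt A B s (fun _ => 1) = s.card := by simp [cnt, hv]
  rw [sum_eq_single (fun _ => (1 : ZMod 2))] at k2
  · have h1 := congrFun hψ fun _ => 1
    simp only [Pi.add_apply, hc1] at h1
    have h3 : ∀ c d : ZMod 2, (1 + c + c) * (1 + d + d) ≠ 0 := by decide
    have h4 : g (fun _ => 1) = si (f fun _ => 1) := if_neg (h1 ▸ h3 _ _)
    have h5 : ∀ t, ¬(2 : ℤ) ∣ si t := by decide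
    have h6 : m (fun _ => 1) = 1 := by
      simp only [hm, hv, mul_one, Nat.cast_one, prod_const_one]
    rw [h4, hc1, h6, ← hi, Nat.choose_self, Nat.cast_one, mul_one, mul_one] at k2
    exact h5 _ k2
  · intro x _ hx
    by_contra hne
    have g0 : g x ≠ 0 := fun h0 => hne (by simp [h0])
    have m0 : m x ≠ 0 := fun h0 => hne (by simp [h0])
    have c0 : i ≤ cnt A B s x / 4 := by
      by_contra hc
      exact hne (by rw [Nat.choose_eq_zero_of_lt (not_le.1 hc)]; simp)
    have c1 := cnt_le A B s x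
    have c2 := hsupp x g0
    have c3 := ones_of_cnt A B s x (by omega)
    have c4 : ∀ l, x (A l) = 1 ∧ x (B l) = 1 := by
      intro l
      by_cases hl : l ∈ s
      · exact c3 l hl
      · have := prod_ne_zero_iff.1 m0 l (mem_compl.2 hl)
        rcases val_mul_cases (x (A l)) (x (B l)) with h0 | ⟨-, h1⟩
        · rw [h0] at this
          simp at this
        · exact h1
    refine hx (funext fun j => ?_)
    obtain ⟨l, rfl | rfl⟩ := hAB j
    · exact (c4 l).1
    · exact (c4 l).2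
  · simp

end Six

open Finset in
/-- a function of degree at most six outside `X_n` -/
theorem exists_deg_six_not_sum (r : ℕ) (hr : 6 ≤ r) :
    ∃ ψ : BoolFun (2 * r), DegLE ψ 6 ∧ ψ ∉ BentSums (2 * r) := by
  obtain ⟨s, hs⟩ : ∃ s : Finset (Fin r), 4 * (s.card / 4) + 1 + 2 * sᶜ.card ≤ r := by
    by_cases h : r % 4 = 0
    · refine ⟨{(⟨0, by omega⟩ : Fin r)}ᶜ, ?_⟩
      simp only [compl_compl, card_compl, card_singleton, Fintype.card_fin]
      omega
    · refine ⟨univ, ?_⟩
      simp only [compl_univ, card_empty, card_univ, Fintype.card_fin]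
      omega
  let A : Fin r → Fin (2 * r) := fun l => ⟨l, by omega⟩
  let B : Fin r → Fin (2 * r) := fun l => ⟨r + l, by omega⟩
  refine ⟨_, PD.degLE ?_, Six.not_sum A B (fun j => ?_) s hs⟩
  · have h := Six.pd_cnt A B s
    exact (((Six.pd_const _).mono (Nat.zero_le 2)).add h.1).mul
      (((Six.pd_const _).mono (Nat.zero_le 4)).add h.2)
  · by_cases hj : (j : ℕ) < r
    · exact ⟨⟨j, hj⟩, Or.inl rfl⟩
    · exact ⟨⟨j - r, by omega⟩, Or.inr (Fin.ext (by simp only [B]; omega))⟩

end Pool.Agent.Lib.MP_b90951_co
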